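import Mathlib

/-!
# Characters of a free abelian group which separate a subgroup, locally finite
-/

set_option autoImplicit false

namespace Pool.Agent.H70.CS

open Finsupp

/-- A character with values in `ℝ/ℤ`, trivial on `K`, whose kernel meets the multiples of `x` in those
lying in `K`. -/
theorem exists_char {F : Type} [AddCommGroup F] (K : AddSubgroup F) (x : F) :
    ∃ c : F →+ AddCircle (1 : ℝ), (∀ k ∈ K, c k = 0) ∧ ∀ m : ℤ, c (m • x) = 0 → m • x ∈ K := by
  classical
  have hy : ∃ y : AddCircle (1 : ℝ), addOrderOf y = addOrderOf (QuotientAddGroup.mk' K x) := by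
    rcases Nat.eq_zero_or_pos (addOrderOf (QuotientAddGroup.mk' K x)) with h0 | hpos
    · refine ⟨((Real.sqrt 2 : ℝ) : AddCircle (1 : ℝ)), ?_⟩
      rw [h0, addOrderOf_eq_zero_iff', ]
      intro n hn h
      rw [← AddCircle.coe_nsmul, AddCircle.coe_eq_zero_iff] at h
      obtain ⟨k, hk⟩ := h
      rw [zsmul_eq_mul, nsmul_eq_mul, mul_one] at hk
      have hirr : Irrational ((n : ℝ) * Real.sqrt 2) := by
        have := irrational_sqrt_two.natCast_mul (m := n) (by omega)
        simpa using this
      exact hirr ⟨k, by simpa using hk⟩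
    · refine ⟨((1 / (addOrderOf (QuotientAddGroup.mk' K x) : ℕ) : ℝ) : AddCircle (1 : ℝ)), ?_⟩
      exact AddCircle.addOrderOf_period_div (p := (1 : ℝ)) hpos
  obtain ⟨y, hy⟩ := hy
  set ψ : ℤ →+ (F ⧸ K) := zmultiplesHom _ (QuotientAddGroup.mk' K x) with hψ
  set φ : ℤ →+ AddCircle (1 : ℝ) := zmultiplesHom _ y with hφ
  have hker : ∀ m : ℤ, φ m = 0 ↔ ψ m = 0 := by
    intro m
    rw [hψ, hφ, zmultiplesHom_apply, zmultiplesHom_apply, ← addOrderOf_dvd_iff_zsmul_eq_zero,
      ← addOrderOf_dvd_iff_zsmul_eq_zero, hy]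
  have hle : ψ.ker ≤ φ.ker := by
    intro m hm
    rw [AddMonoidHom.mem_ker] at hm ⊢
    exact (hker m).2 hm
  set g : ψ.range →+ AddCircle (1 : ℝ) :=
    (QuotientAddGroup.lift ψ.ker φ hle).comp (QuotientAddGroup.quotientKerEquivRange ψ).symm.toAddMonoidHom with hg
  have hgm : ∀ m : ℤ, g ⟨ψ m, ⟨m, rfl⟩⟩ = φ m := by
    intro m
    rw [hg, AddMonoidHom.comp_apply]
    have : (QuotientAddGroup.quotientKerEquivRange ψ).symm.toAddMonoidHom ⟨ψ m, ⟨m, rfl⟩⟩ =
        QuotientAddGroup.mk' ψ.ker m := by
      change (QuotientAddGroup.quotientKerEquivRange ψ).symm ⟨ψ m, ⟨m, rfl⟩⟩ = _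
      rw [AddEquiv.symm_apply_eq]
      rfl
    rw [this]
    rfl
  obtain ⟨h, hh⟩ := (Module.Baer.of_divisible (AddCircle (1 : ℝ))).extension_property_addMonoidHom
    ψ.range.subtype (AddSubgroup.subtype_injective _) g
  refine ⟨h.comp (QuotientAddGroup.mk' K), ?_, ?_⟩
  · intro k hk
    rw [AddMonoidHom.comp_apply, (QuotientAddGroup.eq_zero_iff k).2 hk |> fun e => (e : QuotientAddGroup.mk' K k = 0),
      map_zero]
  · intro m hm
    rw [AddMonoidHom.comp_apply, map_zsmul] at hm
    have h1 : h (m • QuotientAddGroup.mk' K x) = φ m := by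
      have h2 : h (m • QuotientAddGroup.mk' K x) = (h.comp ψ.range.subtype) ⟨ψ m, ⟨m, rfl⟩⟩ := rfl
      rw [h2, hh, hgm]
    rw [h1] at hm
    have h3 := (hker m).1 hm
    have h4 : (QuotientAddGroup.mk' K) (m • x) = 0 := by
      rw [map_zsmul]
      exact h3
    exact (QuotientAddGroup.eq_zero_iff _).1 h4

/-- A locally finite family of real numbers `E w l` whose sums detect membership in `H` modulo integers. -/
theorem exists_separating {W : Type} [Encodable W] (H : AddSubgroup (W →₀ ℤ)) :
    ∃ E : W → W → ℝ,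
      (∀ w l, 0 ≤ E w l ∧ E w l < 1) ∧
      (∀ w l, Encodable.encode l < Encodable.encode w → E w l = 0) ∧
      (∀ ρ : W →₀ ℤ, ρ ∈ H ↔ ∀ w, ∃ k : ℤ, (ρ.sum fun l m => (m : ℝ) * E w l) = k) := by
  classical
  set K : ℕ → AddSubgroup (W →₀ ℤ) := fun i =>
    H ⊔ AddSubgroup.closure {u | ∃ l : W, Encodable.encode l < i ∧ u = single l 1} with hK
  have hc : ∀ w : W, ∃ c : (W →₀ ℤ) →+ AddCircle (1 : ℝ), (∀ k ∈ K (Encodable.encode w), c k = 0) ∧
      ∀ m : ℤ, c (m • single w 1) = 0 → m • single w (1 : ℤ) ∈ K (Encodable.encode w) :=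
    fun w => exists_char (K (Encodable.encode w)) (single w 1)
  choose c hc0 hc1 using hc
  have hE : ∀ w l, ∃ r : ℝ, ((r : ℝ) : AddCircle (1 : ℝ)) = c w (single l 1) ∧ 0 ≤ r ∧ r < 1 := by
    intro w l
    obtain ⟨r, hr⟩ := QuotientAddGroup.mk_surjective (c w (single l 1))
    refine ⟨Int.fract r, ?_, Int.fract_nonneg _, Int.fract_lt_one _⟩
    rw [AddCircle.coe_fract]
    exact hr
  choose E hE0 hE1 hE2 using hE
  have hsum : ∀ w (ρ : W →₀ ℤ), (((ρ.sum fun l m => (m : ℝ) * E w l : ℝ)) : AddCircle (1 : ℝ)) = c w ρ := by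
    intro w ρ
    induction ρ using Finsupp.induction_linear with
    | zero => simp
    | add f g hf hg =>
      rw [Finsupp.sum_add_index' (by simp) (by intros; push_cast; ring), AddCircle.coe_add, hf, hg, map_add]
    | single l m =>
      rw [Finsupp.sum_single_index (by simp), ← zsmul_eq_mul, AddCircle.coe_zsmul, hE0, ← map_zsmul]
      congr 1
      simp
  have hint : ∀ w (ρ : W →₀ ℤ), (∃ k : ℤ, (ρ.sum fun l m => (m : ℝ) * E w l) = k) ↔ c w ρ = 0 := by
    intro w ρ
    rw [← hsum, AddCircle.coe_eq_zero_iff]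
    constructor
    · rintro ⟨k, hk⟩
      exact ⟨k, by rw [hk]; simp⟩
    · rintro ⟨k, hk⟩
      exact ⟨k, by rw [← hk]; simp⟩
  refine ⟨E, fun w l => ⟨hE1 w l, hE2 w l⟩, ?_, ?_⟩
  · intro w l hl
    have h0 : c w (single l 1) = 0 := by
      apply hc0 w
      exact AddSubgroup.mem_sup_right (AddSubgroup.subset_closure ⟨l, hl, rfl⟩)
    have h1 := hE0 w l
    rw [h0, AddCircle.coe_eq_zero_iff] at h1
    obtain ⟨k, hk⟩ := h1
    rw [zsmul_eq_mul, mul_one] at hk
    have h2 := hE1 w l
    have h3 := hE2 w l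
    rw [← hk] at h2 h3 ⊢
    have h4 : (0 : ℤ) ≤ k := by exact_mod_cast h2
    have h5 : k < 1 := by exact_mod_cast h3
    have : k = 0 := by omega
    simp [this]
  · intro ρ
    constructor
    · intro hρ w
      rw [hint]
      exact hc0 w ρ (AddSubgroup.mem_sup_left hρ)
    · intro h
      have hall : ∀ w, c w ρ = 0 := fun w => (hint w ρ).1 (h w)
      have hstep : ∀ i, ρ ∈ K (i + 1) → ρ ∈ K i := by
        intro i hi
        by_cases hex : ∃ w : W, Encodable.encode w = i
        · obtain ⟨w, hw⟩ := hex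
          have hle : K (i + 1) ≤ K i ⊔ AddSubgroup.zmultiples (single w (1 : ℤ)) := by
            rw [hK]
            refine sup_le (le_sup_of_le_left le_sup_left) ?_
            rw [AddSubgroup.closure_le]
            rintro u ⟨l, hl, rfl⟩
            rcases Nat.lt_succ_iff_lt_or_eq.1 hl with h1 | h1
            · exact AddSubgroup.mem_sup_left (AddSubgroup.mem_sup_right
                (AddSubgroup.subset_closure ⟨l, h1, rfl⟩))
            · have : l = w := Encodable.encode_injective (h1.trans hw.symm)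
              rw [this]
              exact AddSubgroup.mem_sup_right (AddSubgroup.mem_zmultiples _)
          obtain ⟨u, hu, v, hv, huv⟩ := AddSubgroup.mem_sup.1 (hle hi)
          obtain ⟨m, rfl⟩ := AddSubgroup.mem_zmultiples_iff.1 hv
          have h1 : c w (m • single w 1) = 0 := by
            have h2 := hall w
            rw [← huv, map_add, hc0 w u (by rw [hw]; exact hu), zero_add] at h2
            exact h2
          have h3 := hc1 w m h1
          rw [hw] at h3
          rw [← huv]
          exact add_mem hu h3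
        · have hle : K (i + 1) ≤ K i := by
            rw [hK]
            refine sup_le le_sup_left ?_
            rw [AddSubgroup.closure_le]
            rintro u ⟨l, hl, rfl⟩
            rcases Nat.lt_succ_iff_lt_or_eq.1 hl with h1 | h1
            · exact AddSubgroup.mem_sup_right (AddSubgroup.subset_closure ⟨l, h1, rfl⟩)
            · exact absurd ⟨l, h1⟩ hex
          exact hle hi
      have htop : ∃ i, ρ ∈ K i := by
        refine ⟨ρ.support.sup Encodable.encode + 1, ?_⟩
        have h1 : ρ = ∑ l ∈ ρ.support, ρ l • single l (1 : ℤ) := by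
          conv_lhs => rw [← Finsupp.sum_single ρ]
          rw [Finsupp.sum]
          refine Finset.sum_congr rfl fun l _ => ?_
          simp
        have h3 : ∑ l ∈ ρ.support, ρ l • single l (1 : ℤ) ∈ K (ρ.support.sup Encodable.encode + 1) := by
          refine sum_mem fun l hl => ?_
          have h2 : single l (1 : ℤ) ∈ K (ρ.support.sup Encodable.encode + 1) := by
            refine AddSubgroup.mem_sup_right (AddSubgroup.subset_closure ⟨l, ?_, rfl⟩)
            exact Nat.lt_succ_of_le (Finset.le_sup (f := Encodable.encode) hl)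
          exact zsmul_mem h2 _
        rwa [← h1] at h3
      obtain ⟨i, hi⟩ := htop
      have h0 : ∀ i, ρ ∈ K i → ρ ∈ K 0 := by
        intro i
        induction i with
        | zero => exact id
        | succ i ih => exact fun h => ih (hstep i h)
      have h1 := h0 i hi
      rw [hK] at h1
      simpa using h1

end Pool.Agent.H70.CS
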