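import Pool.Agent.H70.CS.Defs

/-!
# Dirichlet series over the primes modulo functions holomorphic in `Re s > 1/2`
-/

set_option autoImplicit false

namespace Pool.Agent.H70.CS

open Complex Filter Topology Finset

theorem isOpen_HP (σ : ℝ) : IsOpen (HP σ) := isOpen_lt continuous_const Complex.continuous_re

/-- The functions which agree in `Re s > 1` with a function holomorphic in `Re s > 1/2`. -/
def Neg : Submodule ℂ (ℂ → ℂ) where
  carrier := {f | ∃ h : ℂ → ℂ, DifferentiableOn ℂ h (HP (1 / 2)) ∧ ∀ s : ℂ, 1 < s.re → f s = h s}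
  zero_mem' := ⟨fun _ => 0, differentiableOn_const _, fun _ _ => rfl⟩
  add_mem' := by
    rintro f g ⟨h, hh, hf⟩ ⟨k, hk, hg⟩
    exact ⟨fun s => h s + k s, hh.add hk, fun s hs => by rw [Pi.add_apply, hf s hs, hg s hs]⟩
  smul_mem' := by
    rintro c f ⟨h, hh, hf⟩
    exact ⟨fun s => c * h s, hh.const_mul c, fun s hs => by rw [Pi.smul_apply, hf s hs, smul_eq_mul]⟩

theorem neg_of_eq {f g : ℂ → ℂ} (hf : f ∈ Neg) (h : ∀ s : ℂ, 1 < s.re → g s = f s) : g ∈ Neg := by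
  obtain ⟨k, hk, hfk⟩ := hf
  exact ⟨k, hk, fun s hs => (h s hs).trans (hfk s hs)⟩

theorem neg_shift {f : ℂ → ℂ} (hf : f ∈ Neg) {z : ℂ} (hz : 0 ≤ z.re) : (fun s => f (s + z)) ∈ Neg := by
  obtain ⟨k, hk, hfk⟩ := hf
  refine ⟨fun s => k (s + z), ?_, fun s hs => hfk _ ?_⟩
  · refine hk.comp ((differentiable_id.add_const z).differentiableOn) fun s hs => ?_
    show 1 / 2 < (s + z).re
    have : 1 / 2 < s.re := hs
    rw [Complex.add_re]; linarith
  · rw [Complex.add_re]; linarith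

/-- Local uniform convergence in the half-plane. -/
theorem differentiableOn_HP {ι : Type} {F : ι → ℂ → ℂ} {σ : ℝ} (hF : ∀ i, DifferentiableOn ℂ (F i) (HP σ))
    (hb : ∀ ε R : ℝ, 0 < ε → 0 < R → ∃ u : ι → ℝ, Summable u ∧ ∀ i s, σ + ε < s.re → ‖s‖ < R → ‖F i s‖ ≤ u i) :
    DifferentiableOn ℂ (fun s => ∑' i, F i s) (HP σ) := by
  intro s hs
  have hs' : σ < s.re := hs
  set ε := (s.re - σ) / 2 with hε
  have hε0 : 0 < ε := by rw [hε]; linarith
  obtain ⟨u, hu, hFu⟩ := hb ε (‖s‖ + 1) hε0 (by positivity)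
  have hU : IsOpen {w : ℂ | σ + ε < w.re ∧ ‖w‖ < ‖s‖ + 1} :=
    (isOpen_lt continuous_const Complex.continuous_re).inter (isOpen_lt continuous_norm continuous_const)
  have hsU : s ∈ {w : ℂ | σ + ε < w.re ∧ ‖w‖ < ‖s‖ + 1} := ⟨by rw [hε]; linarith, by linarith⟩
  have h := differentiableOn_tsum_of_summable_norm (F := F) hu
    (fun i => (hF i).mono fun w hw => show σ < w.re by have := hw.1; linarith) hU
    (fun i w hw => hFu i w hw.1 hw.2)
  exact ((h s hsU).differentiableAt (hU.mem_nhds hsU)).differentiableWithinAt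

theorem norm_cpow_neg {q : ℕ} (hq : 0 < q) (s : ℂ) : ‖(q : ℂ) ^ (-s)‖ = (q : ℝ) ^ (-s.re) := by
  rw [Complex.norm_natCast_cpow_of_pos hq, Complex.neg_re]

theorem norm_cpow_sub_le {q : ℕ} (hq : 0 < q) {s : ℂ} (hs : 0 < s.re) :
    ‖(q : ℂ) ^ (-s) - ((q + 1 : ℕ) : ℂ) ^ (-s)‖ ≤ ‖s‖ * (q : ℝ) ^ (-s.re - 1) := by
  have hq0 : (0 : ℝ) < q := by exact_mod_cast hq
  have hderiv : ∀ x ∈ Set.Icc (q : ℝ) (q + 1), HasDerivWithinAt (fun x : ℝ => (x : ℂ) ^ (-s))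
      (-s * (x : ℂ) ^ (-s - 1)) (Set.Icc (q : ℝ) (q + 1)) x := by
    intro x hx
    have hx0 : 0 < x := lt_of_lt_of_le hq0 hx.1
    have h1 : HasDerivAt (fun x : ℝ => (x : ℂ) ^ (-s)) (-s * (x : ℂ) ^ (-s - 1)) x := by
      have h2 : HasDerivAt (fun z : ℂ => z ^ (-s)) (-s * (x : ℂ) ^ (-s - 1)) (x : ℂ) := by
        have := (hasDerivAt_id (x : ℂ)).cpow_const (c := -s) (by simp [Complex.slitPlane, hx0])
        simpa using this
      exact h2.comp_ofReal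
    exact h1.hasDerivWithinAt
  have hbound : ∀ x ∈ Set.Icc (q : ℝ) (q + 1), ‖-s * (x : ℂ) ^ (-s - 1)‖ ≤ ‖s‖ * (q : ℝ) ^ (-s.re - 1) := by
    intro x hx
    have hx0 : 0 < x := lt_of_lt_of_le hq0 hx.1
    rw [norm_mul, norm_neg, Complex.norm_cpow_eq_rpow_re_of_pos hx0]
    have : (-s - 1).re = -s.re - 1 := by simp
    rw [this]
    gcongr ?_ * ?_
    exact Real.rpow_le_rpow_of_nonpos hq0 hx.1 (by linarith)
  have h := (convex_Icc (q : ℝ) (q + 1)).norm_image_sub_le_of_norm_hasDerivWithin_le hderiv hbound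
    (x := (q : ℝ) + 1) (y := (q : ℝ)) ⟨by linarith, le_refl _⟩ ⟨le_refl _, by linarith⟩
  push_cast at h ⊢
  refine h.trans (le_of_eq ?_)
  have : ‖(q : ℝ) - ((q : ℝ) + 1)‖ = 1 := by
    rw [show (q : ℝ) - ((q : ℝ) + 1) = -1 by ring]; simp
  rw [this, mul_one]

theorem abel_sum (c : ℕ → ℂ) (u : ℕ → ℂ) (N : ℕ) :
    ∑ q ∈ range (N + 1), c q * u q =
      (∑ q ∈ range (N + 1), c q) * u N + ∑ q ∈ range N, (∑ k ∈ range (q + 1), c k) * (u q - u (q + 1)) := by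
  induction N with
  | zero => simp
  | succ N ih =>
    rw [sum_range_succ, ih, sum_range_succ (fun q => (∑ k ∈ range (q + 1), c k) * (u q - u (q + 1))) N,
      sum_range_succ c (N + 1)]
    ring

/-- A Dirichlet series with partial sums of the coefficients `O(√N)` is holomorphic in `Re s > 1/2`. -/
theorem neg_of_sqrt {c : ℕ → ℂ} (h0 : c 0 = 0) {M : ℝ} (hM : ∀ q, ‖c q‖ ≤ M) {C : ℝ}
    (hC : ∀ N : ℕ, ‖∑ q ∈ range N, c q‖ ≤ C * Real.sqrt N) :
    (fun s : ℂ => ∑' q : ℕ, c q * (q : ℂ) ^ (-s)) ∈ Neg := by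
  have hC0 : 0 ≤ C := by
    have h1 := hC 1
    have h2 := norm_nonneg (∑ q ∈ range 1, c q)
    simp only [Nat.cast_one, Real.sqrt_one, mul_one] at h1
    linarith
  set S : ℕ → ℂ := fun q => ∑ k ∈ range (q + 1), c k with hS
  have hS0 : S 0 = 0 := by rw [hS]; simp [h0]
  have hSb : ∀ q : ℕ, 0 < q → ‖S q‖ ≤ C * (2 * (q : ℝ) ^ (1 / 2 : ℝ)) := by
    intro q hq
    refine (hC (q + 1)).trans ?_
    gcongr
    rw [← Real.sqrt_eq_rpow]
    have h1 : ((q + 1 : ℕ) : ℝ) ≤ 2 ^ 2 * q := by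
      have : (1 : ℝ) ≤ q := by exact_mod_cast hq
      push_cast; linarith
    calc Real.sqrt ((q + 1 : ℕ) : ℝ) ≤ Real.sqrt (2 ^ 2 * q) := Real.sqrt_le_sqrt h1
      _ = 2 * Real.sqrt q := by rw [Real.sqrt_mul (by norm_num), Real.sqrt_sq (by norm_num)]
  refine ⟨fun s => ∑' q : ℕ, S q * ((q : ℂ) ^ (-s) - ((q + 1 : ℕ) : ℂ) ^ (-s)), ?_, ?_⟩
  · refine differentiableOn_HP ?_ ?_
    · intro q
      rcases Nat.eq_zero_or_pos q with rfl | hq
      · rw [hS0]; simp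
      · have h1 : (q : ℂ) ≠ 0 := by exact_mod_cast hq.ne'
        have h2 : ((q + 1 : ℕ) : ℂ) ≠ 0 := by exact_mod_cast Nat.succ_ne_zero q
        exact (((differentiable_id.neg.const_cpow (Or.inl h1)).sub
          (differentiable_id.neg.const_cpow (Or.inl h2))).const_mul _).differentiableOn
    · intro ε R hε hR
      refine ⟨fun q => 2 * C * R * (q : ℝ) ^ (-1 - ε), ?_, ?_⟩
      · exact (Real.summable_nat_rpow.2 (by linarith)).mul_left _
      · intro q s hs hsR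
        rcases Nat.eq_zero_or_pos q with rfl | hq
        · rw [hS0, zero_mul, norm_zero]; positivity
        · have hq1 : (1 : ℝ) ≤ q := by exact_mod_cast hq
          have hq0 : (0 : ℝ) < q := by linarith
          rw [norm_mul]
          calc ‖S q‖ * ‖(q : ℂ) ^ (-s) - ((q + 1 : ℕ) : ℂ) ^ (-s)‖
              ≤ (C * (2 * (q : ℝ) ^ (1 / 2 : ℝ))) * (‖s‖ * (q : ℝ) ^ (-s.re - 1)) :=
                mul_le_mul (hSb q hq) (norm_cpow_sub_le hq (by linarith)) (norm_nonneg _) (by positivity)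
            _ = 2 * C * ‖s‖ * ((q : ℝ) ^ (1 / 2 : ℝ) * (q : ℝ) ^ (-s.re - 1)) := by ring
            _ = 2 * C * ‖s‖ * (q : ℝ) ^ (1 / 2 + (-s.re - 1) : ℝ) := by rw [Real.rpow_add hq0]
            _ ≤ 2 * C * R * (q : ℝ) ^ (-1 - ε) := by
                gcongr
                linarith
  · intro s hs
    have hsum : Summable fun q : ℕ => c q * (q : ℂ) ^ (-s) := by
      refine Summable.of_norm_bounded (g := fun q : ℕ => M * (q : ℝ) ^ (-s.re))
        ((Real.summable_nat_rpow.2 (by linarith)).mul_left _) fun q => ?_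
      rcases Nat.eq_zero_or_pos q with rfl | hq
      · rw [h0, zero_mul, norm_zero]
        have : 0 ≤ M := (norm_nonneg _).trans (hM 0)
        positivity
      · rw [norm_mul, norm_cpow_neg hq]
        gcongr
        exact hM q
    have h1 : Tendsto (fun N => ∑ q ∈ range (N + 1), c q * (q : ℂ) ^ (-s)) atTop
        (𝓝 (∑' q : ℕ, c q * (q : ℂ) ^ (-s))) :=
      (tendsto_add_atTop_iff_nat 1).2 hsum.hasSum.tendsto_sum_nat
    have hsum2 : Summable fun q : ℕ => S q * ((q : ℂ) ^ (-s) - ((q + 1 : ℕ) : ℂ) ^ (-s)) := by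
      refine Summable.of_norm_bounded (g := fun q : ℕ => 2 * C * ‖s‖ * (q : ℝ) ^ (-3 / 2 : ℝ))
        ((Real.summable_nat_rpow.2 (by norm_num)).mul_left _) fun q => ?_
      rcases Nat.eq_zero_or_pos q with rfl | hq
      · rw [hS0, zero_mul, norm_zero]; positivity
      · have hq1 : (1 : ℝ) ≤ q := by exact_mod_cast hq
        have hq0 : (0 : ℝ) < q := by linarith
        rw [norm_mul]
        calc ‖S q‖ * ‖(q : ℂ) ^ (-s) - ((q + 1 : ℕ) : ℂ) ^ (-s)‖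
            ≤ (C * (2 * (q : ℝ) ^ (1 / 2 : ℝ))) * (‖s‖ * (q : ℝ) ^ (-s.re - 1)) :=
              mul_le_mul (hSb q hq) (norm_cpow_sub_le hq (by linarith)) (norm_nonneg _) (by positivity)
          _ = 2 * C * ‖s‖ * ((q : ℝ) ^ (1 / 2 : ℝ) * (q : ℝ) ^ (-s.re - 1)) := by ring
          _ = 2 * C * ‖s‖ * (q : ℝ) ^ (1 / 2 + (-s.re - 1) : ℝ) := by rw [Real.rpow_add hq0]
          _ ≤ 2 * C * ‖s‖ * (q : ℝ) ^ (-3 / 2 : ℝ) := by
              gcongr
              linarith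
    have h2 : Tendsto (fun N => ∑ q ∈ range N, S q * ((q : ℂ) ^ (-s) - ((q + 1 : ℕ) : ℂ) ^ (-s))) atTop
        (𝓝 (∑' q : ℕ, S q * ((q : ℂ) ^ (-s) - ((q + 1 : ℕ) : ℂ) ^ (-s)))) := hsum2.hasSum.tendsto_sum_nat
    have h3 : Tendsto (fun N : ℕ => S N * (N : ℂ) ^ (-s)) atTop (𝓝 0) := by
      rw [tendsto_zero_iff_norm_tendsto_zero]
      have h4 : Tendsto (fun N : ℕ => 2 * C * (N : ℝ) ^ (-(s.re - 1 / 2))) atTop (𝓝 0) := by
        have := ((tendsto_rpow_neg_atTop (show 0 < s.re - 1 / 2 by linarith)).comp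
          tendsto_natCast_atTop_atTop).const_mul (2 * C)
        simpa using this
      refine squeeze_zero' (Eventually.of_forall fun _ => norm_nonneg _) ?_ h4
      filter_upwards [eventually_gt_atTop 0] with N hN
      have hN0 : (0 : ℝ) < N := by exact_mod_cast hN
      rw [norm_mul, norm_cpow_neg hN]
      calc ‖S N‖ * (N : ℝ) ^ (-s.re) ≤ (C * (2 * (N : ℝ) ^ (1 / 2 : ℝ))) * (N : ℝ) ^ (-s.re) := by
            gcongr; exact hSb N hN
        _ = 2 * C * ((N : ℝ) ^ (1 / 2 : ℝ) * (N : ℝ) ^ (-s.re)) := by ring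
        _ = 2 * C * (N : ℝ) ^ (-(s.re - 1 / 2)) := by
            rw [← Real.rpow_add hN0]; congr 2; ring
    have h5 : Tendsto (fun N => ∑ q ∈ range (N + 1), c q * (q : ℂ) ^ (-s)) atTop
        (𝓝 (0 + ∑' q : ℕ, S q * ((q : ℂ) ^ (-s) - ((q + 1 : ℕ) : ℂ) ^ (-s)))) := by
      have := h3.add h2
      refine this.congr fun N => ?_
      exact (abel_sum c (fun q : ℕ => (q : ℂ) ^ (-s)) N).symm
    rw [zero_add] at h5
    exact tendsto_nhds_unique h1 h5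

/-! ### Sums over the primes -/

/-- `∑ b(p) p^{-s}`. -/
noncomputable def dir (b : Nat.Primes → ℂ) (s : ℂ) : ℂ := ∑' p : Nat.Primes, b p * ((p : ℕ) : ℂ) ^ (-s)

/-- `- ∑ log(1 - b(p) p^{-s})`. -/
noncomputable def lam (b : Nat.Primes → ℂ) (s : ℂ) : ℂ :=
  ∑' p : Nat.Primes, -Complex.log (1 - b p * ((p : ℕ) : ℂ) ^ (-s))

theorem summable_primes {σ : ℝ} (hσ : 1 < σ) : Summable fun p : Nat.Primes => ((p : ℕ) : ℝ) ^ (-σ) :=
  Nat.Primes.summable_rpow.2 (by linarith)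

theorem summable_dir {b : Nat.Primes → ℂ} {M : ℝ} (hb : ∀ p, ‖b p‖ ≤ M) {s : ℂ} (hs : 1 < s.re) :
    Summable fun p : Nat.Primes => b p * ((p : ℕ) : ℂ) ^ (-s) := by
  refine Summable.of_norm_bounded ((summable_primes hs).mul_left M) fun p => ?_
  rw [norm_mul, norm_cpow_neg p.2.pos]
  gcongr
  exact hb p

theorem dir_add {b c : Nat.Primes → ℂ} {M M' : ℝ} (hb : ∀ p, ‖b p‖ ≤ M) (hc : ∀ p, ‖c p‖ ≤ M') {s : ℂ}
    (hs : 1 < s.re) : dir (fun p => b p + c p) s = dir b s + dir c s := by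
  unfold dir
  rw [← (summable_dir hb hs).tsum_add (summable_dir hc hs)]
  exact tsum_congr fun p => by ring

theorem dir_mul (k : ℂ) (b : Nat.Primes → ℂ) (s : ℂ) : dir (fun p => k * b p) s = k * dir b s := by
  unfold dir
  rw [← tsum_mul_left]
  exact tsum_congr fun p => by ring

theorem dir_finset_sum {κ : Type} (J : Finset κ) (b : κ → Nat.Primes → ℂ) (M : κ → ℝ) (hb : ∀ j p, ‖b j p‖ ≤ M j)
    {s : ℂ} (hs : 1 < s.re) : dir (fun p => ∑ j ∈ J, b j p) s = ∑ j ∈ J, dir (b j) s := by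
  unfold dir
  rw [← Summable.tsum_finsetSum fun j _ => summable_dir (hb j) hs]
  exact tsum_congr fun p => by rw [Finset.sum_mul]

theorem dir_shift (b : Nat.Primes → ℂ) (z s : ℂ) :
    dir (fun p => b p * ((p : ℕ) : ℂ) ^ (-z)) s = dir b (s + z) := by
  unfold dir
  refine tsum_congr fun p => ?_
  have hp : ((p : ℕ) : ℂ) ≠ 0 := by exact_mod_cast p.2.ne_zero
  rw [mul_assoc, ← Complex.cpow_add _ _ hp]
  congr 2
  ring

/-- Finitely many primes do not matter. -/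
theorem dir_finite {b : Nat.Primes → ℂ} (Q : ℕ) (hb : ∀ p : Nat.Primes, Q ≤ p → b p = 0) : dir b ∈ Neg := by
  classical
  have hfin : (Set.range fun p : {p : Nat.Primes // (p : ℕ) < Q} => p.1).Finite := by
    have : Set.Finite {p : Nat.Primes | (p : ℕ) < Q} := by
      refine Set.Finite.of_finite_image (f := fun p : Nat.Primes => (p : ℕ)) ?_
        (Nat.Primes.coe_nat_injective.injOn)
      exact (Set.finite_lt_nat Q).subset (by rintro _ ⟨p, hp, rfl⟩; exact hp)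
    refine this.subset ?_
    rintro _ ⟨p, rfl⟩
    exact p.2
  set F := hfin.toFinset
  refine ⟨fun s => ∑ p ∈ F, b p * ((p : ℕ) : ℂ) ^ (-s), ?_, fun s _ => ?_⟩
  · refine DifferentiableOn.fun_sum fun p _ => ?_
    have h1 : ((p : ℕ) : ℂ) ≠ 0 := by exact_mod_cast p.2.ne_zero
    exact ((differentiable_id.neg.const_cpow (Or.inl h1)).const_mul _).differentiableOn
  · unfold dir
    rw [tsum_eq_sum (s := F)]
    intro p hp
    rw [hb p, zero_mul]
    by_contra hlt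
    push Not at hlt
    exact hp (hfin.mem_toFinset.2 ⟨⟨p, hlt⟩, rfl⟩)

theorem norm_mul_cpow_lt {w : ℂ} (hw : ‖w‖ ≤ 1) {p : ℕ} (hp : 2 ≤ p) {s : ℂ} (hs : 1 / 2 < s.re) :
    ‖w * (p : ℂ) ^ (-s)‖ ≤ 3 / 4 := by
  have hp0 : (0 : ℝ) < p := by exact_mod_cast (by omega : 0 < p)
  have hp2 : (2 : ℝ) ≤ p := by exact_mod_cast hp
  rw [norm_mul, norm_cpow_neg (by omega)]
  have h1 : (p : ℝ) ^ (-s.re) ≤ 2 ^ (-(1 / 2) : ℝ) := by
    calc (p : ℝ) ^ (-s.re) ≤ (2 : ℝ) ^ (-s.re) := Real.rpow_le_rpow_of_nonpos (by norm_num) hp2 (by linarith)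
      _ ≤ 2 ^ (-(1 / 2) : ℝ) := Real.rpow_le_rpow_of_exponent_le (by norm_num) (by linarith)
  have h2 : (2 : ℝ) ^ (-(1 / 2) : ℝ) ≤ 3 / 4 := by
    rw [Real.rpow_neg (by norm_num), ← Real.sqrt_eq_rpow, inv_le_comm₀ (by positivity) (by norm_num)]
    exact Real.le_sqrt_of_sq_le (by norm_num)
  have h3 : (0 : ℝ) ≤ (p : ℝ) ^ (-s.re) := by positivity
  nlinarith [norm_nonneg w]

/-- The terms of higher degree do not matter. -/
theorem lam_sub_dir {b : Nat.Primes → ℂ} (hb : ∀ p, ‖b p‖ ≤ 1) : lam b - dir b ∈ Neg := by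
  have hbound : ∀ (p : Nat.Primes) (s : ℂ), 1 / 2 < s.re →
      ‖-Complex.log (1 - b p * ((p : ℕ) : ℂ) ^ (-s)) - b p * ((p : ℕ) : ℂ) ^ (-s)‖ ≤
        2 * ((p : ℕ) : ℝ) ^ (-(2 * s.re)) := by
    intro p s hs
    have h1 := norm_mul_cpow_lt (hb p) p.2.two_le hs
    have h2 := Complex.norm_log_one_add_sub_self_le (z := -(b p * ((p : ℕ) : ℂ) ^ (-s)))
      (by rw [norm_neg]; linarith)
    rw [norm_neg] at h2
    have h3 : -Complex.log (1 - b p * ((p : ℕ) : ℂ) ^ (-s)) - b p * ((p : ℕ) : ℂ) ^ (-s) =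
        -(Complex.log (1 + -(b p * ((p : ℕ) : ℂ) ^ (-s))) - -(b p * ((p : ℕ) : ℂ) ^ (-s))) := by
      rw [← sub_eq_add_neg]; ring
    rw [h3, norm_neg]
    refine h2.trans ?_
    have h4 : (1 - ‖b p * ((p : ℕ) : ℂ) ^ (-s)‖)⁻¹ ≤ 4 := by
      rw [inv_le_comm₀ (by linarith) (by norm_num)]
      linarith
    have h5 : ‖b p * ((p : ℕ) : ℂ) ^ (-s)‖ ^ 2 ≤ ((p : ℕ) : ℝ) ^ (-(2 * s.re)) := by
      have h6 : ‖b p * ((p : ℕ) : ℂ) ^ (-s)‖ ≤ ((p : ℕ) : ℝ) ^ (-s.re) := by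
        rw [norm_mul, norm_cpow_neg p.2.pos]
        have h7 : (0 : ℝ) ≤ ((p : ℕ) : ℝ) ^ (-s.re) := by positivity
        have := hb p
        nlinarith
      calc ‖b p * ((p : ℕ) : ℂ) ^ (-s)‖ ^ 2 ≤ (((p : ℕ) : ℝ) ^ (-s.re)) ^ 2 := by gcongr
        _ = ((p : ℕ) : ℝ) ^ (-(2 * s.re)) := by
          rw [← Real.rpow_natCast, ← Real.rpow_mul (Nat.cast_nonneg _)]
          congr 1
          push_cast
          ring
    have h8 : 0 ≤ ‖b p * ((p : ℕ) : ℂ) ^ (-s)‖ ^ 2 := by positivity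
    have h9 : (0 : ℝ) ≤ (1 - ‖b p * ((p : ℕ) : ℂ) ^ (-s)‖)⁻¹ := inv_nonneg.2 (by linarith)
    calc ‖b p * ((p : ℕ) : ℂ) ^ (-s)‖ ^ 2 * (1 - ‖b p * ((p : ℕ) : ℂ) ^ (-s)‖)⁻¹ / 2
        ≤ ((p : ℕ) : ℝ) ^ (-(2 * s.re)) * 4 / 2 := by gcongr
      _ = 2 * ((p : ℕ) : ℝ) ^ (-(2 * s.re)) := by ring
  refine ⟨fun s => ∑' p : Nat.Primes, (-Complex.log (1 - b p * ((p : ℕ) : ℂ) ^ (-s)) -
    b p * ((p : ℕ) : ℂ) ^ (-s)), ?_, ?_⟩
  · refine differentiableOn_HP (fun p s hs => ?_) ?_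
    · have hp : ((p : ℕ) : ℂ) ≠ 0 := by exact_mod_cast p.2.ne_zero
      have h1 : DifferentiableAt ℂ (fun s : ℂ => b p * ((p : ℕ) : ℂ) ^ (-s)) s :=
        (differentiable_id.neg.const_cpow (Or.inl hp)).differentiableAt.const_mul _
      have h2 : DifferentiableAt ℂ (fun s : ℂ => 1 - b p * ((p : ℕ) : ℂ) ^ (-s)) s :=
        (differentiableAt_const _).sub h1
      have h3 : 1 - b p * ((p : ℕ) : ℂ) ^ (-s) ∈ Complex.slitPlane := by
        rw [sub_eq_add_neg]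
        refine Complex.mem_slitPlane_of_norm_lt_one ?_
        rw [norm_neg]
        have := norm_mul_cpow_lt (hb p) p.2.two_le (show 1 / 2 < s.re from hs)
        linarith
      exact ((h2.clog h3).neg.sub h1).differentiableWithinAt
    · intro ε R hε hR
      refine ⟨fun p => 2 * ((p : ℕ) : ℝ) ^ (-(1 + 2 * ε)), (summable_primes (by linarith)).mul_left _, ?_⟩
      intro p s hs _
      refine (hbound p s (by linarith)).trans ?_
      have hp1 : (1 : ℝ) ≤ ((p : ℕ) : ℝ) := by exact_mod_cast p.2.one_lt.le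
      show 2 * ((p : ℕ) : ℝ) ^ (-(2 * s.re)) ≤ 2 * ((p : ℕ) : ℝ) ^ (-(1 + 2 * ε))
      have := Real.rpow_le_rpow_of_exponent_le hp1 (show -(2 * s.re) ≤ -(1 + 2 * ε) by linarith)
      linarith
  · intro s hs
    have h1 : Summable fun p : Nat.Primes => (-Complex.log (1 - b p * ((p : ℕ) : ℂ) ^ (-s)) -
        b p * ((p : ℕ) : ℂ) ^ (-s)) := by
      refine Summable.of_norm_bounded ((summable_primes (σ := 2 * s.re) (by linarith)).mul_left 2) fun p => ?_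
      exact hbound p s (by linarith)
    have h2 := summable_dir hb hs
    have h3 : lam b s = (∑' p : Nat.Primes, (-Complex.log (1 - b p * ((p : ℕ) : ℂ) ^ (-s)) -
        b p * ((p : ℕ) : ℂ) ^ (-s))) + dir b s := by
      unfold lam dir
      rw [← h1.tsum_add h2]
      exact tsum_congr fun p => by ring
    rw [Pi.sub_apply, h3]
    ring

theorem norm_lam_le {b : Nat.Primes → ℂ} (hb : ∀ p, ‖b p‖ ≤ 1) {s : ℂ} (hs : 1 < s.re) (p : Nat.Primes) :
    ‖-Complex.log (1 - b p * ((p : ℕ) : ℂ) ^ (-s))‖ ≤ 3 * ((p : ℕ) : ℝ) ^ (-s.re) := by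
  have h1 := norm_mul_cpow_lt (hb p) p.2.two_le (show 1 / 2 < s.re by linarith)
  have h2 := Complex.norm_log_one_add_le (z := -(b p * ((p : ℕ) : ℂ) ^ (-s))) (by rw [norm_neg]; linarith)
  rw [norm_neg, ← sub_eq_add_neg] at h2
  rw [norm_neg]
  have h4 : (1 - ‖b p * ((p : ℕ) : ℂ) ^ (-s)‖)⁻¹ ≤ 4 := by
    rw [inv_le_comm₀ (by linarith) (by norm_num)]
    linarith
  have h6 : ‖b p * ((p : ℕ) : ℂ) ^ (-s)‖ ≤ ((p : ℕ) : ℝ) ^ (-s.re) := by
    rw [norm_mul, norm_cpow_neg p.2.pos]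
    have h7 : (0 : ℝ) ≤ ((p : ℕ) : ℝ) ^ (-s.re) := by positivity
    have := hb p
    nlinarith
  have h8 := norm_nonneg (b p * ((p : ℕ) : ℂ) ^ (-s))
  have h9 : ‖b p * ((p : ℕ) : ℂ) ^ (-s)‖ ^ 2 * (1 - ‖b p * ((p : ℕ) : ℂ) ^ (-s)‖)⁻¹ / 2 ≤
      ‖b p * ((p : ℕ) : ℂ) ^ (-s)‖ * 1 * 4 / 2 := by
    have h10 : ‖b p * ((p : ℕ) : ℂ) ^ (-s)‖ ^ 2 ≤ ‖b p * ((p : ℕ) : ℂ) ^ (-s)‖ * 1 := by nlinarith
    have h11 : (0 : ℝ) ≤ (1 - ‖b p * ((p : ℕ) : ℂ) ^ (-s)‖)⁻¹ := inv_nonneg.2 (by linarith)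
    gcongr
  linarith

theorem summable_lam {b : Nat.Primes → ℂ} (hb : ∀ p, ‖b p‖ ≤ 1) {s : ℂ} (hs : 1 < s.re) :
    Summable fun p : Nat.Primes => -Complex.log (1 - b p * ((p : ℕ) : ℂ) ^ (-s)) :=
  Summable.of_norm_bounded ((summable_primes hs).mul_left 3) fun p => norm_lam_le hb hs p

theorem lam_differentiableOn {b : Nat.Primes → ℂ} (hb : ∀ p, ‖b p‖ ≤ 1) : DifferentiableOn ℂ (lam b) (HP 1) := by
  refine differentiableOn_HP (fun p s hs => ?_) ?_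
  · have hs' : 1 < s.re := hs
    have hp : ((p : ℕ) : ℂ) ≠ 0 := by exact_mod_cast p.2.ne_zero
    have h1 : DifferentiableAt ℂ (fun s : ℂ => b p * ((p : ℕ) : ℂ) ^ (-s)) s :=
      (differentiable_id.neg.const_cpow (Or.inl hp)).differentiableAt.const_mul _
    have h2 : DifferentiableAt ℂ (fun s : ℂ => 1 - b p * ((p : ℕ) : ℂ) ^ (-s)) s :=
      (differentiableAt_const _).sub h1
    have h3 : 1 - b p * ((p : ℕ) : ℂ) ^ (-s) ∈ Complex.slitPlane := by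
      rw [sub_eq_add_neg]
      refine Complex.mem_slitPlane_of_norm_lt_one ?_
      rw [norm_neg]
      have := norm_mul_cpow_lt (hb p) p.2.two_le (show 1 / 2 < s.re by linarith)
      linarith
    exact (h2.clog h3).neg.differentiableWithinAt
  · intro ε R hε hR
    refine ⟨fun p => 3 * ((p : ℕ) : ℝ) ^ (-(1 + ε)), (summable_primes (by linarith)).mul_left _, ?_⟩
    intro p s hs _
    refine (norm_lam_le hb (by linarith) p).trans ?_
    have hp1 : (1 : ℝ) ≤ ((p : ℕ) : ℝ) := by exact_mod_cast p.2.one_lt.le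
    show 3 * ((p : ℕ) : ℝ) ^ (-s.re) ≤ 3 * ((p : ℕ) : ℝ) ^ (-(1 + ε))
    have := Real.rpow_le_rpow_of_exponent_le hp1 (show -s.re ≤ -(1 + ε) by linarith)
    linarith

end Pool.Agent.H70.CS
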