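import Mathlib

/-!
# Tempered Satake families and their L-functions

The maximal torus of the dual group `GSpin_{2n+1}(ℂ)` of `GSp_{2n}` is `(ℂˣ)^{n+1}`, with coordinates
`(b₀; b₁, …, b_n)`; its maximal compact subgroup is `Torus n`.  The weights are the vectors `(e₀; e₁, …, e_n)` of
integers, the characters `b₀^{e₀} ∏ b_i^{e_i}`.
-/

set_option autoImplicit false

namespace Pool.Agent.H70.CS

/-- The weights `(e₀; e₁, …, e_n)` of the maximal torus. -/
abbrev Weight (n : ℕ) := ℤ × (Fin n → ℤ)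

/-- The compact torus of the points `(b₀; b₁, …, b_n)` with coordinates of absolute value one. -/
abbrev Torus (n : ℕ) := Circle × (Fin n → Circle)

/-- The value `b₀^{e₀} ∏ b_i^{e_i}` of a weight at a point. -/
noncomputable def chr {n : ℕ} (a : Torus n) (l : Weight n) : Circle :=
  a.1 ^ l.1 * ∏ i, a.2 i ^ l.2 i

theorem chr_add {n : ℕ} (a : Torus n) (l m : Weight n) : chr a (l + m) = chr a l * chr a m := by
  simp only [chr, Prod.fst_add, Prod.snd_add, Pi.add_apply, zpow_add, Finset.prod_mul_distrib]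
  exact mul_mul_mul_comm _ _ _ _

theorem chr_zero {n : ℕ} (a : Torus n) : chr a (0 : Weight n) = 1 := by
  simp [chr]

theorem chr_neg {n : ℕ} (a : Torus n) (l : Weight n) : chr a (-l) = (chr a l)⁻¹ := by
  simp only [chr, Prod.fst_neg, Prod.snd_neg, Pi.neg_apply, zpow_neg, Finset.prod_inv_distrib, mul_inv]

theorem chr_mul {n : ℕ} (a b : Torus n) (l : Weight n) : chr (a * b) l = chr a l * chr b l := by
  simp only [chr, Prod.fst_mul, Prod.snd_mul, Pi.mul_apply, mul_zpow, Finset.prod_mul_distrib]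
  exact mul_mul_mul_comm _ _ _ _

/-- The trivial representation. -/
noncomputable def triv (n : ℕ) : Weight n →₀ ℤ := Finsupp.single 0 1

/-- The dual of a virtual representation: the weights are replaced by their negatives. -/
noncomputable def dual {n : ℕ} (ρ : Weight n →₀ ℤ) : Weight n →₀ ℤ := Finsupp.mapDomain (fun l => -l) ρ

/-- The virtual representations of `GSpin_{2n+1}(ℂ)`, that is, the elements of its representation ring, given by
the multiplicities of their weights: these have to be invariant under the Weyl group, which is generated by the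
permutations of `e₁, …, e_n` and by `e_i ↦ e₀ - e_i`. -/
def VirtualRep (n : ℕ) : AddSubgroup (Weight n →₀ ℤ) where
  carrier := {ρ | (∀ (g : Equiv.Perm (Fin n)) (l : Weight n), ρ (l.1, l.2 ∘ g) = ρ l) ∧
    ∀ (i : Fin n) (l : Weight n), ρ (l.1, Function.update l.2 i (l.1 - l.2 i)) = ρ l}
  zero_mem' := ⟨fun _ _ => rfl, fun _ _ => rfl⟩
  add_mem' := by
    rintro a b ⟨ha, ha'⟩ ⟨hb, hb'⟩
    exact ⟨fun g l => by rw [Finsupp.add_apply, Finsupp.add_apply, ha, hb],
      fun i l => by rw [Finsupp.add_apply, Finsupp.add_apply, ha', hb']⟩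
  neg_mem' := by
    rintro a ⟨ha, ha'⟩
    exact ⟨fun g l => by rw [Finsupp.neg_apply, Finsupp.neg_apply, ha],
      fun i l => by rw [Finsupp.neg_apply, Finsupp.neg_apply, ha']⟩

/-- The L-function `L(s, A, ρ) = ∏_p ∏_l (1 - l(A_p) p^{-s})^{-m_l}` of a family of classes `A_p` and a virtual
representation with the multiplicities `m_l = ρ l` of the weights `l`. -/
noncomputable def LFun {n : ℕ} (A : Nat.Primes → Torus n) (ρ : Weight n →₀ ℤ) (s : ℂ) : ℂ :=
  ∏' p : Nat.Primes, ρ.prod fun l m => (1 - (chr (A p) l : ℂ) * ((p : ℕ) : ℂ) ^ (-s)) ^ (-m)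

/-- The Euler product `∏_p ∏_j (1 - B_j(p) p^{-s})⁻¹`. -/
noncomputable def LEuler {d : ℕ} (B : Nat.Primes → Fin d → ℂ) (s : ℂ) : ℂ :=
  ∏' p : Nat.Primes, ∏ j, (1 - B p j * ((p : ℕ) : ℂ) ^ (-s))⁻¹

/-- The twist `L(s, A × B, ρ ⊗ std) = ∏_p ∏_l ∏_j (1 - l(A_p) B_j(p) p^{-s})^{-m_l}`. -/
noncomputable def LTwist {n d : ℕ} (A : Nat.Primes → Torus n) (ρ : Weight n →₀ ℤ) (B : Nat.Primes → Fin d → ℂ)
    (s : ℂ) : ℂ :=
  ∏' p : Nat.Primes, ρ.prod fun l m => ∏ j, (1 - (chr (A p) l : ℂ) * B p j * ((p : ℕ) : ℂ) ^ (-s)) ^ (-m)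

/-- The open half-plane `Re s > σ`. -/
def HP (σ : ℝ) : Set ℂ := {s | σ < s.re}

/-- `f`, given in `Re s > 1`, continues to a meromorphic function in `Re s > σ`. -/
def Continues (σ : ℝ) (f : ℂ → ℂ) : Prop :=
  ∃ F : ℂ → ℂ, MeromorphicOn F (HP σ) ∧ ∀ s : ℂ, 1 < s.re → F s = f s

end Pool.Agent.H70.CS
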