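import Pool.Agent.H70.CS.Step

/-!
# The greedy choice
-/

set_option autoImplicit false

namespace Pool.Agent.H70.CS

open Complex ComplexConjugate Finset

theorem norm_expect_le {n : ℕ} {T : Finset (Weight n)} {g : Weight n → ℂ}
    (hg : ∑ l ∈ T, ‖g l‖ ≤ 1) (hz : ∀ l, l ∉ T → g l = 0) (m : Weight n) : ‖expect g m‖ ≤ 2 := by
  have h1 : ∀ m, ‖g m‖ ≤ 1 := by
    intro m
    by_cases h : m ∈ T
    · exact (Finset.single_le_sum (f := fun l => ‖g l‖) (fun _ _ => norm_nonneg _) h).trans hg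
    · rw [hz m h, norm_zero]; exact zero_le_one
  unfold expect
  refine (norm_add_le _ _).trans ?_
  have h2 : ‖(if m = 0 then (1 : ℂ) else 0)‖ ≤ 1 := by split_ifs <;> simp
  have h3 : ‖(g m + conj (g (-m))) / 2‖ ≤ 1 := by
    rw [norm_div, Complex.norm_two]
    have := norm_add_le (g m) (conj (g (-m)))
    rw [RCLike.norm_conj] at this
    have := h1 m
    have := h1 (-m)
    linarith
  linarith

theorem norm_sq_add (a b : ℂ) : ‖a + b‖ ^ 2 = ‖a‖ ^ 2 + 2 * (conj a * b).re + ‖b‖ ^ 2 := by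
  rw [← Complex.normSq_eq_norm_sq, ← Complex.normSq_eq_norm_sq, ← Complex.normSq_eq_norm_sq, Complex.normSq_add]
  have : (a * conj b).re = (conj a * b).re := by
    simp [Complex.mul_re]
  rw [this]
  ring

theorem sum_quarter (q : ℕ) : ∑ t ∈ range q, ((1 : ℝ) / 4) ^ t ≤ 2 := by
  have h : ∑ t ∈ range q, ((1 : ℝ) / 4) ^ t = (1 - (1 / 4) ^ q) * (4 / 3) := by
    induction q with
    | zero => simp
    | succ q ih => rw [sum_range_succ, ih, pow_succ]; ring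
  rw [h]
  have : (0 : ℝ) ≤ (1 / 4) ^ q := by positivity
  linarith

theorem quarter_pow_le (q : ℕ) : ((1 : ℝ) / 4) ^ q * ((q : ℝ) + 1) ^ 2 ≤ 1 := by
  have h1 : (q : ℝ) + 1 ≤ 2 ^ q := by
    exact_mod_cast Nat.lt_two_pow_self (n := q)
  have h2 : ((q : ℝ) + 1) ^ 2 ≤ (2 ^ q) ^ 2 := by gcongr
  calc ((1 : ℝ) / 4) ^ q * ((q : ℝ) + 1) ^ 2 ≤ (1 / 4) ^ q * (2 ^ q) ^ 2 := by gcongr
    _ = 1 := by
      rw [← pow_mul, mul_comm q 2, pow_mul, ← mul_pow]
      norm_num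

/-- **Greedy choice.**  A sequence of points of the torus which, tested against countably many weights with
bounded coefficients, deviates from the prescribed mean values by `O(√N)`. -/
theorem exists_greedy {n : ℕ} (T : ℕ → Finset (Weight n)) (g : ℕ → Weight n → ℂ)
    (h0 : ∀ q, (0 : Weight n) ∉ T q) (hg : ∀ q, ∑ l ∈ T q, ‖g q l‖ ≤ 1) (hz : ∀ q l, l ∉ T q → g q l = 0)
    (lt : ℕ → Weight n) (β : ℕ → ℕ → ℂ) (hβ : ∀ t q, ‖β t q‖ ≤ 1) :
    ∃ A : ℕ → Torus n, ∀ t, ∃ C : ℝ, ∀ N : ℕ,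
      ‖∑ q ∈ range N, β t q * ((chr (A q) (lt t) : ℂ) - expect (g q) (lt t))‖ ≤ C * Real.sqrt N := by
  classical
  have hstep : ∀ (q : ℕ) (D : ℕ → ℂ), ∃ x : Torus n,
      (∑ t ∈ range q, ((((1 : ℝ) / 4) ^ t : ℝ) * conj (D t) * β t q) *
        ((chr x (lt t) : ℂ) - expect (g q) (lt t))).re ≤ 0 :=
    fun q D => exists_step (T q) (g q) (h0 q) (hg q) (hz q) (range q) lt _
  choose step hs using hstep
  let v : ℕ → (ℕ → ℂ) → ℕ → ℂ := fun q D t => β t q * ((chr (step q D) (lt t) : ℂ) - expect (g q) (lt t))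
  let D : ℕ → ℕ → ℂ := fun q => Nat.rec (motive := fun _ => ℕ → ℂ) (fun _ => 0) (fun q D t => D t + v q D t) q
  have hD0 : ∀ t, D 0 t = 0 := fun t => rfl
  have hDs : ∀ q t, D (q + 1) t = D q t + v q (D q) t := fun q t => rfl
  have hv : ∀ q D t, ‖v q D t‖ ≤ 3 := by
    intro q D t
    show ‖β t q * ((chr (step q D) (lt t) : ℂ) - expect (g q) (lt t))‖ ≤ 3
    rw [norm_mul]
    have h1 : ‖(chr (step q D) (lt t) : ℂ) - expect (g q) (lt t)‖ ≤ 3 := by
      refine (norm_sub_le _ _).trans ?_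
      rw [Circle.norm_coe]
      have := norm_expect_le (hg q) (hz q) (lt t)
      linarith
    have h2 := mul_le_mul (hβ t q) h1 (norm_nonneg _) zero_le_one
    linarith
  have hDtriv : ∀ q t, ‖D q t‖ ≤ 3 * q := by
    intro q t
    induction q with
    | zero => rw [hD0]; simp
    | succ q ih =>
      rw [hDs]
      refine (norm_add_le _ _).trans ?_
      have := hv q (D q) t
      push_cast
      linarith
  let Φ : ℕ → ℝ := fun q => ∑ t ∈ range q, ((1 : ℝ) / 4) ^ t * ‖D q t‖ ^ 2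
  have hΦ : ∀ q : ℕ, Φ q ≤ 27 * q := by
    intro q
    induction q with
    | zero => show ∑ t ∈ range 0, _ ≤ _; simp
    | succ q ih =>
      have h1 : Φ (q + 1) = ∑ t ∈ range q, ((1 : ℝ) / 4) ^ t * ‖D (q + 1) t‖ ^ 2 +
          (1 / 4) ^ q * ‖D (q + 1) q‖ ^ 2 := by
        show ∑ t ∈ range (q + 1), _ = _
        rw [sum_range_succ]
      have h2 : (1 / 4 : ℝ) ^ q * ‖D (q + 1) q‖ ^ 2 ≤ 9 := by
        have h3 := hDtriv (q + 1) q
        push_cast at h3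
        have h4 : ‖D (q + 1) q‖ ^ 2 ≤ (3 * ((q : ℝ) + 1)) ^ 2 := by gcongr
        have h5 := quarter_pow_le q
        calc (1 / 4 : ℝ) ^ q * ‖D (q + 1) q‖ ^ 2 ≤ (1 / 4 : ℝ) ^ q * (3 * ((q : ℝ) + 1)) ^ 2 := by gcongr
          _ = 9 * ((1 / 4 : ℝ) ^ q * ((q : ℝ) + 1) ^ 2) := by ring
          _ ≤ 9 := by linarith
      have h3 : ∑ t ∈ range q, ((1 : ℝ) / 4) ^ t * ‖D (q + 1) t‖ ^ 2 =
          Φ q + 2 * (∑ t ∈ range q, ((((1 : ℝ) / 4) ^ t : ℝ) * conj (D q t) * β t q) *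
            ((chr (step q (D q)) (lt t) : ℂ) - expect (g q) (lt t))).re +
          ∑ t ∈ range q, ((1 : ℝ) / 4) ^ t * ‖v q (D q) t‖ ^ 2 := by
        rw [Complex.re_sum, Finset.mul_sum]
        show _ = ∑ t ∈ range q, _ + _ + _
        rw [← sum_add_distrib, ← sum_add_distrib]
        refine sum_congr rfl fun t _ => ?_
        rw [hDs, norm_sq_add]
        have h4 : ((((1 : ℝ) / 4) ^ t : ℝ) * conj (D q t) * β t q *
            ((chr (step q (D q)) (lt t) : ℂ) - expect (g q) (lt t))) =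
            (((1 : ℝ) / 4) ^ t : ℝ) * (conj (D q t) * v q (D q) t) := by
          show _ = (((1 : ℝ) / 4) ^ t : ℝ) * (conj (D q t) *
            (β t q * ((chr (step q (D q)) (lt t) : ℂ) - expect (g q) (lt t))))
          ring
        rw [h4, Complex.re_ofReal_mul]
        ring
      have h4 : ∑ t ∈ range q, ((1 : ℝ) / 4) ^ t * ‖v q (D q) t‖ ^ 2 ≤ 18 := by
        calc ∑ t ∈ range q, ((1 : ℝ) / 4) ^ t * ‖v q (D q) t‖ ^ 2 ≤ ∑ t ∈ range q, ((1 : ℝ) / 4) ^ t * 9 := by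
              refine sum_le_sum fun t _ => ?_
              have h5 : ‖v q (D q) t‖ ^ 2 ≤ 3 ^ 2 := by gcongr; exact hv q (D q) t
              have h6 : (0 : ℝ) ≤ (1 / 4) ^ t := by positivity
              nlinarith
          _ = (∑ t ∈ range q, ((1 : ℝ) / 4) ^ t) * 9 := by rw [sum_mul]
          _ ≤ 18 := by have := sum_quarter q; linarith
      have h5 := hs q (D q)
      rw [h1, h3, Nat.cast_succ]
      linarith
  refine ⟨fun q => step q (D q), fun t => ?_⟩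
  have hsum : ∀ N : ℕ, ∑ q ∈ range N, β t q * ((chr (step q (D q)) (lt t) : ℂ) - expect (g q) (lt t)) = D N t := by
    intro N
    induction N with
    | zero => rw [hD0]; simp
    | succ N ih => rw [sum_range_succ, ih, hDs]
  refine ⟨3 * (t + 1) + Real.sqrt (27 * 4 ^ t), fun N => ?_⟩
  rw [hsum]
  have hsN : 0 ≤ Real.sqrt N := Real.sqrt_nonneg _
  rcases Nat.lt_or_ge t N with h | h
  · have h1 : ((1 : ℝ) / 4) ^ t * ‖D N t‖ ^ 2 ≤ 27 * N := by
      refine le_trans ?_ (hΦ N)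
      exact single_le_sum (f := fun t => ((1 : ℝ) / 4) ^ t * ‖D N t‖ ^ 2) (fun _ _ => by positivity)
        (mem_range.2 h)
    have h2 : ‖D N t‖ ^ 2 ≤ 27 * 4 ^ t * N := by
      have h3 : (4 : ℝ) ^ t * ((1 / 4) ^ t * ‖D N t‖ ^ 2) = ‖D N t‖ ^ 2 := by
        rw [← mul_assoc, ← mul_pow]; norm_num
      rw [← h3]
      calc (4 : ℝ) ^ t * ((1 / 4) ^ t * ‖D N t‖ ^ 2) ≤ 4 ^ t * (27 * N) := by gcongr
        _ = 27 * 4 ^ t * N := by ring
    have h3 : ‖D N t‖ ≤ Real.sqrt (27 * 4 ^ t) * Real.sqrt N := by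
      rw [← Real.sqrt_mul (by positivity)]
      exact Real.le_sqrt_of_sq_le h2
    have h4 : 0 ≤ 3 * ((t : ℝ) + 1) * Real.sqrt N := by positivity
    linarith [add_mul (3 * ((t : ℝ) + 1)) (Real.sqrt (27 * 4 ^ t)) (Real.sqrt N)]
  · have h1 := hDtriv N t
    have h2 : (N : ℝ) = Real.sqrt N * Real.sqrt N := (Real.mul_self_sqrt (Nat.cast_nonneg N)).symm
    have h3 : Real.sqrt N ≤ t + 1 := by
      rw [Real.sqrt_le_left (by positivity)]
      have h4 : (N : ℝ) ≤ t := by exact_mod_cast h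
      have h5 : (0 : ℝ) ≤ t := Nat.cast_nonneg t
      nlinarith
    have h4 : ‖D N t‖ ≤ 3 * (t + 1) * Real.sqrt N := by
      calc ‖D N t‖ ≤ 3 * N := h1
        _ = 3 * (Real.sqrt N * Real.sqrt N) := by rw [← h2]
        _ ≤ 3 * ((t + 1) * Real.sqrt N) := by gcongr
        _ = 3 * (t + 1) * Real.sqrt N := by ring
    have h5 : 0 ≤ Real.sqrt (27 * 4 ^ t) * Real.sqrt N := by positivity
    linarith [add_mul (3 * ((t : ℝ) + 1)) (Real.sqrt (27 * 4 ^ t)) (Real.sqrt N)]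

end Pool.Agent.H70.CS
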