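import Pool.Agent.H70.CS.Ana
import Pool.Agent.H70.CS.Greedy
import Pool.Agent.H70.CS.Alg

/-!
# The family of Satake classes with prescribed exponents
-/

set_option autoImplicit false

namespace Pool.Agent.H70.CS

open Complex Filter Topology Finset ComplexConjugate

/-- The shifts `x + i (encode w + 1)`. -/
noncomputable def zz {W : Type} [Encodable W] (x : ℝ) (w : W) : ℂ :=
  (x : ℂ) + ((Encodable.encode w + 1 : ℕ) : ℂ) * Complex.I

theorem zz_re {W : Type} [Encodable W] (x : ℝ) (w : W) : (zz x w).re = x := by simp [zz]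

theorem zz_im {W : Type} [Encodable W] (x : ℝ) (w : W) : (zz x w).im = (Encodable.encode w : ℝ) + 1 := by
  simp [zz]

/-- The elements with index at most that of `l`. -/
noncomputable def below {W : Type} [Encodable W] (l : W) : Finset W :=
  (Finset.range (Encodable.encode l + 1)).preimage Encodable.encode Encodable.encode_injective.injOn

theorem mem_below {W : Type} [Encodable W] {w l : W} : w ∈ below l ↔ Encodable.encode w ≤ Encodable.encode l := by
  rw [below, Finset.mem_preimage, Finset.mem_range, Nat.lt_succ_iff]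

theorem card_below {W : Type} [Encodable W] (l : W) : (below l).card ≤ Encodable.encode l + 1 := by
  have h := Finset.card_le_card_of_injOn (s := below l) (t := Finset.range (Encodable.encode l + 1))
    Encodable.encode (fun w hw => by
      rw [Finset.mem_coe, mem_below] at hw
      rw [Finset.mem_coe, Finset.mem_range]; omega) Encodable.encode_injective.injOn
  simpa using h

theorem conj_natCast_cpow (q : ℕ) (z : ℂ) : conj ((q : ℂ) ^ z) = (q : ℂ) ^ (conj z) := by
  have h5 : ((q : ℕ) : ℂ).arg ≠ Real.pi := by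
    rw [Complex.natCast_arg]
    exact Real.pi_ne_zero.symm
  rw [Complex.cpow_conj _ _ h5, Complex.conj_natCast]

/-- The mean values which produce the exponents `E w l` at the points `1 - zz w`. -/
noncomputable def dens {W : Type} [Encodable W] (E : W → W → ℝ) (x : ℝ) (Q : W → ℕ) (q : ℕ) (l : W) : ℂ :=
  open Classical in
  if Q l ≤ q then 2 * ∑ w ∈ below l, (E w l : ℂ) * (q : ℂ) ^ (-zz x w) else 0

theorem exists_start {W : Type} [Encodable W] (E : W → W → ℝ) (hE : ∀ w l, 0 ≤ E w l ∧ E w l < 1) {x : ℝ}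
    (hx : 0 < x) : ∃ Q : W → ℕ, ∀ l, Encodable.encode l ≤ Q l ∧
      ∀ q, ‖dens E x Q q l‖ ≤ (1 / 2) ^ (Encodable.encode l + 1) := by
  have h1 : ∀ l : W, ∃ Q : ℕ, Encodable.encode l ≤ Q ∧ 0 < Q ∧ ∀ q : ℕ, Q ≤ q →
      2 * ((Encodable.encode l : ℝ) + 1) * (q : ℝ) ^ (-x) ≤ (1 / 2) ^ (Encodable.encode l + 1) := by
    intro l
    have h2 : Tendsto (fun q : ℕ => 2 * ((Encodable.encode l : ℝ) + 1) * (q : ℝ) ^ (-x)) atTop (𝓝 0) := by
      have := ((tendsto_rpow_neg_atTop hx).comp tendsto_natCast_atTop_atTop).const_mul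
        (2 * ((Encodable.encode l : ℝ) + 1))
      simpa using this
    have h3 := h2.eventually (ge_mem_nhds (show (0 : ℝ) < (1 / 2) ^ (Encodable.encode l + 1) by positivity))
    obtain ⟨Q, hQ⟩ := eventually_atTop.1 h3
    exact ⟨Q + Encodable.encode l + 1, by omega, by omega, fun q hq => hQ q (by omega)⟩
  choose Q hQ1 hQ0 hQ2 using h1
  refine ⟨Q, fun l => ⟨hQ1 l, fun q => ?_⟩⟩
  unfold dens
  split_ifs with h
  · have hq : 0 < q := lt_of_lt_of_le (hQ0 l) h
    refine le_trans ?_ (hQ2 l q h)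
    rw [norm_mul, Complex.norm_two, mul_assoc]
    refine mul_le_mul_of_nonneg_left ?_ (by norm_num)
    calc ‖∑ w ∈ below l, (E w l : ℂ) * (q : ℂ) ^ (-zz x w)‖
        ≤ ∑ w ∈ below l, ‖(E w l : ℂ) * (q : ℂ) ^ (-zz x w)‖ := norm_sum_le _ _
      _ ≤ ∑ w ∈ below l, (q : ℝ) ^ (-x) := by
          refine Finset.sum_le_sum fun w _ => ?_
          rw [norm_mul, norm_cpow_neg hq, zz_re, Complex.norm_real, Real.norm_eq_abs, abs_of_nonneg (hE w l).1]
          have h4 : (0 : ℝ) ≤ (q : ℝ) ^ (-x) := by positivity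
          have := (hE w l).2
          nlinarith
      _ = (below l).card * (q : ℝ) ^ (-x) := by rw [Finset.sum_const, nsmul_eq_mul]
      _ ≤ ((Encodable.encode l : ℝ) + 1) * (q : ℝ) ^ (-x) := by
          gcongr
          exact_mod_cast card_below l
  · rw [norm_zero]; positivity

theorem sum_half (N : ℕ) : ∑ j ∈ range N, ((1 : ℝ) / 2) ^ (j + 1) ≤ 1 := by
  have h : ∑ j ∈ range N, ((1 : ℝ) / 2) ^ (j + 1) = 1 - (1 / 2) ^ N := by
    induction N with
    | zero => simp
    | succ q ih => rw [sum_range_succ, ih, pow_succ]; ring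
  rw [h]
  have : (0 : ℝ) ≤ (1 / 2) ^ N := by positivity
  linarith

/-- Existence of the family. -/
theorem exists_family {n : ℕ} [Encodable (Weight n)] (E : Weight n → Weight n → ℝ)
    (hE : ∀ w l, 0 ≤ E w l ∧ E w l < 1) (hE0 : ∀ w, E w 0 = 0) {x : ℝ} (hx : 0 < x)
    {κ : Type} [Countable κ] (b : κ → Nat.Primes → ℂ) (hb : ∀ k p, ‖b k p‖ ≤ 1) :
    ∃ (A : ℕ → Torus n) (Q : Weight n → ℕ), (∀ q l, ‖expect (dens E x Q q) l‖ ≤ 2) ∧
      ∀ (k : κ) (l : Weight n),
        dir (fun p => b k p * ((chr (A p) l : ℂ) - expect (dens E x Q p) l)) ∈ Neg := by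
  classical
  obtain ⟨Q, hQ⟩ := exists_start E hE hx
  let T : ℕ → Finset (Weight n) := fun q =>
    (((Finset.range (q + 1)).preimage Encodable.encode Encodable.encode_injective.injOn).filter
      (fun l => l ≠ 0))
  have hd0 : ∀ q, dens E x Q q 0 = 0 := by
    intro q
    unfold dens
    split_ifs
    · rw [Finset.sum_eq_zero fun w _ => by rw [hE0 w]; simp, mul_zero]
    · rfl
  have hT0 : ∀ q, (0 : Weight n) ∉ T q := fun q h => (Finset.mem_filter.1 h).2 rfl
  have hTg : ∀ q, ∑ l ∈ T q, ‖dens E x Q q l‖ ≤ 1 := by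
    intro q
    calc ∑ l ∈ T q, ‖dens E x Q q l‖ ≤ ∑ l ∈ T q, ((1 : ℝ) / 2) ^ (Encodable.encode l + 1) :=
          Finset.sum_le_sum fun l _ => (hQ l).2 q
      _ = ∑ j ∈ (T q).image Encodable.encode, ((1 : ℝ) / 2) ^ (j + 1) := by
          rw [Finset.sum_image Encodable.encode_injective.injOn]
      _ ≤ ∑ j ∈ range (q + 1), ((1 : ℝ) / 2) ^ (j + 1) := by
          refine Finset.sum_le_sum_of_subset_of_nonneg ?_ fun _ _ _ => by positivity
          intro j hj
          obtain ⟨l, hl, rfl⟩ := Finset.mem_image.1 hj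
          exact Finset.mem_preimage.1 (Finset.mem_filter.1 hl).1
      _ ≤ 1 := sum_half _
  have hTz : ∀ q l, l ∉ T q → dens E x Q q l = 0 := by
    intro q l hl
    by_cases h0 : l = 0
    · rw [h0]; exact hd0 q
    · unfold dens
      rw [if_neg]
      intro hle
      apply hl
      refine Finset.mem_filter.2 ⟨Finset.mem_preimage.2 (Finset.mem_range.2 ?_), h0⟩
      have := (hQ l).1
      omega
  rcases isEmpty_or_nonempty κ with hκ | hκ
  · exact ⟨fun _ => 1, Q, fun q l => norm_expect_le (hTg q) (hTz q) l, fun k => (hκ.false k).elim⟩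
  · obtain ⟨e, he⟩ := exists_surjective_nat (Weight n × κ)
    obtain ⟨A, hA⟩ := exists_greedy T (dens E x Q) hT0 hTg hTz (fun t => (e t).1)
      (fun t q => if h : q.Prime then b (e t).2 ⟨q, h⟩ else 0) (fun t q => by
        split_ifs with h
        · exact hb _ _
        · rw [norm_zero]; exact zero_le_one)
    refine ⟨A, Q, fun q l => norm_expect_le (hTg q) (hTz q) l, fun k l => ?_⟩
    obtain ⟨t, ht⟩ := he (l, k)
    obtain ⟨C, hC⟩ := hA t
    rw [ht] at hC
    set c : ℕ → ℂ := fun q => (if h : q.Prime then b k ⟨q, h⟩ else 0) *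
      ((chr (A q) l : ℂ) - expect (dens E x Q q) l) with hc
    have hc0 : c 0 = 0 := by rw [hc]; simp [Nat.not_prime_zero]
    have hcM : ∀ q, ‖c q‖ ≤ 3 := by
      intro q
      rw [hc]
      simp only
      rw [norm_mul]
      have h1 : ‖(if h : q.Prime then b k ⟨q, h⟩ else 0)‖ ≤ 1 := by
        split_ifs
        · exact hb _ _
        · rw [norm_zero]; exact zero_le_one
      have h2 : ‖(chr (A q) l : ℂ) - expect (dens E x Q q) l‖ ≤ 3 := by
        refine (norm_sub_le _ _).trans ?_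
        rw [Circle.norm_coe]
        have := norm_expect_le (hTg q) (hTz q) l
        linarith
      have h3 := mul_le_mul h1 h2 (norm_nonneg _) zero_le_one
      linarith
    have h1 := neg_of_sqrt hc0 hcM hC
    refine neg_of_eq h1 fun s hs => ?_
    unfold dir
    have h2 : ∀ p : Nat.Primes, b k p * ((chr (A p) l : ℂ) - expect (dens E x Q p) l) * ((p : ℕ) : ℂ) ^ (-s) =
        (fun q : ℕ => c q * (q : ℂ) ^ (-s)) (p : ℕ) := by
      intro p
      simp only [hc]
      rw [dif_pos p.2]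
      rfl
    rw [tsum_congr h2]
    refine tsum_subtype_eq_of_support_subset (f := fun q : ℕ => c q * (q : ℂ) ^ (-s)) (s := {p : ℕ | p.Prime}) ?_
    intro q hq
    by_contra hn
    apply hq
    have hn' : ¬ q.Prime := hn
    simp only [hc]
    rw [dif_neg hn', zero_mul, zero_mul]

/-- Half of the drift term. -/
theorem dir_dens {W : Type} [Encodable W] (E : W → W → ℝ) (Q : W → ℕ)
    {b : Nat.Primes → ℂ} (hb : ∀ p, ‖b p‖ ≤ 1) (l : W) (y : W → ℂ) (hy : ∀ w, 0 ≤ (y w).re) :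
    (dir fun p => b p * (if Q l ≤ p then ∑ w ∈ below l, (E w l : ℂ) * ((p : ℕ) : ℂ) ^ (-y w) else 0)) -
      ∑ w ∈ below l, (E w l : ℂ) • (fun s => lam b (s + y w)) ∈ Neg := by
  classical
  have h1 : ∀ w, (fun s => lam b (s + y w)) - (dir fun p => b p * ((p : ℕ) : ℂ) ^ (-y w)) ∈ Neg := by
    intro w
    refine neg_of_eq (neg_shift (lam_sub_dir hb) (hy w)) fun s _ => ?_
    rw [Pi.sub_apply, Pi.sub_apply, dir_shift]
  have hbnd : ∀ w (p : Nat.Primes), ‖b p * ((p : ℕ) : ℂ) ^ (-y w)‖ ≤ 1 := by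
    intro w p
    rw [norm_mul, norm_cpow_neg p.2.pos]
    have hp1 : (1 : ℝ) ≤ ((p : ℕ) : ℝ) := by exact_mod_cast p.2.one_lt.le
    have h2 : ((p : ℕ) : ℝ) ^ (-(y w).re) ≤ 1 := Real.rpow_le_one_of_one_le_of_nonpos hp1 (by linarith [hy w])
    have h3 : (0 : ℝ) ≤ ((p : ℕ) : ℝ) ^ (-(y w).re) := by positivity
    have := hb p
    nlinarith [norm_nonneg (b p)]
  have h2 : (dir fun p => b p * (if Q l ≤ p then ∑ w ∈ below l, (E w l : ℂ) * ((p : ℕ) : ℂ) ^ (-y w) else 0)) -
      (dir fun p => ∑ w ∈ below l, (E w l : ℂ) * (b p * ((p : ℕ) : ℂ) ^ (-y w))) ∈ Neg := by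
    have h3 : dir (fun p => (if Q l ≤ p then 0 else
        -∑ w ∈ below l, (E w l : ℂ) * (b p * ((p : ℕ) : ℂ) ^ (-y w)))) ∈ Neg :=
      dir_finite (Q l) fun p hp => by rw [if_pos hp]
    refine neg_of_eq h3 fun s hs => ?_
    rw [Pi.sub_apply, sub_eq_iff_eq_add]
    have hB1 : ∀ p : Nat.Primes, ‖∑ w ∈ below l, (E w l : ℂ) * (b p * ((p : ℕ) : ℂ) ^ (-y w))‖ ≤
        ∑ w ∈ below l, ‖(E w l : ℂ)‖ := by
      intro p
      refine (norm_sum_le _ _).trans (Finset.sum_le_sum fun w _ => ?_)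
      rw [norm_mul]
      have := hbnd w p
      nlinarith [norm_nonneg (E w l : ℂ)]
    rw [← dir_add (M := ∑ w ∈ below l, ‖(E w l : ℂ)‖) (M' := ∑ w ∈ below l, ‖(E w l : ℂ)‖) ?_ hB1 hs]
    · unfold dir
      refine tsum_congr fun p => ?_
      congr 1
      beta_reduce
      by_cases hp : Q l ≤ p
      · rw [if_pos hp, if_pos hp, zero_add, Finset.mul_sum]
        exact Finset.sum_congr rfl fun w _ => by ring
      · rw [if_neg hp, if_neg hp]
        ring
    · intro p
      split_ifs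
      · rw [norm_zero]; positivity
      · rw [norm_neg]; exact hB1 p
  have h4 : (dir fun p => ∑ w ∈ below l, (E w l : ℂ) * (b p * ((p : ℕ) : ℂ) ^ (-y w))) -
      ∑ w ∈ below l, (E w l : ℂ) • (dir fun p => b p * ((p : ℕ) : ℂ) ^ (-y w)) ∈ Neg := by
    refine neg_of_eq (Neg.zero_mem) fun s hs => ?_
    rw [Pi.sub_apply, dir_finset_sum _ _ (fun w => ‖(E w l : ℂ)‖) ?_ hs, Finset.sum_apply, Pi.zero_apply,
      sub_eq_zero]
    · refine Finset.sum_congr rfl fun w _ => ?_
      rw [dir_mul, Pi.smul_apply, smul_eq_mul]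
    · intro w p
      rw [norm_mul]
      have := hbnd w p
      nlinarith [norm_nonneg (E w l : ℂ)]
  have h5 : ∑ w ∈ below l, (E w l : ℂ) • ((fun s => lam b (s + y w)) - (dir fun p => b p * ((p : ℕ) : ℂ) ^ (-y w)))
      ∈ Neg := Submodule.sum_mem _ fun w _ => Neg.smul_mem _ (h1 w)
  have h6 := Neg.sub_mem (Neg.add_mem h2 h4) h5
  convert h6 using 1
  simp only [smul_sub, Finset.sum_sub_distrib]
  abel

/-- The logarithm of the Euler product of a weight. -/
theorem lam_weight {n : ℕ} [Encodable (Weight n)] (E : Weight n → Weight n → ℝ)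
    (hEz : ∀ w l, Encodable.encode l < Encodable.encode w → E w l = 0) {x : ℝ} (hx : 0 < x) (Q : Weight n → ℕ)
    (A : ℕ → Torus n) {b : Nat.Primes → ℂ} (hb : ∀ p, ‖b p‖ ≤ 1) (l : Weight n)
    (hfam : dir (fun p => b p * ((chr (A p) l : ℂ) - expect (dens E x Q p) l)) ∈ Neg)
    (hbe : ∃ M, ∀ p : Nat.Primes, ‖expect (dens E x Q p) l‖ ≤ M)
    (S : Finset (Weight n)) (hS : below l ⊆ S) (hS' : below (-l) ⊆ S) :
    lam (fun p => b p * (chr (A p) l : ℂ)) - ((if l = 0 then (1 : ℂ) else 0) • lam b +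
      ∑ w ∈ S, ((E w l : ℂ) • (fun s => lam b (s + zz x w)) +
        (E w (-l) : ℂ) • (fun s => lam b (s + conj (zz x w))))) ∈ Neg := by
  classical
  obtain ⟨M, hM⟩ := hbe
  have h1 : lam (fun p => b p * (chr (A p) l : ℂ)) - dir (fun p => b p * (chr (A p) l : ℂ)) ∈ Neg := by
    refine lam_sub_dir fun p => ?_
    rw [norm_mul, Circle.norm_coe, mul_one]; exact hb p
  have hbe1 : ∀ p, ‖b p * expect (dens E x Q p) l‖ ≤ M := by
    intro p
    rw [norm_mul]
    have := hM p
    have := hb p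
    nlinarith [norm_nonneg (b p), norm_nonneg (expect (dens E x Q p) l)]
  have hbe2 : ∀ p, ‖b p * ((chr (A p) l : ℂ) - expect (dens E x Q p) l)‖ ≤ 1 + M := by
    intro p
    rw [norm_mul]
    have h3 : ‖(chr (A p) l : ℂ) - expect (dens E x Q p) l‖ ≤ 1 + M := by
      refine (norm_sub_le _ _).trans ?_
      rw [Circle.norm_coe]
      linarith [hM p]
    have := hb p
    nlinarith [norm_nonneg (b p), norm_nonneg ((chr (A p) l : ℂ) - expect (dens E x Q p) l)]
  have h2 : dir (fun p => b p * (chr (A p) l : ℂ)) - dir (fun p => b p * expect (dens E x Q p) l) ∈ Neg := by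
    refine neg_of_eq hfam fun s hs => ?_
    rw [Pi.sub_apply, sub_eq_iff_eq_add, ← dir_add hbe2 hbe1 hs]
    unfold dir
    exact tsum_congr fun p => by ring
  -- the three parts of the mean value
  set u : Weight n → Nat.Primes → ℂ := fun l p =>
    (if Q l ≤ p then ∑ w ∈ below l, (E w l : ℂ) * ((p : ℕ) : ℂ) ^ (-zz x w) else 0) with hu
  set v : Weight n → Nat.Primes → ℂ := fun l p =>
    (if Q l ≤ p then ∑ w ∈ below l, (E w l : ℂ) * ((p : ℕ) : ℂ) ^ (-conj (zz x w)) else 0) with hv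
  have hexp : ∀ p : Nat.Primes, expect (dens E x Q p) l = (if l = 0 then (1 : ℂ) else 0) + (u l p + v (-l) p) := by
    intro p
    unfold expect dens
    rw [hu, hv]
    simp only
    congr 1
    have h3 : conj (if Q (-l) ≤ (p : ℕ) then 2 * ∑ w ∈ below (-l), (E w (-l) : ℂ) * ((p : ℕ) : ℂ) ^ (-zz x w) else 0) =
        2 * (if Q (-l) ≤ (p : ℕ) then ∑ w ∈ below (-l), (E w (-l) : ℂ) * ((p : ℕ) : ℂ) ^ (-conj (zz x w)) else 0) := by
      split_ifs with h
      · rw [map_mul, map_sum]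
        have h4 : (starRingEnd ℂ) (2 : ℂ) = 2 := Complex.conj_ofNat 2
        rw [h4]
        congr 1
        refine Finset.sum_congr rfl fun w _ => ?_
        rw [map_mul, Complex.conj_ofReal]
        congr 1
        rw [conj_natCast_cpow, map_neg]
      · rw [map_zero, mul_zero]
    have h6 : (if Q l ≤ (p : ℕ) then 2 * ∑ w ∈ below l, (E w l : ℂ) * ((p : ℕ) : ℂ) ^ (-zz x w) else 0) =
        2 * (if Q l ≤ (p : ℕ) then ∑ w ∈ below l, (E w l : ℂ) * ((p : ℕ) : ℂ) ^ (-zz x w) else 0) := by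
      split_ifs
      · rfl
      · rw [mul_zero]
    rw [h3, h6]
    ring
  have hcp : ∀ (y : Weight n → ℂ), (∀ w, 0 ≤ (y w).re) → ∀ (m : Weight n) (p : Nat.Primes),
      ‖b p * (if Q m ≤ p then ∑ w ∈ below m, (E w m : ℂ) * ((p : ℕ) : ℂ) ^ (-y w) else 0)‖ ≤
        ∑ w ∈ below m, ‖(E w m : ℂ)‖ := by
    intro y hy m p
    have h3 : ‖(if Q m ≤ (p : ℕ) then ∑ w ∈ below m, (E w m : ℂ) * ((p : ℕ) : ℂ) ^ (-y w) else 0)‖ ≤
        ∑ w ∈ below m, ‖(E w m : ℂ)‖ := by
      split_ifs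
      · refine (norm_sum_le _ _).trans (Finset.sum_le_sum fun w _ => ?_)
        rw [norm_mul, norm_cpow_neg p.2.pos]
        have hp1 : (1 : ℝ) ≤ ((p : ℕ) : ℝ) := by exact_mod_cast p.2.one_lt.le
        have h2 : ((p : ℕ) : ℝ) ^ (-(y w).re) ≤ 1 :=
          Real.rpow_le_one_of_one_le_of_nonpos hp1 (by linarith [hy w])
        nlinarith [norm_nonneg (E w m : ℂ)]
      · rw [norm_zero]; positivity
    rw [norm_mul]
    have h4 : (0 : ℝ) ≤ ∑ w ∈ below m, ‖(E w m : ℂ)‖ := by positivity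
    have := hb p
    nlinarith [norm_nonneg (b p),
      norm_nonneg (if Q m ≤ (p : ℕ) then ∑ w ∈ below m, (E w m : ℂ) * ((p : ℕ) : ℂ) ^ (-y w) else 0)]
  have hzr : ∀ w : Weight n, 0 ≤ (zz x w).re := fun w => by rw [zz_re]; exact hx.le
  have hzr' : ∀ w : Weight n, 0 ≤ (conj (zz x w)).re := fun w => by rw [Complex.conj_re, zz_re]; exact hx.le
  have h3 : dir (fun p => b p * expect (dens E x Q p) l) - ((if l = 0 then (1 : ℂ) else 0) • dir b +
      (dir (fun p => b p * u l p) + dir (fun p => b p * v (-l) p))) ∈ Neg := by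
    refine neg_of_eq (Neg.zero_mem) fun s hs => ?_
    rw [Pi.sub_apply, Pi.add_apply, Pi.add_apply, Pi.smul_apply, Pi.zero_apply, sub_eq_zero, smul_eq_mul,
      ← dir_mul, ← dir_add (hcp _ hzr l) (hcp _ hzr' (-l)) hs,
      ← dir_add (M := 1) (M' := (∑ w ∈ below l, ‖(E w l : ℂ)‖) + ∑ w ∈ below (-l), ‖(E w (-l) : ℂ)‖) ?_ ?_ hs]
    · unfold dir
      refine tsum_congr fun p => ?_
      beta_reduce
      rw [hexp p]
      ring
    · intro p
      rw [norm_mul]
      have := hb p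
      split_ifs <;> simp [this]
    · intro p
      exact (norm_add_le _ _).trans (add_le_add (hcp _ hzr l p) (hcp _ hzr' (-l) p))
  have h4 := dir_dens E Q hb l (fun w => zz x w) hzr
  have h5 := dir_dens E Q hb (-l) (fun w => conj (zz x w)) hzr'
  have h6 : (if l = 0 then (1 : ℂ) else 0) • (lam b - dir b) ∈ Neg := Neg.smul_mem _ (lam_sub_dir hb)
  have hsub : ∀ (m : Weight n), below m ⊆ S → ∀ f : Weight n → (ℂ → ℂ),
      ∑ w ∈ below m, (E w m : ℂ) • f w = ∑ w ∈ S, (E w m : ℂ) • f w := by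
    intro m hm f
    refine Finset.sum_subset hm fun w _ hw => ?_
    rw [mem_below, not_le] at hw
    rw [hEz w m hw]
    simp
  rw [hsub l hS] at h4
  rw [hsub (-l) hS'] at h5
  have h7 := Neg.add_mem (Neg.add_mem (Neg.sub_mem (Neg.add_mem (Neg.add_mem h1 h2) h3) h6) h4) h5
  convert h7 using 1
  rw [Finset.sum_add_distrib, smul_sub]
  abel

end Pool.Agent.H70.CS
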