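import Pool.Agent.H70.CS.NonCont

/-!
# Continuation sets: the proof
-/

set_option autoImplicit false

namespace Pool.Agent.H70.CS

open Complex Filter Topology ComplexConjugate

theorem one_sub_ne_zero {w : ℂ} (hw : ‖w‖ ≤ 1) (p : Nat.Primes) {s : ℂ} (hs : 1 < s.re) :
    1 - w * ((p : ℕ) : ℂ) ^ (-s) ≠ 0 := by
  have h := norm_mul_cpow_lt hw p.2.two_le (show 1 / 2 < s.re by linarith)
  intro h0
  have h1 : w * ((p : ℕ) : ℂ) ^ (-s) = 1 := (sub_eq_zero.1 h0).symm
  rw [h1, norm_one] at h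
  norm_num at h

theorem zpow_neg_eq_exp {y : ℂ} (hy : y ≠ 0) (m : ℤ) : y ^ (-m) = Complex.exp (m * -Complex.log y) := by
  rw [Complex.exp_int_mul, Complex.exp_neg, Complex.exp_log hy, inv_zpow, ← zpow_neg]

/-- The logarithm of the twisted Euler product. -/
noncomputable def logTwist {n d : ℕ} (A : Nat.Primes → Torus n) (ρ : Weight n →₀ ℤ) (B : Nat.Primes → Fin d → ℂ)
    (s : ℂ) : ℂ :=
  ρ.sum fun l m => (m : ℂ) * ∑ j, lam (fun p => B p j * (chr (A p) l : ℂ)) s

theorem hasProd_twist {n d : ℕ} (A : Nat.Primes → Torus n) (ρ : Weight n →₀ ℤ) {B : Nat.Primes → Fin d → ℂ}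
    (hB : ∀ p j, ‖B p j‖ ≤ 1) {s : ℂ} (hs : 1 < s.re) :
    HasProd (fun p : Nat.Primes => ρ.prod fun l m =>
      ∏ j, (1 - (chr (A p) l : ℂ) * B p j * ((p : ℕ) : ℂ) ^ (-s)) ^ (-m)) (Complex.exp (logTwist A ρ B s)) := by
  have hb : ∀ l j p, ‖B p j * (chr (A p) l : ℂ)‖ ≤ 1 := fun l j p => by
    rw [norm_mul, Circle.norm_coe, mul_one]; exact hB p j
  have h1 : HasSum (fun p : Nat.Primes => ρ.sum fun l m => (m : ℂ) * ∑ j,
      -Complex.log (1 - B p j * (chr (A p) l : ℂ) * ((p : ℕ) : ℂ) ^ (-s))) (logTwist A ρ B s) := by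
    unfold logTwist Finsupp.sum
    refine hasSum_sum fun l _ => HasSum.mul_left _ (hasSum_sum fun j _ => ?_)
    exact (summable_lam (hb l j) hs).hasSum
  have h2 := h1.cexp
  refine h2.congr_fun ?_ |> fun h => h
  intro p
  simp only [Function.comp_apply, Finsupp.sum, Finsupp.prod]
  rw [Complex.exp_sum]
  refine Finset.prod_congr rfl fun l _ => ?_
  rw [Finset.mul_sum, Complex.exp_sum]
  refine Finset.prod_congr rfl fun j _ => ?_
  rw [← zpow_neg_eq_exp (one_sub_ne_zero (hb l j p) p hs), mul_comm (B p j)]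

theorem LTwist_eq {n d : ℕ} (A : Nat.Primes → Torus n) (ρ : Weight n →₀ ℤ) {B : Nat.Primes → Fin d → ℂ}
    (hB : ∀ p j, ‖B p j‖ ≤ 1) {s : ℂ} (hs : 1 < s.re) : LTwist A ρ B s = Complex.exp (logTwist A ρ B s) :=
  (hasProd_twist A ρ hB hs).tprod_eq

/-- The logarithm of the Euler product. -/
noncomputable def logA {n : ℕ} (A : Nat.Primes → Torus n) (ρ : Weight n →₀ ℤ) (s : ℂ) : ℂ :=
  ρ.sum fun l m => (m : ℂ) * lam (fun p => (chr (A p) l : ℂ)) s

theorem hasProd_fun {n : ℕ} (A : Nat.Primes → Torus n) (ρ : Weight n →₀ ℤ) {s : ℂ} (hs : 1 < s.re) :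
    HasProd (fun p : Nat.Primes => ρ.prod fun l m =>
      (1 - (chr (A p) l : ℂ) * ((p : ℕ) : ℂ) ^ (-s)) ^ (-m)) (Complex.exp (logA A ρ s)) := by
  have h := hasProd_twist A ρ (B := fun _ (_ : Fin 1) => 1) (fun _ _ => by simp) hs
  simpa [logTwist, logA] using h

theorem LFun_eq {n : ℕ} (A : Nat.Primes → Torus n) (ρ : Weight n →₀ ℤ) {s : ℂ} (hs : 1 < s.re) :
    LFun A ρ s = Complex.exp (logA A ρ s) :=
  (hasProd_fun A ρ hs).tprod_eq

theorem LEuler_eq {d : ℕ} {B : Nat.Primes → Fin d → ℂ} (hB : ∀ p j, ‖B p j‖ ≤ 1) {s : ℂ} (hs : 1 < s.re) :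
    LEuler B s = Complex.exp (∑ j, lam (fun p => B p j) s) := by
  have h := hasProd_twist (n := 0) (fun _ => 1) (Finsupp.single 0 1) hB hs
  have h1 : LEuler B s = LTwist (n := 0) (fun _ => 1) (Finsupp.single 0 1) B s := by
    unfold LEuler LTwist
    refine tprod_congr fun p => ?_
    rw [Finsupp.prod_single_index (by simp)]
    refine Finset.prod_congr rfl fun j _ => ?_
    rw [chr_zero, zpow_neg, zpow_one, Circle.coe_one, one_mul]
  rw [h1, LTwist_eq _ _ hB hs, logTwist, Finsupp.sum_single_index (by simp)]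
  simp [chr_zero]

/-! ### The continuation set is a group -/

theorem logA_add {n : ℕ} (A : Nat.Primes → Torus n) (ρ ρ' : Weight n →₀ ℤ) (s : ℂ) :
    logA A (ρ + ρ') s = logA A ρ s + logA A ρ' s := by
  unfold logA
  exact Finsupp.sum_add_index' (by simp) (by intros; push_cast; ring)

theorem logA_neg {n : ℕ} (A : Nat.Primes → Torus n) (ρ : Weight n →₀ ℤ) (s : ℂ) :
    logA A (-ρ) s = -logA A ρ s := by
  have h := logA_add A ρ (-ρ) s
  rw [add_neg_cancel] at h
  have h0 : logA A (0 : Weight n →₀ ℤ) s = 0 := by simp [logA]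
  rw [h0] at h
  exact (neg_eq_of_add_eq_zero_right h.symm).symm

theorem zeta_meromorphicAt (s : ℂ) : MeromorphicAt riemannZeta s := by
  by_cases hs : s = 1
  · subst hs
    have h1 : AnalyticAt ℂ (Function.update (fun s : ℂ => (s - 1) * riemannZeta s) 1 1) 1 := by
      refine Complex.analyticAt_of_differentiable_on_punctured_nhds_of_continuousAt ?_ ?_
      · filter_upwards [self_mem_nhdsWithin] with t ht
        have ht' : t ≠ 1 := ht
        have h2 : DifferentiableAt ℂ (fun s : ℂ => (s - 1) * riemannZeta s) t :=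
          (differentiableAt_id.sub_const 1).mul (differentiableAt_riemannZeta ht')
        refine h2.congr_of_eventuallyEq ?_
        filter_upwards [isOpen_compl_singleton.mem_nhds ht'] with u hu
        rw [Function.update_of_ne hu]
      · rw [continuousAt_update_same]
        exact riemannZeta_residue_one
    refine (h1.meromorphicAt.mul ((MeromorphicAt.id (1 : ℂ)).sub (MeromorphicAt.const 1 1)).inv).congr ?_
    filter_upwards [self_mem_nhdsWithin] with t ht
    have ht' : t ≠ 1 := ht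
    simp only [Pi.mul_apply, Pi.inv_apply, Pi.sub_apply, id, Function.update_of_ne ht']
    field_simp [sub_ne_zero.2 ht']
  · exact (zeta_analytic hs).meromorphicAt

theorem continues_triv {n : ℕ} (A : Nat.Primes → Torus n) (σ : ℝ) : Continues σ (LFun A (triv n)) := by
  refine ⟨riemannZeta, fun s _ => zeta_meromorphicAt s, fun s hs => ?_⟩
  rw [LFun_eq A _ hs, ← exp_lam1 hs, logA, triv, Finsupp.sum_single_index (by simp)]
  simp [chr_zero, lam1]

/-- The function `conj f(conj s)` is meromorphic if `f` is. -/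
theorem meromorphicAt_conj {f : ℂ → ℂ} {s : ℂ} (hf : MeromorphicAt f (conj s)) :
    MeromorphicAt (fun z => conj (f (conj z))) s := by
  obtain ⟨k, hk⟩ := hf
  refine ⟨k, ?_⟩
  have h1 : ∀ᶠ z in 𝓝 (conj s), DifferentiableAt ℂ (fun z => (z - conj s) ^ k • f z) z :=
    (hk.eventually_analyticAt).mono fun z hz => hz.differentiableAt
  have h2 : Tendsto (fun z : ℂ => conj z) (𝓝 s) (𝓝 (conj s)) := Complex.continuous_conj.tendsto s
  have h3 := h2.eventually h1
  rw [Complex.analyticAt_iff_eventually_differentiableAt]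
  filter_upwards [h3] with z hz
  have h4 := differentiableAt_conj_conj_iff (f := fun z => (z - conj s) ^ k • f z) (x := z) |>.2 hz
  refine h4.congr_of_eventuallyEq (Eventually.of_forall fun w => ?_)
  simp [Function.comp]

theorem chr_neg_coe {n : ℕ} (a : Torus n) (l : Weight n) : (chr a (-l) : ℂ) = conj (chr a l : ℂ) := by
  rw [chr_neg, Circle.coe_inv_eq_conj]

theorem LFun_dual {n : ℕ} (A : Nat.Primes → Torus n) (ρ : Weight n →₀ ℤ) {s : ℂ} (hs : 1 < s.re) :
    LFun A (dual ρ) s = conj (LFun A ρ (conj s)) := by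
  have hs' : 1 < (conj s).re := by rw [Complex.conj_re]; exact hs
  have h1 := (hasProd_fun A ρ hs').map (starRingEnd ℂ) Complex.continuous_conj
  have h2 := h1.tprod_eq
  rw [LFun_eq A ρ hs', ← h2]
  unfold LFun
  refine tprod_congr fun p => ?_
  rw [dual, Finsupp.prod_mapDomain_index_inj neg_injective]
  simp only [Function.comp_apply]
  rw [Finsupp.prod, Finsupp.prod, map_prod]
  refine Finset.prod_congr rfl fun l _ => ?_
  rw [map_zpow₀, map_sub, map_mul, map_one, chr_neg_coe, conj_natCast_cpow, map_neg, Complex.conj_conj]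

/-- **The representations for which the L-function continues form a group.** -/
theorem continuation_group {n : ℕ} (A : Nat.Primes → Torus n) (σ : ℝ) :
    ∃ K : AddSubgroup (Weight n →₀ ℤ), triv n ∈ K ∧ (∀ ρ ∈ K, dual ρ ∈ K) ∧
      ∀ ρ, ρ ∈ K ↔ Continues σ (LFun A ρ) := by
  refine ⟨{ carrier := {ρ | Continues σ (LFun A ρ)}, zero_mem' := ?_, add_mem' := ?_, neg_mem' := ?_ },
    continues_triv A σ, ?_, fun ρ => Iff.rfl⟩
  · rintro ρ ρ' ⟨F, hF, hF'⟩ ⟨G, hG, hG'⟩
    refine ⟨fun s => F s * G s, fun s hs => (hF s hs).mul (hG s hs), fun s hs => ?_⟩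
    beta_reduce
    rw [hF' s hs, hG' s hs, LFun_eq A _ hs, LFun_eq A _ hs, LFun_eq A _ hs, logA_add, Complex.exp_add]
  · refine ⟨fun _ => 1, fun s _ => MeromorphicAt.const 1 s, fun s hs => ?_⟩
    rw [LFun_eq A _ hs]
    simp [logA]
  · rintro ρ ⟨F, hF, hF'⟩
    refine ⟨fun s => (F s)⁻¹, fun s hs => (hF s hs).inv, fun s hs => ?_⟩
    beta_reduce
    rw [hF' s hs, LFun_eq A _ hs, LFun_eq A _ hs, logA_neg, Complex.exp_neg]
  · rintro ρ ⟨F, hF, hF'⟩
    refine ⟨fun s => conj (F (conj s)), fun s hs => meromorphicAt_conj (hF _ ?_), fun s hs => ?_⟩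
    · show σ < (conj s).re
      rw [Complex.conj_re]; exact hs
    · beta_reduce
      rw [LFun_dual A ρ hs, hF' (conj s) (by rw [Complex.conj_re]; exact hs)]

/-! ### Realization -/

theorem rearr {W W' κ : Type} (s : Finset W) (J : Finset κ) (S : Finset W') (r : W → ℂ) (X : W → κ → ℂ)
    (δ : W → ℂ) (Y : κ → ℂ) (e e' : W' → W → ℂ) (Z Z' : κ → W' → ℂ) :
    ∑ l ∈ s, r l * ∑ j ∈ J, (X l j - (δ l * Y j + ∑ w ∈ S, (e w l * Z j w + e' w l * Z' j w))) =
      ∑ l ∈ s, r l * ∑ j ∈ J, X l j - ((∑ l ∈ s, r l * δ l) * ∑ j ∈ J, Y j +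
        ∑ w ∈ S, ((∑ l ∈ s, r l * e w l) * ∑ j ∈ J, Z j w + (∑ l ∈ s, r l * e' w l) * ∑ j ∈ J, Z' j w)) := by
  have key : ∀ (e : W' → W → ℂ) (Z : κ → W' → ℂ), ∑ l ∈ s, r l * ∑ j ∈ J, ∑ w ∈ S, e w l * Z j w =
      ∑ w ∈ S, (∑ l ∈ s, r l * e w l) * ∑ j ∈ J, Z j w := by
    intro e Z
    simp only [Finset.sum_mul_sum]
    rw [Finset.sum_comm (s := S)]
    refine Finset.sum_congr rfl fun l _ => ?_
    rw [Finset.sum_comm (s := J), Finset.mul_sum]
    refine Finset.sum_congr rfl fun w _ => ?_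
    rw [Finset.mul_sum]
    exact Finset.sum_congr rfl fun j _ => by ring
  have key2 : ∑ l ∈ s, r l * ∑ j ∈ J, δ l * Y j = (∑ l ∈ s, r l * δ l) * ∑ j ∈ J, Y j := by
    rw [Finset.sum_mul]
    refine Finset.sum_congr rfl fun l _ => ?_
    rw [← Finset.mul_sum]; ring
  simp only [Finset.sum_sub_distrib, Finset.sum_add_distrib, mul_sub, mul_add, key, key2]

theorem main_identity {n : ℕ} [Encodable (Weight n)] (E : Weight n → Weight n → ℝ)
    (hEz : ∀ w l, Encodable.encode l < Encodable.encode w → E w l = 0) {x : ℝ} (hx : 0 < x) (Q : Weight n → ℕ)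
    (A : ℕ → Torus n) (hexp : ∀ q l, ‖expect (dens E x Q q) l‖ ≤ 2) (ρ : Weight n →₀ ℤ) {d : ℕ}
    {B : Nat.Primes → Fin d → ℂ} (hB : ∀ p j, ‖B p j‖ ≤ 1)
    (hfam : ∀ j l, dir (fun p => B p j * ((chr (A p) l : ℂ) - expect (dens E x Q p) l)) ∈ Neg) :
    ∃ S : Finset (Weight n), (∀ w, (ρ.sum fun l m => (m : ℝ) * E w l) ≠ 0 → w ∈ S) ∧
      (fun s => logTwist (fun p : Nat.Primes => A p) ρ B s - ((ρ 0 : ℂ) * ∑ j, lam (fun p => B p j) s +
      ∑ w ∈ S, (((ρ.sum fun l m => (m : ℝ) * E w l : ℝ) : ℂ) * ∑ j, lam (fun p => B p j) (s + zz x w) +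
        (((dual ρ).sum fun l m => (m : ℝ) * E w l : ℝ) : ℂ) * ∑ j, lam (fun p => B p j) (s + conj (zz x w)))))
        ∈ Neg := by
  classical
  set S : Finset (Weight n) := ρ.support.biUnion fun l => below l ∪ below (-l) with hS
  have hS1 : ∀ l ∈ ρ.support, below l ⊆ S := fun l hl =>
    Finset.subset_union_left.trans (Finset.subset_biUnion_of_mem (fun l => below l ∪ below (-l)) hl)
  have hS2 : ∀ l ∈ ρ.support, below (-l) ⊆ S := fun l hl =>
    Finset.subset_union_right.trans (Finset.subset_biUnion_of_mem (fun l => below l ∪ below (-l)) hl)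
  refine ⟨S, ?_, ?_⟩
  · intro w hw
    by_contra hwS
    apply hw
    refine Finset.sum_eq_zero fun l hl => ?_
    have h1 : w ∉ below l := fun h => hwS (hS1 l hl h)
    rw [mem_below, not_le] at h1
    beta_reduce
    rw [hEz w l h1, mul_zero]
  · have h1 : ∑ l ∈ ρ.support, (ρ l : ℂ) • ∑ j, (lam (fun p => B p j * (chr (A p) l : ℂ)) -
        ((if l = 0 then (1 : ℂ) else 0) • lam (fun p => B p j) +
        ∑ w ∈ S, ((E w l : ℂ) • (fun s => lam (fun p => B p j) (s + zz x w)) +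
          (E w (-l) : ℂ) • (fun s => lam (fun p => B p j) (s + conj (zz x w)))))) ∈ Neg := by
      refine Submodule.sum_mem _ fun l hl => Neg.smul_mem _ (Submodule.sum_mem _ fun j _ => ?_)
      exact lam_weight E hEz hx Q A (fun p => hB p j) l (hfam j l) ⟨2, fun p => hexp p l⟩ S (hS1 l hl) (hS2 l hl)
    refine neg_of_eq h1 fun s hs => ?_
    simp only [Finset.sum_apply, Pi.smul_apply, Pi.sub_apply, Pi.add_apply, smul_eq_mul]
    rw [rearr]
    have e1 : ∑ l ∈ ρ.support, (ρ l : ℂ) * (if l = 0 then (1 : ℂ) else 0) = (ρ 0 : ℂ) := by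
      simp only [mul_ite, mul_one, mul_zero]
      rw [Finset.sum_ite_eq']
      by_cases h0 : (0 : Weight n) ∈ ρ.support
      · rw [if_pos h0]
      · rw [if_neg h0, Finsupp.notMem_support_iff.1 h0, Int.cast_zero]
    have e2 : ∀ w, (∑ l ∈ ρ.support, (ρ l : ℂ) * (E w l : ℂ)) = ((ρ.sum fun l m => (m : ℝ) * E w l : ℝ) : ℂ) := by
      intro w
      rw [Finsupp.sum]
      push_cast
      rfl
    have e3 : ∀ w, (∑ l ∈ ρ.support, (ρ l : ℂ) * (E w (-l) : ℂ)) =
        (((dual ρ).sum fun l m => (m : ℝ) * E w l : ℝ) : ℂ) := by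
      intro w
      rw [dual, Finsupp.sum_mapDomain_index_inj neg_injective, Finsupp.sum]
      push_cast
      rfl
    rw [e1]
    simp only [e2, e3]
    rfl

theorem re_shift {x : ℝ} {W : Type} [Encodable W] (w : W) (s : ℂ) : (s + zz x w).re = s.re + x ∧
    (s + conj (zz x w)).re = s.re + x := by
  rw [Complex.add_re, Complex.add_re, Complex.conj_re, zz_re]
  exact ⟨rfl, rfl⟩

/-- With integral exponents the product continues. -/
theorem continues_of_integral {W : Type} [Encodable W] {x : ℝ} (hx : 0 < x) {d : ℕ} {B : Nat.Primes → Fin d → ℂ}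
    (hB : ∀ p j, ‖B p j‖ ≤ 1) (hBc : Continues (1 / 2) (LEuler B)) {f g : ℂ → ℂ} (m : ℤ) (S : Finset W)
    (k k' : W → ℤ)
    (hg : (fun s => g s - ((m : ℂ) * ∑ j, lam (fun p => B p j) s +
      ∑ w ∈ S, ((k w : ℂ) * ∑ j, lam (fun p => B p j) (s + zz x w) +
        (k' w : ℂ) * ∑ j, lam (fun p => B p j) (s + conj (zz x w))))) ∈ Neg)
    (hf : ∀ s : ℂ, 1 < s.re → f s = Complex.exp (g s)) : Continues (1 / 2) f := by
  obtain ⟨h, hh, hgh⟩ := hg
  obtain ⟨F, hF, hFe⟩ := hBc
  refine ⟨fun s => Complex.exp (h s) * (F s ^ m *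
    ∏ w ∈ S, (F (s + zz x w) ^ k w * F (s + conj (zz x w)) ^ k' w)), fun s hs => ?_, fun s hs => ?_⟩
  · have hs' : 1 / 2 < s.re := hs
    have h1 : AnalyticAt ℂ h s := hh.analyticAt ((isOpen_HP _).mem_nhds hs)
    refine h1.cexp.meromorphicAt.mul (((hF s hs).zpow m).mul ?_)
    refine MeromorphicAt.fun_prod fun w => ?_
    have h2 : MeromorphicAt (fun s => F (s + zz x w)) s :=
      MeromorphicAt.comp_analyticAt (f := F) (g := fun s => s + zz x w)
        (hF (s + zz x w) (show 1 / 2 < (s + zz x w).re by rw [(re_shift w s).1]; linarith))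
        (analyticAt_id.add analyticAt_const)
    have h3 : MeromorphicAt (fun s => F (s + conj (zz x w))) s :=
      MeromorphicAt.comp_analyticAt (f := F) (g := fun s => s + conj (zz x w))
        (hF (s + conj (zz x w)) (show 1 / 2 < (s + conj (zz x w)).re by rw [(re_shift w s).2]; linarith))
        (analyticAt_id.add analyticAt_const)
    exact fun _ => (h2.zpow _).mul (h3.zpow _)
  · beta_reduce
    have hF1 : ∀ s : ℂ, 1 < s.re → F s = Complex.exp (∑ j, lam (fun p => B p j) s) := fun s hs => by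
      rw [hFe s hs, LEuler_eq hB hs]
    have h1 := hgh s hs
    rw [sub_eq_iff_eq_add] at h1
    rw [hf s hs, h1, Complex.exp_add, Complex.exp_add, Complex.exp_sum, hF1 s hs, Complex.exp_int_mul]
    congr 2
    refine Finset.prod_congr rfl fun w _ => ?_
    rw [Complex.exp_add, Complex.exp_int_mul, Complex.exp_int_mul, hF1, hF1]
    · rw [(re_shift w s).2]; linarith
    · rw [(re_shift w s).1]; linarith

/-- **Realization.** -/
theorem realization {n : ℕ} (H : AddSubgroup (Weight n →₀ ℤ)) (hH0 : triv n ∈ H) (hHd : ∀ ρ ∈ H, dual ρ ∈ H)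
    {σ : ℝ} (hσ1 : σ < 1) {ι : Type} [Countable ι] (d : ι → ℕ) (B : ∀ i, Nat.Primes → Fin (d i) → ℂ)
    (hB : ∀ i p j, ‖B i p j‖ ≤ 1) (hBc : ∀ i, Continues (1 / 2) (LEuler (B i))) :
    ∃ A : Nat.Primes → Torus n, ∀ ρ : Weight n →₀ ℤ,
      (ρ ∈ H → Continues (1 / 2) (LFun A ρ) ∧ ∀ i, Continues (1 / 2) (LTwist A ρ (B i))) ∧
      (ρ ∉ H → ¬ Continues σ (LFun A ρ)) := by
  classical
  let _ : Encodable (Weight n) := Encodable.ofCountable _
  obtain ⟨E, hE, hEz, hEH⟩ := exists_separating H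
  set x : ℝ := min (1 / 4) ((1 - σ) / 2) with hxdef
  have hx0 : 0 < x := lt_min (by norm_num) (by linarith)
  have hx1 : x < 1 / 2 := lt_of_le_of_lt (min_le_left _ _) (by norm_num)
  have hxσ : σ < 1 - x := by
    have : x ≤ (1 - σ) / 2 := min_le_right _ _
    linarith
  have hE0 : ∀ w, E w 0 = 0 := by
    intro w
    obtain ⟨k, hk⟩ := (hEH (triv n)).1 hH0 w
    rw [triv, Finsupp.sum_single_index (by simp), Int.cast_one, one_mul] at hk
    have h1 := (hE w 0).1
    have h2 := (hE w 0).2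
    rw [hk] at h1 h2 ⊢
    have h3 : (0 : ℤ) ≤ k := by exact_mod_cast h1
    have h4 : k < 1 := by exact_mod_cast h2
    have h5 : k = 0 := by omega
    rw [h5, Int.cast_zero]
  obtain ⟨A, Q, hexp, hA⟩ := exists_family E hE hE0 hx0
    (κ := Option (Σ i, Fin (d i))) (fun k p => match k with | none => 1 | some t => B t.1 p t.2)
    (fun k p => by
      cases k with
      | none => simp
      | some t => exact hB _ _ _)
  refine ⟨fun p => A p, fun ρ => ⟨fun hρ => ?_, fun hρ hcont => ?_⟩⟩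
  · choose k hk using fun w => (hEH ρ).1 hρ w
    choose k' hk' using fun w => (hEH (dual ρ)).1 (hHd ρ hρ) w
    constructor
    · obtain ⟨S, -, hS⟩ := main_identity E hEz hx0 Q A hexp ρ (B := fun _ (_ : Fin 1) => (1 : ℂ)) (fun _ _ => by simp)
        (fun _ l => hA none l)
      simp only [hk, hk'] at hS
      refine continues_of_integral hx0 (B := fun _ (_ : Fin 1) => (1 : ℂ)) (fun _ _ => by simp) ?_ (ρ 0) S k k'
        (by exact_mod_cast hS) (fun s hs => ?_)
      · refine ⟨riemannZeta, fun s _ => zeta_meromorphicAt s, fun s hs => ?_⟩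
        rw [LEuler_eq (fun _ _ => by simp) hs, ← exp_lam1 hs]
        simp [lam1]
      · rw [LFun_eq _ _ hs]
        simp [logTwist, logA]
    · intro i
      obtain ⟨S, -, hS⟩ := main_identity E hEz hx0 Q A hexp ρ (B := B i) (hB i)
        (fun j l => hA (some ⟨i, j⟩) l)
      simp only [hk, hk'] at hS
      exact continues_of_integral hx0 (hB i) (hBc i) (ρ 0) S k k' (by exact_mod_cast hS)
        (fun s hs => LTwist_eq _ _ (hB i) hs)
  · apply hρ
    obtain ⟨F, hF, hFe⟩ := hcont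
    rw [hEH]
    intro w
    obtain ⟨S, hS0, h, hh, hS⟩ := main_identity E hEz hx0 Q A hexp ρ (B := fun _ (_ : Fin 1) => (1 : ℂ))
      (fun _ _ => by simp) (fun _ l => hA none l)
    by_cases hw : (ρ.sum fun l m => (m : ℝ) * E w l) = 0
    · exact ⟨0, by rw [hw, Int.cast_zero]⟩
    · refine integral_of_continues hx0 hx1 hxσ hF hh (ρ 0) S (fun w => ρ.sum fun l m => (m : ℝ) * E w l)
        (fun w => (dual ρ).sum fun l m => (m : ℝ) * E w l) (fun s hs => ?_) w (hS0 w hw)
      rw [hFe s hs, LFun_eq _ _ hs]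
      have h1 := hS s hs
      rw [sub_eq_iff_eq_add] at h1
      have h2 : logA (fun p : Nat.Primes => A p) ρ s =
          logTwist (fun p : Nat.Primes => A p) ρ (fun _ (_ : Fin 1) => (1 : ℂ)) s := by
        simp [logTwist, logA]
      rw [h2, h1]
      simp only [Finset.univ_unique, Finset.sum_singleton]
      rfl

theorem dual_add {n : ℕ} (ρ ρ' : Weight n →₀ ℤ) : dual (ρ + ρ') = dual ρ + dual ρ' := Finsupp.mapDomain_add

theorem dual_neg {n : ℕ} (ρ : Weight n →₀ ℤ) : dual (-ρ) = -dual ρ := by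
  have h := dual_add ρ (-ρ)
  rw [add_neg_cancel] at h
  have h0 : dual (0 : Weight n →₀ ℤ) = 0 := Finsupp.mapDomain_zero
  rw [h0] at h
  exact (neg_eq_of_add_eq_zero_right h.symm).symm

theorem dual_dual {n : ℕ} (ρ : Weight n →₀ ℤ) : dual (dual ρ) = ρ := by
  unfold dual
  rw [← Finsupp.mapDomain_comp]
  have : ((fun l : Weight n => -l) ∘ fun l : Weight n => -l) = id := by funext l; simp
  rw [this, Finsupp.mapDomain_id]

theorem dual_triv (n : ℕ) : dual (triv n) = triv n := by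
  unfold dual triv
  rw [Finsupp.mapDomain_single, neg_zero]

theorem dual_closure {n : ℕ} (X : Set (Weight n →₀ ℤ)) :
    ∀ ρ ∈ AddSubgroup.closure (insert (triv n) (X ∪ dual '' X)),
      dual ρ ∈ AddSubgroup.closure (insert (triv n) (X ∪ dual '' X)) := by
  intro ρ hρ
  induction hρ using AddSubgroup.closure_induction with
  | mem y hy =>
    rcases hy with rfl | hy | ⟨z, hz, rfl⟩
    · rw [dual_triv]
      exact AddSubgroup.subset_closure (Set.mem_insert _ _)
    · exact AddSubgroup.subset_closure (Set.mem_insert_of_mem _ (Or.inr ⟨y, hy, rfl⟩))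
    · rw [dual_dual]
      exact AddSubgroup.subset_closure (Set.mem_insert_of_mem _ (Or.inl hz))
  | zero =>
    have h0 : dual (0 : Weight n →₀ ℤ) = 0 := Finsupp.mapDomain_zero
    rw [h0]
    exact zero_mem _
  | add y z _ _ hy hz => rw [dual_add]; exact add_mem hy hz
  | neg y _ hy => rw [dual_neg]; exact neg_mem hy

end Pool.Agent.H70.CS
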