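import Pool.Agent.H70.CS.Thin

/-!
# Transplantation of a family on a thin set of primes
-/

set_option autoImplicit false

namespace Pool.Agent.H70.CS

open Complex Filter Topology ComplexConjugate

open Classical in
/-- The family which is `A₀` on `T` and `P` outside `T`. -/
noncomputable def mix {n : ℕ} (T : Set Nat.Primes) (A₀ P : Nat.Primes → Torus n) (p : Nat.Primes) : Torus n :=
  if p ∈ T then A₀ p else P p

theorem mix_of_notMem {n : ℕ} {T : Set Nat.Primes} {A₀ P : Nat.Primes → Torus n} {p : Nat.Primes} (h : p ∉ T) :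
    mix T A₀ P p = P p := if_neg h

theorem chr_mix {n : ℕ} (T : Set Nat.Primes) (A₀ P : Nat.Primes → Torus n) (p : Nat.Primes) (l : Weight n) :
    (chr (mix T A₀ P p) l : ℂ) = T.indicator (fun _ => (1 : ℂ)) p * (chr (A₀ p) l : ℂ) +
      (1 - T.indicator (fun _ => (1 : ℂ)) p) * (chr (P p) l : ℂ) := by
  by_cases h : p ∈ T
  · rw [Set.indicator_of_mem h, mix, if_pos h]
    ring
  · rw [Set.indicator_of_notMem h, mix, if_neg h]
    ring

theorem norm_indicator_le (T : Set Nat.Primes) (p : Nat.Primes) : ‖T.indicator (fun _ => (1 : ℂ)) p‖ ≤ 1 := by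
  by_cases h : p ∈ T
  · rw [Set.indicator_of_mem h]; simp
  · rw [Set.indicator_of_notMem h]; simp

theorem norm_prime_cpow_le {β : ℝ} (hβ : 0 ≤ β) (p : Nat.Primes) : ‖((p : ℕ) : ℂ) ^ (-(β : ℂ))‖ ≤ 1 := by
  rw [norm_cpow_neg p.2.pos, Complex.ofReal_re]
  exact Real.rpow_le_one_of_one_le_of_nonpos (by exact_mod_cast p.2.one_lt.le) (by linarith)

/-- One weight. -/
theorem mix_weight {n : ℕ} {T : Set Nat.Primes} {A₀ P : Nat.Primes → Torus n} {β : ℝ} (hβ : 0 ≤ β)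
    {b : Nat.Primes → ℂ} (hb : ∀ p, ‖b p‖ ≤ 1) (l : Weight n)
    (h1 : dir (fun p => (b p * (chr (P p) l : ℂ)) *
      (T.indicator (fun _ => (1 : ℂ)) p - ((p : ℕ) : ℂ) ^ (-(β : ℂ)))) ∈ Neg)
    (h2 : dir (fun p => (b p * (chr (A₀ p) l : ℂ)) *
      (T.indicator (fun _ => (1 : ℂ)) p - ((p : ℕ) : ℂ) ^ (-(β : ℂ)))) ∈ Neg) :
    (fun s => lam (fun p => b p * (chr (mix T A₀ P p) l : ℂ)) s - lam (fun p => b p * (chr (P p) l : ℂ)) s +
      lam (fun p => b p * (chr (P p) l : ℂ)) (s + β) - lam (fun p => b p * (chr (A₀ p) l : ℂ)) (s + β)) ∈ Neg := by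
  have hbc : ∀ (A : Nat.Primes → Torus n) (p : Nat.Primes), ‖b p * (chr (A p) l : ℂ)‖ ≤ 1 := fun A p => by
    rw [norm_mul, Circle.norm_coe, mul_one]; exact hb p
  have hbd : ∀ (A : Nat.Primes → Torus n) (p : Nat.Primes), ‖(b p * (chr (A p) l : ℂ)) *
      (T.indicator (fun _ => (1 : ℂ)) p - ((p : ℕ) : ℂ) ^ (-(β : ℂ)))‖ ≤ 2 := fun A p => by
    rw [norm_mul]
    have e1 := norm_sub_le (T.indicator (fun _ => (1 : ℂ)) p) (((p : ℕ) : ℂ) ^ (-(β : ℂ)))
    have e2 := norm_indicator_le T p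
    have e3 := norm_prime_cpow_le hβ p
    have e4 := mul_le_mul (hbc A p) (e1.trans (add_le_add e2 e3)) (norm_nonneg _) zero_le_one
    linarith
  have hbp : ∀ (A : Nat.Primes → Torus n) (p : Nat.Primes),
      ‖(b p * (chr (A p) l : ℂ)) * ((p : ℕ) : ℂ) ^ (-(β : ℂ))‖ ≤ 1 := fun A p => by
    rw [norm_mul]
    have e4 := mul_le_mul (hbc A p) (norm_prime_cpow_le hβ p) (norm_nonneg _) zero_le_one
    linarith
  have hz : 0 ≤ ((β : ℂ)).re := by rw [Complex.ofReal_re]; exact hβ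
  have m1 : lam (fun p => b p * (chr (mix T A₀ P p) l : ℂ)) - dir (fun p => b p * (chr (mix T A₀ P p) l : ℂ)) ∈ Neg :=
    lam_sub_dir (hbc _)
  have m2 : lam (fun p => b p * (chr (P p) l : ℂ)) - dir (fun p => b p * (chr (P p) l : ℂ)) ∈ Neg :=
    lam_sub_dir (hbc _)
  have m3 := neg_shift m2 hz
  have m4 := neg_shift (lam_sub_dir (hbc A₀)) hz
  have m5 := Neg.add_mem (Neg.sub_mem (Neg.add_mem (Neg.sub_mem m1 m2) m3) m4) (Neg.sub_mem h2 h1)
  refine neg_of_eq m5 fun s hs => ?_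
  simp only [Pi.add_apply, Pi.sub_apply]
  have key : dir (fun p => b p * (chr (mix T A₀ P p) l : ℂ)) s +
      (dir (fun p => (b p * (chr (P p) l : ℂ)) *
        (T.indicator (fun _ => (1 : ℂ)) p - ((p : ℕ) : ℂ) ^ (-(β : ℂ)))) s +
      dir (fun p => b p * (chr (P p) l : ℂ)) (s + β)) =
      dir (fun p => b p * (chr (P p) l : ℂ)) s +
      (dir (fun p => (b p * (chr (A₀ p) l : ℂ)) *
        (T.indicator (fun _ => (1 : ℂ)) p - ((p : ℕ) : ℂ) ^ (-(β : ℂ)))) s +
      dir (fun p => b p * (chr (A₀ p) l : ℂ)) (s + β)) := by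
    rw [← dir_shift, ← dir_shift, ← dir_add (hbd P) (hbp P) hs, ← dir_add (hbd A₀) (hbp A₀) hs,
      ← dir_add (M := 1) (M' := 3) (hbc _) ?_ hs, ← dir_add (M := 1) (M' := 3) (hbc _) ?_ hs]
    · unfold dir
      refine tsum_congr fun p => ?_
      beta_reduce
      rw [chr_mix]
      ring
    · intro p
      exact (norm_add_le _ _).trans ((add_le_add (hbd A₀ p) (hbp A₀ p)).trans (by norm_num))
    · intro p
      exact (norm_add_le _ _).trans ((add_le_add (hbd P p) (hbp P p)).trans (by norm_num))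
  linear_combination key

/-- The transplanted family has, up to exponentials of functions holomorphic in `Re s > 1/2`, the L-functions
`L(s, P, ρ) L(s + β, A₀, ρ) / L(s + β, P, ρ)`. -/
def Near {n d : ℕ} (β : ℝ) (P A₀ A : Nat.Primes → Torus n) (ρ : Weight n →₀ ℤ) (B : Nat.Primes → Fin d → ℂ) :
    Prop :=
  (fun s => logTwist A ρ B s - logTwist P ρ B s + logTwist P ρ B (s + β) - logTwist A₀ ρ B (s + β)) ∈ Neg

theorem near_of_weights {n d : ℕ} {T : Set Nat.Primes} {A₀ P : Nat.Primes → Torus n} {β : ℝ}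
    {B : Nat.Primes → Fin d → ℂ}
    (h : ∀ (j : Fin d) (l : Weight n), (fun s => lam (fun p => B p j * (chr (mix T A₀ P p) l : ℂ)) s -
      lam (fun p => B p j * (chr (P p) l : ℂ)) s + lam (fun p => B p j * (chr (P p) l : ℂ)) (s + β) -
      lam (fun p => B p j * (chr (A₀ p) l : ℂ)) (s + β)) ∈ Neg) (ρ : Weight n →₀ ℤ) :
    Near β P A₀ (mix T A₀ P) ρ B := by
  have h1 : ∑ l ∈ ρ.support, (ρ l : ℂ) • ∑ j, (fun s => lam (fun p => B p j * (chr (mix T A₀ P p) l : ℂ)) s -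
      lam (fun p => B p j * (chr (P p) l : ℂ)) s + lam (fun p => B p j * (chr (P p) l : ℂ)) (s + β) -
      lam (fun p => B p j * (chr (A₀ p) l : ℂ)) (s + β)) ∈ Neg :=
    Submodule.sum_mem _ fun l _ => Neg.smul_mem _ (Submodule.sum_mem _ fun j _ => h j l)
  refine neg_of_eq h1 fun s hs => ?_
  simp only [Finset.sum_apply, Pi.smul_apply, smul_eq_mul, logTwist, Finsupp.sum]
  simp only [Finset.sum_sub_distrib, Finset.sum_add_distrib, mul_sub, mul_add]

/-- **Transplantation.** -/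
theorem transplant {n : ℕ} (P A₀ : Nat.Primes → Torus n) {β : ℝ} (hβ : 0 < β) (hβ1 : β < 1 / 2) {ι : Type}
    [Countable ι] (d : ι → ℕ) (B : ∀ i, Nat.Primes → Fin (d i) → ℂ) (hB : ∀ i p j, ‖B i p j‖ ≤ 1) :
    ∃ T : Set Nat.Primes, Thin (1 - β) T ∧ ∀ (i : ι) (ρ : Weight n →₀ ℤ), Near β P A₀ (mix T A₀ P) ρ (B i) := by
  obtain ⟨T, hT, hd⟩ := exists_thin hβ hβ1 (κ := ((i : ι) × Fin (d i)) × Weight n × Bool)
    (fun k p => B k.1.1 p k.1.2 * (chr ((if k.2.2 then P else A₀) p) k.2.1 : ℂ)) (fun k p => by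
      rw [norm_mul, Circle.norm_coe, mul_one]; exact hB _ _ _)
  refine ⟨T, hT, fun i ρ => near_of_weights (fun j l => ?_) ρ⟩
  exact mix_weight hβ.le (fun p => hB i p j) l (hd (⟨i, j⟩, l, true)) (hd (⟨i, j⟩, l, false))

theorem logTwist_differentiableOn {n d : ℕ} (A : Nat.Primes → Torus n) (ρ : Weight n →₀ ℤ)
    {B : Nat.Primes → Fin d → ℂ} (hB : ∀ p j, ‖B p j‖ ≤ 1) : DifferentiableOn ℂ (logTwist A ρ B) (HP 1) := by
  unfold logTwist Finsupp.sum
  refine DifferentiableOn.fun_sum fun l _ => ?_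
  refine DifferentiableOn.const_mul ?_ _
  refine DifferentiableOn.fun_sum fun j _ => lam_differentiableOn fun p => ?_
  rw [norm_mul, Circle.norm_coe, mul_one]; exact hB p j

/-- An analytic function in `Re s > 1` which agrees in a smaller half-plane with a meromorphic function on a
larger one continues. -/
theorem continues_of_larger {σ c : ℝ} {f G : ℂ → ℂ} (hf : DifferentiableOn ℂ f (HP 1)) (hG : MeromorphicOn G (HP σ))
    (hσ : σ ≤ 1) (hc : ∀ s : ℂ, c < s.re → G s = f s) : Continues σ f := by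
  classical
  refine ⟨fun s => if 1 < s.re then f s else G s, fun s₀ hs₀ => ?_, fun s hs => if_pos hs⟩
  have hfa : ∀ z : ℂ, 1 < z.re → AnalyticAt ℂ f z := fun z hz =>
    hf.analyticAt ((isOpen_HP 1).mem_nhds hz)
  rcases lt_or_ge 1 s₀.re with h | h
  · refine (hfa s₀ h).meromorphicAt.congr ?_
    have h1 : ∀ᶠ z in 𝓝 s₀, z ∈ HP 1 := (isOpen_HP 1).mem_nhds h
    filter_upwards [h1.filter_mono nhdsWithin_le_nhds] with z hz
    exact (if_pos hz).symm
  · refine (hG s₀ hs₀).congr ?_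
    have h1 := (hG s₀ hs₀).eventually_analyticAt
    filter_upwards [h1] with z hz
    by_cases hz1 : 1 < z.re
    · rw [if_pos hz1]
      -- the identity theorem
      have hm : MeromorphicOn (fun s => G s - f s) (HP 1) := fun w hw =>
        (hG w (lt_of_le_of_lt hσ hw)).sub (hfa w hw).meromorphicAt
      have hU : IsPreconnected (HP 1) := (convex_halfSpace_re_gt 1).isPreconnected
      have hx : ((max c 1 + 1 : ℝ) : ℂ) ∈ HP 1 := by
        show 1 < ((max c 1 + 1 : ℝ) : ℂ).re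
        rw [Complex.ofReal_re]
        linarith [le_max_right c 1]
      have h2 : meromorphicOrderAt (fun s => G s - f s) z = ⊤ := by
        by_contra hne
        have h3 := hm.meromorphicOrderAt_ne_top_of_isPreconnected hU hz1 hx hne
        apply h3
        rw [meromorphicOrderAt_eq_top_iff]
        have h4 : ∀ᶠ w in 𝓝 ((max c 1 + 1 : ℝ) : ℂ), w ∈ HP (max c 1) := by
          refine (isOpen_HP _).mem_nhds ?_
          show max c 1 < ((max c 1 + 1 : ℝ) : ℂ).re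
          rw [Complex.ofReal_re]
          linarith
        filter_upwards [h4.filter_mono nhdsWithin_le_nhds] with w hw
        have hw' : max c 1 < w.re := hw
        rw [hc w (lt_of_le_of_lt (le_max_left c 1) hw'), sub_self]
      rw [meromorphicOrderAt_eq_top_iff] at h2
      have h5 : Tendsto (fun s => G s - f s) (𝓝[≠] z) (𝓝 (G z - f z)) :=
        ((hz.continuousAt.sub (hfa z hz1).continuousAt).tendsto).mono_left nhdsWithin_le_nhds
      have h6 : Tendsto (fun s => G s - f s) (𝓝[≠] z) (𝓝 0) :=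
        tendsto_const_nhds.congr' (h2.mono fun w hw => hw.symm)
      exact sub_eq_zero.mp (tendsto_nhds_unique h5 h6)
    · rw [if_neg hz1]

theorem continues_shift_iff {σ β : ℝ} (hβ : 0 ≤ β) (hσ : σ + β ≤ 1) {f : ℂ → ℂ}
    (hf : DifferentiableOn ℂ f (HP 1)) : Continues σ (fun s => f (s + β)) ↔ Continues (σ + β) f := by
  constructor
  · rintro ⟨F, hF, hFe⟩
    refine continues_of_larger (c := 1 + β) (G := fun s => F (s - β)) hf (fun s hs => ?_) hσ fun s hs => ?_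
    · have hs' : σ + β < s.re := hs
      exact MeromorphicAt.comp_analyticAt (f := F) (g := fun s => s - (β : ℂ))
        (hF (s - β) (show σ < (s - (β : ℂ)).re by rw [Complex.sub_re, Complex.ofReal_re]; linarith))
        (analyticAt_id.sub analyticAt_const)
    · rw [hFe (s - β) (by rw [Complex.sub_re, Complex.ofReal_re]; linarith)]
      beta_reduce
      rw [sub_add_cancel]
  · rintro ⟨F, hF, hFe⟩
    refine ⟨fun s => F (s + β), fun s hs => ?_, fun s hs => ?_⟩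
    · have hs' : σ < s.re := hs
      exact MeromorphicAt.comp_analyticAt (f := F) (g := fun s => s + (β : ℂ))
        (hF (s + β) (show σ + β < (s + (β : ℂ)).re by rw [Complex.add_re, Complex.ofReal_re]; linarith))
        (analyticAt_id.add analyticAt_const)
    · exact hFe (s + β) (by rw [Complex.add_re, Complex.ofReal_re]; linarith)

theorem Continues.mono {σ σ' : ℝ} (h : σ ≤ σ') {f : ℂ → ℂ} (hf : Continues σ f) : Continues σ' f := by
  obtain ⟨F, hF, hFe⟩ := hf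
  exact ⟨F, fun s hs => hF s (lt_of_le_of_lt h hs), hFe⟩

theorem Continues.mul {σ : ℝ} {f g : ℂ → ℂ} (hf : Continues σ f) (hg : Continues σ g) :
    Continues σ (fun s => f s * g s) := by
  obtain ⟨F, hF, hFe⟩ := hf
  obtain ⟨G, hG, hGe⟩ := hg
  refine ⟨fun s => F s * G s, fun s hs => (hF s hs).mul (hG s hs), fun s hs => ?_⟩
  beta_reduce
  rw [hFe s hs, hGe s hs]

theorem Continues.inv {σ : ℝ} {f : ℂ → ℂ} (hf : Continues σ f) : Continues σ (fun s => (f s)⁻¹) := by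
  obtain ⟨F, hF, hFe⟩ := hf
  refine ⟨fun s => (F s)⁻¹, fun s hs => (hF s hs).inv, fun s hs => ?_⟩
  beta_reduce
  rw [hFe s hs]

theorem Continues.congr {σ : ℝ} {f g : ℂ → ℂ} (hf : Continues σ f) (h : ∀ s : ℂ, 1 < s.re → g s = f s) :
    Continues σ g := by
  obtain ⟨F, hF, hFe⟩ := hf
  exact ⟨F, hF, fun s hs => by rw [hFe s hs, h s hs]⟩

theorem continues_exp {σ : ℝ} (hσ : 1 / 2 ≤ σ) {h : ℂ → ℂ} (hh : DifferentiableOn ℂ h (HP (1 / 2))) :
    Continues σ (fun s => Complex.exp (h s)) :=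
  ⟨fun s => Complex.exp (h s), fun s hs => ((hh.analyticAt ((isOpen_HP _).mem_nhds
    (lt_of_le_of_lt hσ hs))).cexp).meromorphicAt, fun _ _ => rfl⟩

/-- The relative L-function `L(s, A, ρ × B) L(s + β, P, ρ × B) / L(s, P, ρ × B)`. -/
noncomputable def LRel {n d : ℕ} (β : ℝ) (P A : Nat.Primes → Torus n) (ρ : Weight n →₀ ℤ)
    (B : Nat.Primes → Fin d → ℂ) (s : ℂ) : ℂ :=
  LTwist A ρ B s * LTwist P ρ B (s + β) / LTwist P ρ B s

theorem LTwist_ne_zero {n d : ℕ} (A : Nat.Primes → Torus n) (ρ : Weight n →₀ ℤ) {B : Nat.Primes → Fin d → ℂ}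
    (hB : ∀ p j, ‖B p j‖ ≤ 1) {s : ℂ} (hs : 1 < s.re) : LTwist A ρ B s ≠ 0 := by
  rw [LTwist_eq A ρ hB hs]
  exact Complex.exp_ne_zero _

theorem LTwist_differentiableOn {n d : ℕ} (A : Nat.Primes → Torus n) (ρ : Weight n →₀ ℤ)
    {B : Nat.Primes → Fin d → ℂ} (hB : ∀ p j, ‖B p j‖ ≤ 1) : DifferentiableOn ℂ (LTwist A ρ B) (HP 1) :=
  (logTwist_differentiableOn A ρ hB).cexp.congr fun _ hs => LTwist_eq A ρ hB hs

/-- The relative L-function continues exactly as far as the shifted L-function of `A₀`. -/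
theorem rel_iff {n d : ℕ} {β σ : ℝ} (hβ : 0 ≤ β) (hσ0 : 1 / 2 ≤ σ) (hσ : σ + β ≤ 1)
    {P A₀ A : Nat.Primes → Torus n} {ρ : Weight n →₀ ℤ} {B : Nat.Primes → Fin d → ℂ}
    (hB : ∀ p j, ‖B p j‖ ≤ 1) (hN : Near β P A₀ A ρ B) :
    Continues σ (LRel β P A ρ B) ↔ Continues (σ + β) (LTwist A₀ ρ B) := by
  rw [← continues_shift_iff hβ hσ (LTwist_differentiableOn A₀ ρ hB)]
  obtain ⟨h, hh, he⟩ := hN
  have key : ∀ s : ℂ, 1 < s.re → LRel β P A ρ B s = Complex.exp (h s) * LTwist A₀ ρ B (s + β) := by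
    intro s hs
    have hs' : 1 < (s + (β : ℂ)).re := by rw [Complex.add_re, Complex.ofReal_re]; linarith
    have h1 := he s hs
    beta_reduce at h1
    rw [LRel, LTwist_eq A ρ hB hs, LTwist_eq P ρ hB hs', LTwist_eq P ρ hB hs, LTwist_eq A₀ ρ hB hs',
      ← Complex.exp_add, ← Complex.exp_sub, ← Complex.exp_add, ← h1]
    congr 1
    ring
  constructor
  · intro hc
    have h1 := (continues_exp hσ0 (h := fun s => -h s) hh.neg).mul hc
    refine h1.congr fun s hs => ?_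
    rw [key s hs, ← mul_assoc, ← Complex.exp_add, neg_add_cancel, Complex.exp_zero, one_mul]
  · intro hc
    refine ((continues_exp hσ0 hh).mul hc).congr fun s hs => ?_
    exact key s hs

/-- If the L-function of `P` continues, that of `A` continues as far as the relative one. -/
theorem rel_iff_of_continues {n d : ℕ} {β σ : ℝ} (hβ : 0 ≤ β) {P A : Nat.Primes → Torus n} {ρ : Weight n →₀ ℤ}
    {B : Nat.Primes → Fin d → ℂ} (hB : ∀ p j, ‖B p j‖ ≤ 1) (hP : Continues σ (LTwist P ρ B)) :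
    Continues σ (LRel β P A ρ B) ↔ Continues σ (LTwist A ρ B) := by
  have hPs : Continues σ (fun s => LTwist P ρ B (s + β)) := by
    obtain ⟨F, hF, hFe⟩ := hP
    refine ⟨fun s => F (s + β), fun s hs => ?_, fun s hs => ?_⟩
    · have hs' : σ < s.re := hs
      exact MeromorphicAt.comp_analyticAt (f := F) (g := fun s => s + (β : ℂ))
        (hF (s + β) (show σ < (s + (β : ℂ)).re by rw [Complex.add_re, Complex.ofReal_re]; linarith))
        (analyticAt_id.add analyticAt_const)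
    · exact hFe (s + β) (by rw [Complex.add_re, Complex.ofReal_re]; linarith)
  constructor
  · intro h
    refine ((h.mul hP).mul hPs.inv).congr fun s hs => ?_
    have hs' : 1 < (s + (β : ℂ)).re := by rw [Complex.add_re, Complex.ofReal_re]; linarith
    have h1 := LTwist_ne_zero P ρ hB hs
    have h2 := LTwist_ne_zero P ρ hB hs'
    rw [LRel]
    field_simp
  · intro h
    refine ((h.mul hPs).mul hP.inv).congr fun s hs => ?_
    rw [LRel]
    rfl

theorem LFun_eq_LTwist {n : ℕ} (A : Nat.Primes → Torus n) (ρ : Weight n →₀ ℤ) (s : ℂ) :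
    LFun A ρ s = LTwist A ρ (fun _ (_ : Fin 1) => 1) s := by
  unfold LFun LTwist
  simp

/-- The relative L-function `L(s, A, ρ) L(s + δ, P, ρ) / L(s, P, ρ)`. -/
noncomputable def LQuot {n : ℕ} (δ : ℝ) (P A : Nat.Primes → Torus n) (ρ : Weight n →₀ ℤ) (s : ℂ) : ℂ :=
  LFun A ρ s * LFun P ρ (s + δ) / LFun P ρ s

/-- **Relative realization.** -/
theorem relative_realization {n : ℕ} (P : Nat.Primes → Torus n) (H : AddSubgroup (Weight n →₀ ℤ))
    (hH0 : triv n ∈ H) (hHd : ∀ ρ ∈ H, dual ρ ∈ H) {σ θ : ℝ} (hσ0 : 1 / 2 ≤ σ) (hσθ : σ < θ) (hθ : θ < 1)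
    {ι : Type} [Countable ι] (d : ι → ℕ) (B : ∀ i, Nat.Primes → Fin (d i) → ℂ)
    (hB : ∀ i p j, ‖B i p j‖ ≤ 1) (hBc : ∀ i, Continues (1 / 2) (LEuler (B i))) :
    ∃ (T : Set Nat.Primes) (A : Nat.Primes → Torus n), Thin θ T ∧ (∀ p, p ∉ T → A p = P p) ∧
      ∀ ρ : Weight n →₀ ℤ, (ρ ∈ H ↔ Continues (1 / 2) (LQuot (1 - θ) P A ρ)) ∧
        (ρ ∈ H ↔ Continues σ (LQuot (1 - θ) P A ρ)) ∧
        (Continues (1 / 2) (LFun P ρ) → (ρ ∈ H ↔ Continues (1 / 2) (LFun A ρ)) ∧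
          (ρ ∈ H ↔ Continues σ (LFun A ρ))) ∧
        (ρ ∈ H → ∀ i, Continues (1 / 2) (LTwist P ρ (B i)) → Continues (1 / 2) (LTwist A ρ (B i))) := by
  obtain ⟨A₀, hA₀⟩ := realization H hH0 hHd (σ := σ + (1 - θ)) (by linarith) d B hB hBc
  have hβ : (0 : ℝ) < 1 - θ := by linarith
  have hβ1 : 1 - θ < 1 / 2 := by linarith
  obtain ⟨T, hT, hN⟩ := transplant P A₀ hβ hβ1 (ι := Option ι) (fun o => match o with
    | none => 1
    | some i => d i) (fun o => match o with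
    | none => fun _ _ => 1
    | some i => B i) (fun o p j => by
      rcases o with _ | i
      · simp
      · exact hB i p j)
  rw [sub_sub_cancel] at hT
  have h1B : ∀ (p : Nat.Primes) (j : Fin 1), ‖((fun _ _ => 1 : Nat.Primes → Fin 1 → ℂ)) p j‖ ≤ 1 := by simp
  have hfun : ∀ (A : Nat.Primes → Torus n) (ρ : Weight n →₀ ℤ),
      LFun A ρ = LTwist A ρ (fun _ (_ : Fin 1) => 1) := fun A ρ => funext fun s => LFun_eq_LTwist A ρ s
  have hquot : ∀ ρ : Weight n →₀ ℤ, LQuot (1 - θ) P (mix T A₀ P) ρ =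
      LRel (1 - θ) P (mix T A₀ P) ρ (fun _ (_ : Fin 1) => 1) := fun ρ => funext fun s => by
    rw [LQuot, LRel, hfun, hfun]
  have hr : ∀ (ρ : Weight n →₀ ℤ) (τ : ℝ), 1 / 2 ≤ τ → τ + (1 - θ) ≤ 1 →
      (Continues τ (LQuot (1 - θ) P (mix T A₀ P) ρ) ↔ Continues (τ + (1 - θ)) (LFun A₀ ρ)) := by
    intro ρ τ h1 h2
    rw [hquot, hfun]
    exact rel_iff hβ.le h1 h2 h1B (hN none ρ)
  have hin : ∀ ρ ∈ H, Continues (1 / 2) (LQuot (1 - θ) P (mix T A₀ P) ρ) := fun ρ hρ =>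
    (hr ρ (1 / 2) le_rfl (by linarith)).mpr (((hA₀ ρ).1 hρ).1.mono (by linarith))
  have hout : ∀ ρ, Continues σ (LQuot (1 - θ) P (mix T A₀ P) ρ) → ρ ∈ H := fun ρ h => by
    by_contra hn
    exact (hA₀ ρ).2 hn ((hr ρ σ hσ0 (by linarith)).mp h)
  refine ⟨T, mix T A₀ P, hT, fun p hp => mix_of_notMem hp, fun ρ => ⟨⟨hin ρ, fun h => hout ρ (h.mono hσ0)⟩,
    ⟨fun h => (hin ρ h).mono hσ0, hout ρ⟩, fun hP => ?_, fun hρ i hPi => ?_⟩⟩
  · have hP' : Continues (1 / 2) (LTwist P ρ (fun _ (_ : Fin 1) => 1)) := by rw [← hfun]; exact hP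
    have e1 : ∀ τ, 1 / 2 ≤ τ → (Continues τ (LQuot (1 - θ) P (mix T A₀ P) ρ) ↔
        Continues τ (LFun (mix T A₀ P) ρ)) := fun τ hτ => by
      rw [hquot, hfun]
      exact rel_iff_of_continues hβ.le h1B (hP'.mono hτ)
    refine ⟨⟨fun h => (e1 _ le_rfl).mp (hin ρ h), fun h => hout ρ (((e1 _ le_rfl).mpr h).mono hσ0)⟩,
      ⟨fun h => (e1 _ hσ0).mp ((hin ρ h).mono hσ0), fun h => hout ρ ((e1 _ hσ0).mpr h)⟩⟩
  · refine (rel_iff_of_continues hβ.le (hB i) hPi).mp ?_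
    refine (rel_iff hβ.le le_rfl (by linarith) (hB i) (hN (some i) ρ)).mpr ?_
    exact (((hA₀ ρ).1 hρ).2 i).mono (by linarith)

end Pool.Agent.H70.CS
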