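import Pool.Agent.H70.CS.Fam

/-!
# Fractional powers of the zeta function do not continue
-/

set_option autoImplicit false

namespace Pool.Agent.H70.CS

open Complex Filter Topology ComplexConjugate

/-- `log |f(s₀ + ε)| - r log ε` converges for `ε → 0+`. -/
def HasLO (f : ℂ → ℂ) (s₀ : ℂ) (r : ℝ) : Prop :=
  ∃ c : ℝ, Tendsto (fun ε : ℝ => Real.log ‖f (s₀ + ε)‖ - r * Real.log ε) (𝓝[>] 0) (𝓝 c)

theorem tendsto_ray (s₀ : ℂ) : Tendsto (fun ε : ℝ => s₀ + ε) (𝓝[>] 0) (𝓝[≠] s₀) := by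
  refine tendsto_nhdsWithin_iff.2 ⟨?_, ?_⟩
  · have h : Tendsto (fun ε : ℝ => s₀ + (ε : ℂ)) (𝓝 0) (𝓝 (s₀ + ((0 : ℝ) : ℂ))) :=
      (continuous_const.add Complex.continuous_ofReal).tendsto 0
    rw [Complex.ofReal_zero, add_zero] at h
    exact h.mono_left nhdsWithin_le_nhds
  · filter_upwards [self_mem_nhdsWithin] with ε hε
    have hε' : (0 : ℝ) < ε := hε
    simp only [Set.mem_compl_iff, Set.mem_singleton_iff, add_eq_left, Complex.ofReal_eq_zero]
    exact hε'.ne'

theorem hasLO_of_order {f : ℂ → ℂ} {s₀ : ℂ} (hf : MeromorphicAt f s₀) (ho : meromorphicOrderAt f s₀ ≠ ⊤) :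
    ∃ k : ℤ, HasLO f s₀ k := by
  obtain ⟨k, hk⟩ := WithTop.ne_top_iff_exists.1 ho
  obtain ⟨g, hg, hg0, hfg⟩ := (meromorphicOrderAt_eq_int_iff hf).1 hk.symm
  refine ⟨k, Real.log ‖g s₀‖, ?_⟩
  have h1 : Tendsto (fun ε : ℝ => g (s₀ + ε)) (𝓝[>] 0) (𝓝 (g s₀)) :=
    hg.continuousAt.tendsto.comp ((tendsto_ray s₀).mono_right nhdsWithin_le_nhds)
  have h2 : Tendsto (fun ε : ℝ => Real.log ‖g (s₀ + ε)‖) (𝓝[>] 0) (𝓝 (Real.log ‖g s₀‖)) :=
    h1.norm.log (norm_ne_zero_iff.2 hg0)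
  refine h2.congr' ?_
  have h3 := (tendsto_ray s₀).eventually hfg
  have h4 := h1.eventually_ne hg0
  filter_upwards [h3, h4, self_mem_nhdsWithin] with ε he hne hε
  have hε' : (0 : ℝ) < ε := hε
  have h5 : s₀ + (ε : ℂ) - s₀ = (ε : ℂ) := by ring
  rw [he, h5, smul_eq_mul, norm_mul, norm_zpow, Complex.norm_real, Real.norm_eq_abs, abs_of_pos hε',
    Real.log_mul (zpow_ne_zero _ hε'.ne') (norm_ne_zero_iff.2 hne), Real.log_zpow]
  ring

theorem hasLO_unique {f g : ℂ → ℂ} {s₀ : ℂ} {r r' : ℝ} (hf : HasLO f s₀ r) (hg : HasLO g s₀ r')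
    (h : ∃ᶠ ε : ℝ in 𝓝[>] 0, f (s₀ + ε) = g (s₀ + ε)) : r = r' := by
  obtain ⟨c, hc⟩ := hf
  obtain ⟨c', hc'⟩ := hg
  by_contra hne
  have h1 : Tendsto (fun ε : ℝ => (Real.log ‖f (s₀ + ε)‖ - r * Real.log ε) -
      (Real.log ‖g (s₀ + ε)‖ - r' * Real.log ε)) (𝓝[>] 0) (𝓝 (c - c')) := hc.sub hc'
  have h2 : ∀ᶠ ε : ℝ in 𝓝[>] 0, |(Real.log ‖f (s₀ + ε)‖ - r * Real.log ε) -
      (Real.log ‖g (s₀ + ε)‖ - r' * Real.log ε)| < |c - c'| + 1 :=
    (h1.abs).eventually (gt_mem_nhds (by linarith))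
  have h3 : Tendsto (fun ε : ℝ => |r' - r| * |Real.log ε|) (𝓝[>] 0) atTop := by
    refine Tendsto.const_mul_atTop (abs_pos.2 (sub_ne_zero.2 (Ne.symm hne))) ?_
    exact tendsto_abs_atBot_atTop.comp Real.tendsto_log_nhdsGT_zero
  have h4 := h3.eventually (eventually_ge_atTop (|c - c'| + 1))
  obtain ⟨ε, ⟨h5, h6⟩, h7⟩ := ((h.and_eventually h2).and_eventually h4).exists
  rw [h5] at h6
  have h8 : Real.log ‖g (s₀ + ε)‖ - r * Real.log ε - (Real.log ‖g (s₀ + ε)‖ - r' * Real.log ε) =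
      (r' - r) * Real.log ε := by ring
  rw [h8, abs_mul] at h6
  linarith

/-- The logarithm of the zeta function in `Re s > 1`. -/
noncomputable def lam1 : ℂ → ℂ := lam (fun _ => 1)

theorem exp_lam1 {s : ℂ} (hs : 1 < s.re) : Complex.exp (lam1 s) = riemannZeta s := by
  rw [← riemannZeta_eulerProduct_exp_log hs, lam1, lam]
  simp only [one_mul]

theorem re_lam1 {s : ℂ} (hs : 1 < s.re) : (lam1 s).re = Real.log ‖riemannZeta s‖ := by
  rw [← exp_lam1 hs, Complex.norm_exp, Real.log_exp]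

theorem lam1_analytic {s : ℂ} (hs : 1 < s.re) : AnalyticAt ℂ lam1 s :=
  (lam_differentiableOn (b := fun _ => (1 : ℂ)) (fun _ => by simp)).analyticAt ((isOpen_HP 1).mem_nhds hs)

theorem zeta_analytic {s : ℂ} (hs : s ≠ 1) : AnalyticAt ℂ riemannZeta s := by
  have h : DifferentiableOn ℂ riemannZeta {1}ᶜ := fun z hz => (differentiableAt_riemannZeta hz).differentiableWithinAt
  exact h.analyticAt (isOpen_compl_singleton.mem_nhds hs)

theorem zeta_order {s : ℂ} (hs : s ≠ 1) : meromorphicOrderAt riemannZeta s ≠ ⊤ := by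
  have hU : IsPreconnected ({1}ᶜ : Set ℂ) :=
    (isConnected_compl_singleton_of_one_lt_rank (by simp) 1).isPreconnected
  have hm : MeromorphicOn riemannZeta {1}ᶜ := fun z hz => (zeta_analytic hz).meromorphicAt
  refine hm.meromorphicOrderAt_ne_top_of_isPreconnected hU (x := 2) (by simp) hs ?_
  have h2 : riemannZeta 2 ≠ 0 := riemannZeta_ne_zero_of_one_le_re (by norm_num)
  rw [(zeta_analytic (s := 2) (by norm_num)).meromorphicOrderAt_eq]
  rw [AnalyticAt.analyticOrderAt_eq_zero (zeta_analytic (s := 2) (by norm_num)) |>.2 h2]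
  simp

/-- **Fractional powers do not continue.** -/
theorem integral_of_continues {W : Type} [Encodable W] {x σ : ℝ} (hx0 : 0 < x) (hx : x < 1 / 2) (hσ : σ < 1 - x)
    {F h : ℂ → ℂ} (hF : MeromorphicOn F (HP σ)) (hh : DifferentiableOn ℂ h (HP (1 / 2))) (m : ℤ)
    (S : Finset W) (a a' : W → ℝ)
    (hFe : ∀ s : ℂ, 1 < s.re → F s = Complex.exp (h s + (m * lam1 s +
      ∑ w ∈ S, ((a w : ℂ) * lam1 (s + zz x w) + (a' w : ℂ) * lam1 (s + conj (zz x w)))))) :
    ∀ w ∈ S, ∃ k : ℤ, a w = k := by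
  classical
  intro w₀ hw₀
  set G : ℂ → ℂ := fun s => Complex.exp (h s +
    ∑ w ∈ S, ((a w : ℂ) * lam1 (s + zz x w) + (a' w : ℂ) * lam1 (s + conj (zz x w)))) with hG
  have hGan : ∀ s ∈ HP (1 - x), AnalyticAt ℂ G s := by
    intro s hs
    have hs' : 1 - x < s.re := hs
    have h1 : AnalyticAt ℂ h s := hh.analyticAt ((isOpen_HP _).mem_nhds (show 1 / 2 < s.re by linarith))
    refine (h1.add ?_).cexp
    refine Finset.analyticAt_fun_sum _ fun w _ => ?_
    have h2 : AnalyticAt ℂ (fun s => lam1 (s + zz x w)) s :=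
      AnalyticAt.comp (g := lam1) (f := fun s : ℂ => s + zz x w)
        (lam1_analytic (s := s + zz x w) (by rw [Complex.add_re, zz_re]; linarith))
        (analyticAt_id.add analyticAt_const)
    have h3 : AnalyticAt ℂ (fun s => lam1 (s + conj (zz x w))) s :=
      AnalyticAt.comp (g := lam1) (f := fun s : ℂ => s + conj (zz x w))
        (lam1_analytic (s := s + conj (zz x w)) (by rw [Complex.add_re, Complex.conj_re, zz_re]; linarith))
        (analyticAt_id.add analyticAt_const)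
    exact (analyticAt_const.mul h2).add (analyticAt_const.mul h3)
  set P : ℂ → ℂ := fun s => riemannZeta s ^ m * G s with hP
  have hzm : ∀ s : ℂ, MeromorphicAt riemannZeta s := by
    intro s
    by_cases hs : s = 1
    · -- (s - 1) ζ(s) is analytic
      subst hs
      have h1 : AnalyticAt ℂ (Function.update (fun s : ℂ => (s - 1) * riemannZeta s) 1 1) 1 := by
        refine Complex.analyticAt_of_differentiable_on_punctured_nhds_of_continuousAt ?_ ?_
        · filter_upwards [self_mem_nhdsWithin] with t ht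
          have ht' : t ≠ 1 := ht
          have h2 : DifferentiableAt ℂ (fun s : ℂ => (s - 1) * riemannZeta s) t :=
            (differentiableAt_id.sub_const 1).mul (differentiableAt_riemannZeta ht')
          refine h2.congr_of_eventuallyEq ?_
          filter_upwards [isOpen_compl_singleton.mem_nhds ht'] with u hu
          rw [Function.update_of_ne hu]
        · rw [continuousAt_update_same]
          exact riemannZeta_residue_one
      refine (h1.meromorphicAt.mul ((MeromorphicAt.id (1 : ℂ)).sub (MeromorphicAt.const 1 1)).inv).congr ?_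
      filter_upwards [self_mem_nhdsWithin] with t ht
      have ht' : t ≠ 1 := ht
      simp only [Pi.mul_apply, Pi.inv_apply, Pi.sub_apply, id, Function.update_of_ne ht']
      field_simp [sub_ne_zero.2 ht']
    · exact (zeta_analytic hs).meromorphicAt
  have hPm : MeromorphicOn P (HP (1 - x)) := fun s hs => ((hzm s).zpow m).mul (hGan s hs).meromorphicAt
  have hFm : MeromorphicOn F (HP (1 - x)) := fun s hs => hF s (lt_trans hσ hs)
  have heq1 : ∀ s : ℂ, 1 < s.re → F s = P s := by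
    intro s hs
    rw [hFe s hs, hP, hG]
    simp only
    rw [← exp_lam1 hs, ← Complex.exp_int_mul, ← Complex.exp_add]
    congr 1
    ring
  have hpre : IsPreconnected (HP (1 - x)) := (convex_halfSpace_re_gt (1 - x)).isPreconnected
  have heq : ∀ s ∈ HP (1 - x), ∀ᶠ t in 𝓝[≠] s, F t = P t := by
    intro s hs
    have h1 : meromorphicOrderAt (F - P) s = ⊤ := by
      by_contra hne
      have h2 := (hFm.sub hPm).meromorphicOrderAt_ne_top_of_isPreconnected hpre hs
        (y := 2) (show 1 - x < (2 : ℂ).re by norm_num; linarith) hne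
      apply h2
      rw [meromorphicOrderAt_eq_top_iff]
      have h3 : {s : ℂ | 1 < s.re} ∈ 𝓝 (2 : ℂ) := (isOpen_HP 1).mem_nhds (show (1 : ℝ) < (2 : ℂ).re by norm_num)
      filter_upwards [mem_nhdsWithin_of_mem_nhds h3] with t ht
      rw [Pi.sub_apply, heq1 t ht, sub_self]
    rw [meromorphicOrderAt_eq_top_iff] at h1
    filter_upwards [h1] with t ht
    exact sub_eq_zero.1 ht
  -- the point
  set s₀ : ℂ := 1 - zz x w₀ with hs₀
  have hs₀re : s₀.re = 1 - x := by rw [hs₀, Complex.sub_re, zz_re]; simp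
  have hs₀ne : s₀ ≠ 1 := by
    intro h1
    rw [h1] at hs₀re
    simp at hs₀re
    linarith
  have hray : ∀ ε : ℝ, 0 < ε → s₀ + ε ∈ HP (1 - x) := by
    intro ε hε
    show 1 - x < (s₀ + ε).re
    rw [Complex.add_re, hs₀re, Complex.ofReal_re]
    linarith
  have hfreq : ∃ᶠ ε : ℝ in 𝓝[>] 0, F (s₀ + ε) = P (s₀ + ε) := by
    rw [frequently_iff]
    intro U hU
    obtain ⟨δ, hδ, hδU⟩ := mem_nhdsGT_iff_exists_Ioo_subset.1 hU
    have hδ' : (0 : ℝ) < δ := hδ
    have h1 := heq (s₀ + ((δ / 2 : ℝ) : ℂ)) (hray _ (by linarith))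
    have h2 : Tendsto (fun ε : ℝ => s₀ + (ε : ℂ)) (𝓝[≠] (δ / 2)) (𝓝[≠] (s₀ + ((δ / 2 : ℝ) : ℂ))) := by
      refine tendsto_nhdsWithin_iff.2 ⟨?_, ?_⟩
      · exact ((continuous_const.add Complex.continuous_ofReal).tendsto (δ / 2)).mono_left nhdsWithin_le_nhds
      · filter_upwards [self_mem_nhdsWithin] with ε hε
        intro h3
        have h3' : s₀ + (ε : ℂ) = s₀ + ((δ / 2 : ℝ) : ℂ) := h3
        exact hε (Complex.ofReal_injective (add_left_cancel h3'))
    have h3 := h2.eventually h1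
    have h4 : ∀ᶠ ε : ℝ in 𝓝[≠] (δ / 2), ε ∈ Set.Ioo 0 δ :=
      mem_nhdsWithin_of_mem_nhds (Ioo_mem_nhds (by linarith) (by linarith))
    obtain ⟨ε, hε1, hε2⟩ := (h3.and h4).exists
    exact ⟨ε, hδU hε2, hε1⟩
  -- orders
  have hs₀HP : s₀ ∈ HP σ := by show σ < s₀.re; rw [hs₀re]; exact hσ
  have hFo : meromorphicOrderAt F s₀ ≠ ⊤ := by
    refine hF.meromorphicOrderAt_ne_top_of_isPreconnected (convex_halfSpace_re_gt σ).isPreconnected (x := 2)
      (show σ < (2 : ℂ).re by norm_num; linarith) hs₀HP ?_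
    rw [meromorphicOrderAt_ne_top_iff_eventually_ne_zero (hF 2 (show σ < (2 : ℂ).re by norm_num; linarith))]
    have h3 : {s : ℂ | 1 < s.re} ∈ 𝓝 (2 : ℂ) := (isOpen_HP 1).mem_nhds (show (1 : ℝ) < (2 : ℂ).re by norm_num)
    filter_upwards [mem_nhdsWithin_of_mem_nhds h3] with t ht
    rw [hFe t ht]
    exact Complex.exp_ne_zero _
  obtain ⟨k, hk⟩ := hasLO_of_order (hF s₀ hs₀HP) hFo
  obtain ⟨k', c', hc'⟩ := hasLO_of_order (zeta_analytic hs₀ne).meromorphicAt (zeta_order hs₀ne)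
  have hzray : ∀ z : ℂ, s₀ + z ≠ 1 → riemannZeta (s₀ + z) ≠ 0 → ∃ c : ℝ,
      Tendsto (fun ε : ℝ => Real.log ‖riemannZeta (s₀ + ε + z)‖) (𝓝[>] 0) (𝓝 c) := by
    intro z hz1 hz0
    refine ⟨Real.log ‖riemannZeta (s₀ + z)‖, ?_⟩
    have h1 : Tendsto (fun ε : ℝ => s₀ + ε + z) (𝓝[>] 0) (𝓝 (s₀ + z)) :=
      ((tendsto_ray s₀).mono_right nhdsWithin_le_nhds).add_const z
    exact ((zeta_analytic hz1).continuousAt.tendsto.comp h1).norm.log (norm_ne_zero_iff.2 hz0)
  have hconj : ∀ w : W, ∃ c : ℝ, Tendsto (fun ε : ℝ => Real.log ‖riemannZeta (s₀ + ε + conj (zz x w))‖)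
      (𝓝[>] 0) (𝓝 c) := by
    intro w
    refine hzray _ ?_ (riemannZeta_ne_zero_of_one_le_re ?_)
    · intro h1
      have h2 := congrArg Complex.im h1
      rw [Complex.add_im, hs₀, Complex.sub_im, zz_im, Complex.conj_im, zz_im] at h2
      simp only [Complex.one_im] at h2
      have h3 : (0 : ℝ) ≤ (Encodable.encode w₀ : ℝ) := Nat.cast_nonneg _
      have h4 : (0 : ℝ) ≤ (Encodable.encode w : ℝ) := Nat.cast_nonneg _
      linarith
    · rw [Complex.add_re, hs₀re, Complex.conj_re, zz_re]; linarith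
  have hother : ∀ w : W, w ≠ w₀ → ∃ c : ℝ, Tendsto (fun ε : ℝ => Real.log ‖riemannZeta (s₀ + ε + zz x w)‖)
      (𝓝[>] 0) (𝓝 c) := by
    intro w hw
    refine hzray _ ?_ (riemannZeta_ne_zero_of_one_le_re ?_)
    · intro h1
      have h2 := congrArg Complex.im h1
      rw [Complex.add_im, hs₀, Complex.sub_im, zz_im, zz_im] at h2
      simp only [Complex.one_im] at h2
      have h3 : (Encodable.encode w : ℝ) = (Encodable.encode w₀ : ℝ) := by linarith
      exact hw (Encodable.encode_injective (by exact_mod_cast h3))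
    · rw [Complex.add_re, hs₀re, zz_re]; linarith
  have hself : Tendsto (fun ε : ℝ => Real.log ‖riemannZeta (s₀ + ε + zz x w₀)‖ + Real.log ε) (𝓝[>] 0) (𝓝 0) := by
    have h1 : Tendsto (fun ε : ℝ => (((1 : ℂ) + ε) - 1) * riemannZeta (1 + ε)) (𝓝[>] 0) (𝓝 1) :=
      riemannZeta_residue_one.comp (tendsto_ray 1)
    have h2 := h1.norm.log (by simp)
    rw [norm_one, Real.log_one] at h2
    refine h2.congr' ?_
    have h3 := h1.eventually_ne one_ne_zero
    filter_upwards [self_mem_nhdsWithin, h3] with ε hε h3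
    have hε' : (0 : ℝ) < ε := hε
    have h4 : s₀ + ε + zz x w₀ = 1 + ε := by rw [hs₀]; ring
    have h5 : ((1 : ℂ) + ε) - 1 = ε := by ring
    rw [h5] at h3
    rw [h4, h5, norm_mul, Complex.norm_real, Real.norm_eq_abs, abs_of_pos hε', Real.log_mul hε'.ne'
      (norm_ne_zero_iff.2 (right_ne_zero_of_mul h3))]
    ring
  have hhc : ∃ c : ℝ, Tendsto (fun ε : ℝ => (h (s₀ + ε)).re) (𝓝[>] 0) (𝓝 c) := by
    refine ⟨(h s₀).re, ?_⟩
    have h1 : AnalyticAt ℂ h s₀ :=
      hh.analyticAt ((isOpen_HP _).mem_nhds (show 1 / 2 < s₀.re by rw [hs₀re]; linarith))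
    exact (Complex.continuous_re.tendsto _).comp
      (h1.continuousAt.tendsto.comp ((tendsto_ray s₀).mono_right nhdsWithin_le_nhds))
  obtain ⟨ch, hch⟩ := hhc
  choose cc hcc using hconj
  choose! co hco using hother
  have hsum : Tendsto (fun ε : ℝ => (∑ w ∈ S, (a w * Real.log ‖riemannZeta (s₀ + ε + zz x w)‖ +
      a' w * Real.log ‖riemannZeta (s₀ + ε + conj (zz x w))‖)) + a w₀ * Real.log ε) (𝓝[>] 0)
      (𝓝 (∑ w ∈ S, ((if w = w₀ then 0 else a w * co w) + a' w * cc w))) := by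
    have h1 : ∀ ε : ℝ, (∑ w ∈ S, (a w * Real.log ‖riemannZeta (s₀ + ε + zz x w)‖ +
        a' w * Real.log ‖riemannZeta (s₀ + ε + conj (zz x w))‖)) + a w₀ * Real.log ε =
        ∑ w ∈ S, ((a w * Real.log ‖riemannZeta (s₀ + ε + zz x w)‖ + if w = w₀ then a w₀ * Real.log ε else 0) +
        a' w * Real.log ‖riemannZeta (s₀ + ε + conj (zz x w))‖) := by
      intro ε
      have h2 : a w₀ * Real.log ε = ∑ w ∈ S, if w = w₀ then a w₀ * Real.log ε else 0 := by
        rw [Finset.sum_ite_eq' S w₀ (fun _ => a w₀ * Real.log ε), if_pos hw₀]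
      refine (congrArg (fun t => (∑ w ∈ S, (a w * Real.log ‖riemannZeta (s₀ + ε + zz x w)‖ +
        a' w * Real.log ‖riemannZeta (s₀ + ε + conj (zz x w))‖)) + t) h2).trans ?_
      rw [← Finset.sum_add_distrib]
      refine Finset.sum_congr rfl fun w _ => ?_
      ring
    simp only [h1]
    refine tendsto_finsetSum _ fun w hw => ?_
    refine Tendsto.add ?_ ((hcc w).const_mul _)
    by_cases hww : w = w₀
    · subst hww
      simp only [if_true]
      have := hself.const_mul (a w)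
      rw [mul_zero] at this
      refine this.congr fun ε => ?_
      ring
    · simp only [if_neg hww, add_zero]
      exact (hco w hww).const_mul _
  have hP' : HasLO P s₀ (m * k' - a w₀) := by
    refine ⟨m * c' + (ch + ∑ w ∈ S, ((if w = w₀ then 0 else a w * co w) + a' w * cc w)), ?_⟩
    refine ((hc'.const_mul (m : ℝ)).add (hch.add hsum)).congr' ?_
    have h0 : ∀ᶠ t in 𝓝[≠] s₀, riemannZeta t ≠ 0 :=
      (meromorphicOrderAt_ne_top_iff_eventually_ne_zero (zeta_analytic hs₀ne).meromorphicAt).1 (zeta_order hs₀ne)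
    have h1 := (tendsto_ray s₀).eventually h0
    filter_upwards [self_mem_nhdsWithin, h1] with ε hε hz
    have hε' : (0 : ℝ) < ε := hε
    rw [hP, hG]
    simp only
    rw [norm_mul, norm_zpow, Real.log_mul (zpow_ne_zero _ (norm_ne_zero_iff.2 hz))
      (norm_ne_zero_iff.2 (Complex.exp_ne_zero _)), Real.log_zpow, Complex.norm_exp, Real.log_exp,
      Complex.add_re, Complex.re_sum]
    have h2 : ∀ w ∈ S, ((a w : ℂ) * lam1 (s₀ + ε + zz x w) + (a' w : ℂ) * lam1 (s₀ + ε + conj (zz x w))).re =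
        a w * Real.log ‖riemannZeta (s₀ + ε + zz x w)‖ +
        a' w * Real.log ‖riemannZeta (s₀ + ε + conj (zz x w))‖ := by
      intro w _
      rw [Complex.add_re, Complex.re_ofReal_mul, Complex.re_ofReal_mul, re_lam1, re_lam1]
      · rw [Complex.add_re, Complex.add_re, hs₀re, Complex.conj_re, zz_re, Complex.ofReal_re]; linarith
      · rw [Complex.add_re, Complex.add_re, hs₀re, zz_re, Complex.ofReal_re]; linarith
    rw [Finset.sum_congr rfl h2]
    ring
  have hfin := hasLO_unique hk hP' hfreq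
  refine ⟨m * k' - k, ?_⟩
  push_cast
  linarith

end Pool.Agent.H70.CS
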