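import Pool.Agent.H70.CS.Defs

/-!
# One step of the greedy choice
-/

set_option autoImplicit false

namespace Pool.Agent.H70.CS

open Complex ComplexConjugate

/-- The mean values prescribed by the density `1 + Re ∑ g(l) conj(l)`. -/
noncomputable def expect {n : ℕ} (g : Weight n → ℂ) (m : Weight n) : ℂ :=
  (if m = 0 then 1 else 0) + (g m + conj (g (-m))) / 2

/-- The points of the torus with coordinates roots of unity of order `M`. -/
noncomputable def gridPt {n M : ℕ} [NeZero M] (x : ZMod M × (Fin n → ZMod M)) : Torus n :=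
  (ZMod.toCircle x.1, fun i => ZMod.toCircle (x.2 i))

theorem gridPt_add {n M : ℕ} [NeZero M] (x y : ZMod M × (Fin n → ZMod M)) :
    gridPt (x + y) = gridPt x * gridPt y := by
  ext i <;> simp [gridPt, AddChar.map_add_eq_mul]

/-- The additive character of the grid attached to a weight. -/
noncomputable def gridChar {n M : ℕ} [NeZero M] (l : Weight n) : AddChar (ZMod M × (Fin n → ZMod M)) ℂ where
  toFun x := (chr (gridPt x) l : ℂ)
  map_zero_eq_one' := by
    simp [chr, gridPt]
  map_add_eq_mul' x y := by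
    rw [gridPt_add, chr_mul, Circle.coe_mul]

theorem gridChar_apply {n M : ℕ} [NeZero M] (l : Weight n) (x : ZMod M × (Fin n → ZMod M)) :
    gridChar l x = (chr (gridPt x) l : ℂ) := rfl

theorem toCircle_zpow {M : ℕ} [NeZero M] (k : ℤ) : (ZMod.toCircle (1 : ZMod M)) ^ k = ZMod.toCircle (k : ZMod M) := by
  rw [← AddChar.map_zsmul_eq_zpow]
  congr 1
  simp

theorem gridChar_eq_one {n M : ℕ} [NeZero M] {l : Weight n} (h : (gridChar l : AddChar (ZMod M × (Fin n → ZMod M)) ℂ) = 0) :
    (M : ℤ) ∣ l.1 ∧ ∀ i, (M : ℤ) ∣ l.2 i := by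
  have key : ∀ k : ℤ, (ZMod.toCircle (1 : ZMod M)) ^ k = 1 → (M : ℤ) ∣ k := by
    intro k hk
    rw [toCircle_zpow, ← AddChar.map_zero_eq_one (ZMod.toCircle (N := M))] at hk
    have := ZMod.injective_toCircle hk
    exact (ZMod.intCast_zmod_eq_zero_iff_dvd k M).1 this
  constructor
  · apply key
    have h1 := DFunLike.congr_fun h ((1 : ZMod M), (0 : Fin n → ZMod M))
    rw [gridChar_apply, AddChar.zero_apply] at h1
    have h2 : chr (gridPt ((1 : ZMod M), (0 : Fin n → ZMod M))) l = (ZMod.toCircle (1 : ZMod M)) ^ l.1 := by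
      simp [chr, gridPt]
    rw [h2] at h1
    exact Circle.ext (by rw [h1, Circle.coe_one])
  · intro i
    apply key
    have h1 := DFunLike.congr_fun h ((0 : ZMod M), (Pi.single i 1 : Fin n → ZMod M))
    rw [gridChar_apply, AddChar.zero_apply] at h1
    have h2 : chr (gridPt ((0 : ZMod M), (Pi.single i 1 : Fin n → ZMod M))) l = (ZMod.toCircle (1 : ZMod M)) ^ l.2 i := by
      simp only [chr, gridPt, AddChar.map_zero_eq_one, one_zpow, one_mul]
      rw [Finset.prod_eq_single i]
      · simp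
      · intro j _ hj
        simp [Pi.single_eq_of_ne hj]
      · simp
    rw [h2] at h1
    exact Circle.ext (by rw [h1, Circle.coe_one])

theorem sum_gridChar {n M : ℕ} [NeZero M] {l : Weight n}
    (h : (M : ℤ) ∣ l.1 → (∀ i, (M : ℤ) ∣ l.2 i) → l = 0) :
    ∑ x : ZMod M × (Fin n → ZMod M), (chr (gridPt x) l : ℂ) =
      if l = 0 then (Fintype.card (ZMod M × (Fin n → ZMod M)) : ℂ) else 0 := by
  classical
  have h1 := AddChar.sum_eq_ite (gridChar l : AddChar (ZMod M × (Fin n → ZMod M)) ℂ)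
  simp only [gridChar_apply] at h1
  rw [h1]
  by_cases hl : l = 0
  · subst hl
    have h0 : (gridChar 0 : AddChar (ZMod M × (Fin n → ZMod M)) ℂ) = 0 := by
      ext x
      rw [gridChar_apply, chr_zero]
      simp
    rw [if_pos h0, if_pos rfl]
  · rw [if_neg hl, if_neg]
    intro h0
    obtain ⟨h2, h3⟩ := gridChar_eq_one h0
    exact hl (h h2 h3)

/-- A modulus which separates the differences of the elements of a finite set of weights. -/
theorem exists_modulus {n : ℕ} (Z : Finset (Weight n)) :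
    ∃ M : ℕ, 0 < M ∧ ∀ a ∈ Z, ((M : ℤ) ∣ a.1) → (∀ i, (M : ℤ) ∣ a.2 i) → a = 0 := by
  classical
  refine ⟨1 + Z.sup (fun a => a.1.natAbs + ∑ i, (a.2 i).natAbs), by omega, ?_⟩
  intro a ha h1 h2
  have hle : a.1.natAbs + ∑ i, (a.2 i).natAbs ≤ Z.sup (fun a => a.1.natAbs + ∑ i, (a.2 i).natAbs) :=
    Finset.le_sup (f := fun a : Weight n => a.1.natAbs + ∑ i, (a.2 i).natAbs) ha
  have key : ∀ k : ℤ, ((1 + Z.sup (fun a => a.1.natAbs + ∑ i, (a.2 i).natAbs) : ℕ) : ℤ) ∣ k →
      k.natAbs ≤ a.1.natAbs + ∑ i, (a.2 i).natAbs → k = 0 := by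
    intro k hk hle'
    have h3 := Int.natAbs_dvd_natAbs.2 hk
    rw [Int.natAbs_natCast] at h3
    rcases Nat.eq_zero_or_pos k.natAbs with h4 | h4
    · exact Int.natAbs_eq_zero.1 h4
    · have := Nat.le_of_dvd h4 h3
      omega
  refine Prod.ext ?_ ?_
  · exact key _ h1 (by omega)
  · funext i
    refine key _ (h2 i) ?_
    have : (a.2 i).natAbs ≤ ∑ i, (a.2 i).natAbs :=
      Finset.single_le_sum (f := fun i => (a.2 i).natAbs) (fun _ _ => Nat.zero_le _) (Finset.mem_univ i)
    omega

/-- **One step.**  For a finite linear combination of the deviations `l(x) - expect(l)` there is a point of the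
torus at which the real part is not positive. -/
theorem exists_step {n : ℕ} (T : Finset (Weight n)) (g : Weight n → ℂ) (h0 : (0 : Weight n) ∉ T)
    (hg : ∑ l ∈ T, ‖g l‖ ≤ 1) (hz : ∀ l, l ∉ T → g l = 0) {τ : Type} (s : Finset τ) (lt : τ → Weight n) (u : τ → ℂ) :
    ∃ x : Torus n, (∑ t ∈ s, u t * ((chr x (lt t) : ℂ) - expect g (lt t))).re ≤ 0 := by
  classical
  obtain ⟨M, hM, hsep⟩ := exists_modulus
    (((insert 0 (s.image lt)) ×ˢ T).image (fun q => q.1 - q.2) ∪
     ((insert 0 (s.image lt)) ×ˢ T).image (fun q => q.1 + q.2) ∪ (insert 0 (s.image lt)))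
  have : NeZero M := ⟨by omega⟩
  let G := ZMod M × (Fin n → ZMod M)
  let N : ℂ := (Fintype.card G : ℂ)
  have hN : N ≠ 0 := by
    have : Fintype.card G ≠ 0 := Fintype.card_ne_zero
    show (Fintype.card G : ℂ) ≠ 0
    exact_mod_cast this
  let f : G → ℝ := fun x => 1 + (∑ l ∈ T, g l * conj (chr (gridPt x) l : ℂ)).re
  have hf0 : ∀ x, 0 ≤ f x := by
    intro x
    have h1 : |(∑ l ∈ T, g l * conj (chr (gridPt x) l : ℂ)).re| ≤ 1 := by
      refine (Complex.abs_re_le_norm _).trans ((norm_sum_le _ _).trans ?_)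
      refine le_trans (le_of_eq ?_) hg
      refine Finset.sum_congr rfl fun l _ => ?_
      rw [norm_mul, RCLike.norm_conj, Circle.norm_coe, mul_one]
    have := (abs_le.1 h1).1
    show 0 ≤ 1 + _
    linarith
  have hfc : ∀ x, (f x : ℂ) = 1 + (∑ l ∈ T, g l * (chr (gridPt x) (-l) : ℂ)) / 2 +
      (∑ l ∈ T, conj (g l) * (chr (gridPt x) l : ℂ)) / 2 := by
    intro x
    show ((1 + (∑ l ∈ T, g l * conj (chr (gridPt x) l : ℂ)).re : ℝ) : ℂ) = _
    push_cast
    have e1 : (∑ l ∈ T, g l * conj (chr (gridPt x) l : ℂ)) = ∑ l ∈ T, g l * (chr (gridPt x) (-l) : ℂ) := by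
      refine Finset.sum_congr rfl fun l _ => ?_
      rw [chr_neg, Circle.coe_inv_eq_conj]
    have e2 : conj (∑ l ∈ T, g l * conj (chr (gridPt x) l : ℂ)) = ∑ l ∈ T, conj (g l) * (chr (gridPt x) l : ℂ) := by
      rw [map_sum]
      refine Finset.sum_congr rfl fun l _ => ?_
      rw [map_mul, Complex.conj_conj]
    rw [Complex.re_eq_add_conj, e2, e1, add_div, ← add_assoc]
  have hmean : ∀ m ∈ insert 0 (s.image lt), ∑ x : G, (f x : ℂ) * (chr (gridPt x) m : ℂ) = N * expect g m := by
    intro m hm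
    have h1 : ∀ x : G, (f x : ℂ) * (chr (gridPt x) m : ℂ) = (chr (gridPt x) m : ℂ) +
        (∑ l ∈ T, g l / 2 * (chr (gridPt x) (m - l) : ℂ)) + (∑ l ∈ T, conj (g l) / 2 * (chr (gridPt x) (m + l) : ℂ)) := by
      intro x
      have e1 : (∑ l ∈ T, g l * (chr (gridPt x) (-l) : ℂ)) / 2 * (chr (gridPt x) m : ℂ) =
          ∑ l ∈ T, g l / 2 * (chr (gridPt x) (m - l) : ℂ) := by
        rw [div_mul_eq_mul_div, Finset.sum_mul, Finset.sum_div]
        refine Finset.sum_congr rfl fun l _ => ?_
        rw [sub_eq_add_neg, chr_add, Circle.coe_mul]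
        ring
      have e2 : (∑ l ∈ T, conj (g l) * (chr (gridPt x) l : ℂ)) / 2 * (chr (gridPt x) m : ℂ) =
          ∑ l ∈ T, conj (g l) / 2 * (chr (gridPt x) (m + l) : ℂ) := by
        rw [div_mul_eq_mul_div, Finset.sum_mul, Finset.sum_div]
        refine Finset.sum_congr rfl fun l _ => ?_
        rw [chr_add, Circle.coe_mul]
        ring
      rw [hfc, add_mul, add_mul, one_mul, e1, e2]
    rw [Finset.sum_congr rfl fun x _ => h1 x, Finset.sum_add_distrib, Finset.sum_add_distrib, Finset.sum_comm,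
      Finset.sum_comm (s := Finset.univ) (t := T)]
    have h2 : ∑ x : G, (chr (gridPt x) m : ℂ) = if m = 0 then N else 0 := by
      refine sum_gridChar (hsep m ?_)
      exact Finset.mem_union_right _ hm
    have h3 : ∀ l ∈ T, ∑ x : G, g l / 2 * (chr (gridPt x) (m - l) : ℂ) = if m = l then N * (g l / 2) else 0 := by
      intro l hl
      rw [← Finset.mul_sum, sum_gridChar (hsep (m - l) ?_)]
      · by_cases hml : m = l
        · rw [if_pos hml, if_pos (sub_eq_zero.2 hml)]
          ring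
        · rw [if_neg hml, if_neg (sub_ne_zero.2 hml), mul_zero]
      · refine Finset.mem_union_left _ (Finset.mem_union_left _ ?_)
        exact Finset.mem_image.2 ⟨(m, l), Finset.mem_product.2 ⟨hm, hl⟩, rfl⟩
    have h4 : ∀ l ∈ T, ∑ x : G, conj (g l) / 2 * (chr (gridPt x) (m + l) : ℂ) =
        if -m = l then N * (conj (g l) / 2) else 0 := by
      intro l hl
      rw [← Finset.mul_sum, sum_gridChar (hsep (m + l) ?_)]
      · by_cases hml : -m = l
        · rw [if_pos hml, if_pos (by rw [← hml, add_neg_cancel])]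
          ring
        · rw [if_neg hml, if_neg, mul_zero]
          intro h
          exact hml (neg_eq_of_add_eq_zero_right h)
      · refine Finset.mem_union_left _ (Finset.mem_union_right _ ?_)
        exact Finset.mem_image.2 ⟨(m, l), Finset.mem_product.2 ⟨hm, hl⟩, rfl⟩
    rw [h2, Finset.sum_congr rfl h3, Finset.sum_congr rfl h4, Finset.sum_ite_eq, Finset.sum_ite_eq]
    have h5 : (if m ∈ T then N * (g m / 2) else 0) = N * (g m / 2) := by
      by_cases h : m ∈ T
      · rw [if_pos h]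
      · rw [if_neg h, hz m h]; simp
    have h6 : (if -m ∈ T then N * (conj (g (-m)) / 2) else 0) = N * (conj (g (-m)) / 2) := by
      by_cases h : -m ∈ T
      · rw [if_pos h]
      · rw [if_neg h, hz _ h]; simp
    rw [h5, h6, expect]
    by_cases hm0 : m = 0
    · rw [if_pos hm0, if_pos hm0]; ring
    · rw [if_neg hm0, if_neg hm0]; ring
  have hsumf : ∑ x : G, (f x : ℂ) = N := by
    have h1 := hmean 0 (Finset.mem_insert_self _ _)
    simp only [chr_zero, Circle.coe_one, mul_one, expect, if_true, neg_zero, hz 0 h0, map_zero, add_zero,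
      zero_div] at h1
    exact h1
  let Lin : G → ℝ := fun x => (∑ t ∈ s, u t * ((chr (gridPt x) (lt t) : ℂ) - expect g (lt t))).re
  have hlin : ∑ x : G, f x * Lin x = 0 := by
    have h1 : ((∑ x : G, (f x : ℂ) * ∑ t ∈ s, u t * ((chr (gridPt x) (lt t) : ℂ) - expect g (lt t))) : ℂ) = 0 := by
      simp_rw [Finset.mul_sum]
      rw [Finset.sum_comm]
      refine Finset.sum_eq_zero fun t ht => ?_
      have h2 : ∀ x : G, (f x : ℂ) * (u t * ((chr (gridPt x) (lt t) : ℂ) - expect g (lt t))) =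
          u t * ((f x : ℂ) * (chr (gridPt x) (lt t) : ℂ)) - u t * expect g (lt t) * (f x : ℂ) := fun x => by ring
      rw [Finset.sum_congr rfl fun x _ => h2 x, Finset.sum_sub_distrib, ← Finset.mul_sum, ← Finset.mul_sum, hsumf,
        hmean (lt t) (Finset.mem_insert_of_mem (Finset.mem_image_of_mem _ ht))]
      ring
    have h2 := congrArg Complex.re h1
    rw [Complex.re_sum] at h2
    simp only [Complex.re_ofReal_mul, Complex.zero_re] at h2
    exact h2
  by_contra hcon
  push Not at hcon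
  have hpos : ∀ x, 0 < Lin x := fun x => hcon (gridPt x)
  have h1 : ∀ x ∈ (Finset.univ : Finset G), f x * Lin x = 0 :=
    (Finset.sum_eq_zero_iff_of_nonneg fun x _ => mul_nonneg (hf0 x) (hpos x).le).1 hlin
  have h2 : ∀ x, f x = 0 := fun x => by
    rcases mul_eq_zero.1 (h1 x (Finset.mem_univ x)) with h | h
    · exact h
    · exact absurd h (hpos x).ne'
  apply hN
  rw [← hsumf]
  refine Finset.sum_eq_zero fun x _ => ?_
  rw [h2 x]
  simp

end Pool.Agent.H70.CS
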