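import Pool.Agent.H70.CS.Main

/-!
# Thin sets of primes which are equidistributed for countably many sequences
-/

set_option autoImplicit false

namespace Pool.Agent.H70.CS

open Complex Finset ComplexConjugate

/-- **Greedy choice**, abstract form. -/
theorem abstract_greedy {α : Type} (v : ℕ → α → ℕ → ℂ) (hv : ∀ q a t, ‖v q a t‖ ≤ 3)
    (hstep : ∀ (q : ℕ) (u : ℕ → ℂ), ∃ a, (∑ t ∈ range q, u t * v q a t).re ≤ 0) :
    ∃ A : ℕ → α, ∀ t, ∃ C : ℝ, ∀ N : ℕ, ‖∑ q ∈ range N, v q (A q) t‖ ≤ C * Real.sqrt N := by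
  classical
  have hstep' : ∀ (q : ℕ) (D : ℕ → ℂ), ∃ a : α,
      (∑ t ∈ range q, ((((1 : ℝ) / 4) ^ t : ℝ) * conj (D t)) * v q a t).re ≤ 0 :=
    fun q D => hstep q _
  choose step hs using hstep'
  let D : ℕ → ℕ → ℂ := fun q => Nat.rec (motive := fun _ => ℕ → ℂ) (fun _ => 0)
    (fun q D t => D t + v q (step q D) t) q
  have hD0 : ∀ t, D 0 t = 0 := fun t => rfl
  have hDs : ∀ q t, D (q + 1) t = D q t + v q (step q (D q)) t := fun q t => rfl
  have hDtriv : ∀ q t, ‖D q t‖ ≤ 3 * q := by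
    intro q t
    induction q with
    | zero => rw [hD0]; simp
    | succ q ih =>
      rw [hDs]
      refine (norm_add_le _ _).trans ?_
      have := hv q (step q (D q)) t
      push_cast
      linarith
  let Φ : ℕ → ℝ := fun q => ∑ t ∈ range q, ((1 : ℝ) / 4) ^ t * ‖D q t‖ ^ 2
  have hΦ : ∀ q : ℕ, Φ q ≤ 27 * q := by
    intro q
    induction q with
    | zero => show ∑ t ∈ range 0, _ ≤ _; simp
    | succ q ih =>
      have h1 : Φ (q + 1) = ∑ t ∈ range q, ((1 : ℝ) / 4) ^ t * ‖D (q + 1) t‖ ^ 2 +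
          (1 / 4) ^ q * ‖D (q + 1) q‖ ^ 2 := by
        show ∑ t ∈ range (q + 1), _ = _
        rw [sum_range_succ]
      have h2 : (1 / 4 : ℝ) ^ q * ‖D (q + 1) q‖ ^ 2 ≤ 9 := by
        have h3 := hDtriv (q + 1) q
        push_cast at h3
        have h4 : ‖D (q + 1) q‖ ^ 2 ≤ (3 * ((q : ℝ) + 1)) ^ 2 := by gcongr
        have h5 := quarter_pow_le q
        calc (1 / 4 : ℝ) ^ q * ‖D (q + 1) q‖ ^ 2 ≤ (1 / 4 : ℝ) ^ q * (3 * ((q : ℝ) + 1)) ^ 2 := by gcongr
          _ = 9 * ((1 / 4 : ℝ) ^ q * ((q : ℝ) + 1) ^ 2) := by ring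
          _ ≤ 9 := by linarith
      have h3 : ∑ t ∈ range q, ((1 : ℝ) / 4) ^ t * ‖D (q + 1) t‖ ^ 2 =
          Φ q + 2 * (∑ t ∈ range q, ((((1 : ℝ) / 4) ^ t : ℝ) * conj (D q t)) *
            v q (step q (D q)) t).re +
          ∑ t ∈ range q, ((1 : ℝ) / 4) ^ t * ‖v q (step q (D q)) t‖ ^ 2 := by
        rw [Complex.re_sum, Finset.mul_sum]
        show _ = ∑ t ∈ range q, _ + _ + _
        rw [← sum_add_distrib, ← sum_add_distrib]
        refine sum_congr rfl fun t _ => ?_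
        rw [hDs, norm_sq_add]
        have h4 : ((((1 : ℝ) / 4) ^ t : ℝ) * conj (D q t)) * v q (step q (D q)) t =
            (((1 : ℝ) / 4) ^ t : ℝ) * (conj (D q t) * v q (step q (D q)) t) := by
          ring
        rw [h4, Complex.re_ofReal_mul]
        ring
      have h4 : ∑ t ∈ range q, ((1 : ℝ) / 4) ^ t * ‖v q (step q (D q)) t‖ ^ 2 ≤ 18 := by
        calc ∑ t ∈ range q, ((1 : ℝ) / 4) ^ t * ‖v q (step q (D q)) t‖ ^ 2 ≤
              ∑ t ∈ range q, ((1 : ℝ) / 4) ^ t * 9 := by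
              refine sum_le_sum fun t _ => ?_
              have h5 : ‖v q (step q (D q)) t‖ ^ 2 ≤ 3 ^ 2 := by gcongr; exact hv q _ t
              have h6 : (0 : ℝ) ≤ (1 / 4) ^ t := by positivity
              nlinarith
          _ = (∑ t ∈ range q, ((1 : ℝ) / 4) ^ t) * 9 := by rw [sum_mul]
          _ ≤ 18 := by have := sum_quarter q; linarith
      have h5 := hs q (D q)
      rw [h1, h3, Nat.cast_succ]
      linarith
  refine ⟨fun q => step q (D q), fun t => ?_⟩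
  have hsum : ∀ N : ℕ, ∑ q ∈ range N, v q (step q (D q)) t = D N t := by
    intro N
    induction N with
    | zero => rw [hD0]; simp
    | succ N ih => rw [sum_range_succ, ih, hDs]
  refine ⟨3 * (t + 1) + Real.sqrt (27 * 4 ^ t), fun N => ?_⟩
  rw [hsum]
  have hsN : 0 ≤ Real.sqrt N := Real.sqrt_nonneg _
  rcases Nat.lt_or_ge t N with h | h
  · have h1 : ((1 : ℝ) / 4) ^ t * ‖D N t‖ ^ 2 ≤ 27 * N := by
      refine le_trans ?_ (hΦ N)
      exact single_le_sum (f := fun t => ((1 : ℝ) / 4) ^ t * ‖D N t‖ ^ 2) (fun _ _ => by positivity)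
        (mem_range.2 h)
    have h2 : ‖D N t‖ ^ 2 ≤ 27 * 4 ^ t * N := by
      have h3 : (4 : ℝ) ^ t * ((1 / 4) ^ t * ‖D N t‖ ^ 2) = ‖D N t‖ ^ 2 := by
        rw [← mul_assoc, ← mul_pow]; norm_num
      rw [← h3]
      calc (4 : ℝ) ^ t * ((1 / 4) ^ t * ‖D N t‖ ^ 2) ≤ 4 ^ t * (27 * N) := by gcongr
        _ = 27 * 4 ^ t * N := by ring
    have h3 : ‖D N t‖ ≤ Real.sqrt (27 * 4 ^ t) * Real.sqrt N := by
      rw [← Real.sqrt_mul (by positivity)]
      exact Real.le_sqrt_of_sq_le h2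
    have h4 : 0 ≤ 3 * ((t : ℝ) + 1) * Real.sqrt N := by positivity
    linarith [add_mul (3 * ((t : ℝ) + 1)) (Real.sqrt (27 * 4 ^ t)) (Real.sqrt N)]
  · have h1 := hDtriv N t
    have h2 : (N : ℝ) = Real.sqrt N * Real.sqrt N := (Real.mul_self_sqrt (Nat.cast_nonneg N)).symm
    have h3 : Real.sqrt N ≤ t + 1 := by
      rw [Real.sqrt_le_left (by positivity)]
      have h4 : (N : ℝ) ≤ t := by exact_mod_cast h
      have h5 : (0 : ℝ) ≤ t := Nat.cast_nonneg t
      nlinarith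
    have h4 : ‖D N t‖ ≤ 3 * (t + 1) * Real.sqrt N := by
      calc ‖D N t‖ ≤ 3 * N := h1
        _ = 3 * (Real.sqrt N * Real.sqrt N) := by rw [← h2]
        _ ≤ 3 * ((t + 1) * Real.sqrt N) := by gcongr
        _ = 3 * (t + 1) * Real.sqrt N := by ring
    have h5 : 0 ≤ Real.sqrt (27 * 4 ^ t) * Real.sqrt N := by positivity
    linarith [add_mul (3 * ((t : ℝ) + 1)) (Real.sqrt (27 * 4 ^ t)) (Real.sqrt N)]

/-- A random set: a set of natural numbers which contains `q` with probability `r q`, tested against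
countably many bounded sequences. -/
theorem exists_bits (r : ℕ → ℝ) (hr : ∀ q, 0 ≤ r q ∧ r q ≤ 1) (c : ℕ → ℕ → ℂ)
    (hc : ∀ t q, ‖c t q‖ ≤ 1) : ∃ τ : ℕ → Bool, ∀ t, ∃ C : ℝ, ∀ N : ℕ,
      ‖∑ q ∈ range N, c t q * (((τ q).toNat : ℂ) - (r q : ℂ))‖ ≤ C * Real.sqrt N := by
  refine abstract_greedy (fun q (a : Bool) t => c t q * ((a.toNat : ℂ) - (r q : ℂ))) ?_ ?_
  · intro q a t
    rw [norm_mul]
    have h1 : ‖((a.toNat : ℂ) - (r q : ℂ))‖ ≤ 3 := by
      refine (norm_sub_le _ _).trans ?_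
      have h2 : ‖(r q : ℂ)‖ ≤ 1 := by
        rw [Complex.norm_real, Real.norm_eq_abs, abs_of_nonneg (hr q).1]
        exact (hr q).2
      have h3 : ‖((a.toNat : ℕ) : ℂ)‖ ≤ 1 := by
        cases a <;> simp
      linarith
    have h2 := mul_le_mul (hc t q) h1 (norm_nonneg _) zero_le_one
    linarith
  · intro q u
    have key : ∀ a : Bool, ∑ t ∈ range q, u t * (c t q * ((a.toNat : ℂ) - (r q : ℂ))) =
        ((((a.toNat : ℝ) - r q : ℝ)) : ℂ) * ∑ t ∈ range q, u t * c t q := by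
      intro a
      rw [Finset.mul_sum]
      refine Finset.sum_congr rfl fun t _ => ?_
      push_cast
      ring
    rcases le_or_gt 0 (∑ t ∈ range q, u t * c t q).re with h | h
    · refine ⟨false, ?_⟩
      rw [key, Complex.re_ofReal_mul]
      have := (hr q).1
      simp only [Bool.toNat_false, Nat.cast_zero, zero_sub]
      nlinarith
    · refine ⟨true, ?_⟩
      rw [key, Complex.re_ofReal_mul]
      have := (hr q).2
      simp only [Bool.toNat_true, Nat.cast_one]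
      nlinarith

/-- `∑ q^{-β}` -/
theorem sum_rpow_le {β : ℝ} (hβ : 0 < β) (hβ1 : β < 1) (N : ℕ) :
    ∑ q ∈ range N, ((q : ℝ) ^ (-β)) ≤ (1 - β)⁻¹ * (N : ℝ) ^ (1 - β) := by
  have h0 : (0 : ℝ) < 1 - β := by linarith
  have key : ∀ q : ℕ, ((q : ℝ) ^ (-β)) ≤ (1 - β)⁻¹ * (((q + 1 : ℕ) : ℝ) ^ (1 - β) - (q : ℝ) ^ (1 - β)) + 
      ((q : ℝ) ^ (-β) - ((q + 1 : ℕ) : ℝ) ^ (-β)) := by
    intro q
    have hq : (0 : ℝ) < ((q + 1 : ℕ) : ℝ) := by positivity
    have h1 : ((q : ℝ)) = ((q + 1 : ℕ) : ℝ) * (1 + -(((q + 1 : ℕ) : ℝ)⁻¹)) := by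
      rw [mul_add, mul_one, mul_neg, mul_inv_cancel₀ hq.ne']
      push_cast
      ring
    have h2 : (q : ℝ) ^ (1 - β) ≤ ((q + 1 : ℕ) : ℝ) ^ (1 - β) -
        (1 - β) * ((q + 1 : ℕ) : ℝ) ^ (-β) := by
      have h3 : (-1 : ℝ) ≤ -(((q + 1 : ℕ) : ℝ)⁻¹) := by
        rw [neg_le_neg_iff]
        refine inv_le_one_of_one_le₀ ?_
        exact_mod_cast Nat.succ_le_succ (Nat.zero_le q)
      have h4 := _root_.rpow_one_add_le_one_add_mul_self h3 h0.le (by linarith : 1 - β ≤ 1)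
      have h5 : (q : ℝ) ^ (1 - β) = ((q + 1 : ℕ) : ℝ) ^ (1 - β) *
          (1 + -(((q + 1 : ℕ) : ℝ)⁻¹)) ^ (1 - β) := by
        rw [← Real.mul_rpow hq.le (by linarith), ← h1]
      rw [h5]
      have h6 : ((q + 1 : ℕ) : ℝ) ^ (-β) = ((q + 1 : ℕ) : ℝ) ^ (1 - β) * ((q + 1 : ℕ) : ℝ)⁻¹ := by
        rw [← Real.rpow_neg_one, ← Real.rpow_add hq]
        congr 1
        ring
      rw [h6]
      have h7 : (0 : ℝ) ≤ ((q + 1 : ℕ) : ℝ) ^ (1 - β) := by positivity
      calc ((q + 1 : ℕ) : ℝ) ^ (1 - β) * (1 + -(((q + 1 : ℕ) : ℝ)⁻¹)) ^ (1 - β) ≤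
            ((q + 1 : ℕ) : ℝ) ^ (1 - β) * (1 + (1 - β) * -(((q + 1 : ℕ) : ℝ)⁻¹)) := by gcongr
        _ = _ := by ring
    have h3 : ((q + 1 : ℕ) : ℝ) ^ (-β) ≤
        (1 - β)⁻¹ * (((q + 1 : ℕ) : ℝ) ^ (1 - β) - (q : ℝ) ^ (1 - β)) := by
      rw [inv_mul_eq_div, le_div_iff₀ h0]
      linarith
    linarith
  have h1 : ∀ M : ℕ, ∑ q ∈ range M, ((q : ℝ) ^ (-β)) ≤ (1 - β)⁻¹ * (M : ℝ) ^ (1 - β) - (M : ℝ) ^ (-β) := by
    intro M
    induction M with
    | zero =>
      rw [Finset.range_zero, Finset.sum_empty, Nat.cast_zero, Real.zero_rpow h0.ne',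
        Real.zero_rpow (by linarith)]
      simp
    | succ M ih =>
      rw [Finset.sum_range_succ]
      have := key M
      linarith
  have h2 := h1 N
  have h3 : (0 : ℝ) ≤ (N : ℝ) ^ (-β) := by positivity
  linarith

/-- The number of the elements of `T` below `N` is `O(N^θ)`. -/
def Thin (θ : ℝ) (T : Set Nat.Primes) : Prop :=
  ∃ C : ℝ, ∀ N : ℕ, (({p : Nat.Primes | p ∈ T ∧ (p : ℕ) < N}.ncard : ℕ) : ℝ) ≤ C * (N : ℝ) ^ θ

/-- **Thin sets of primes.** For `0 < β < 1/2` there is a set of primes with `O(N^{1-β})` elements below `N`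
over which countably many bounded sequences have the sums which one expects. -/
theorem exists_thin {β : ℝ} (hβ : 0 < β) (hβ1 : β < 1 / 2) {κ : Type} [Countable κ]
    (b : κ → Nat.Primes → ℂ) (hb : ∀ k p, ‖b k p‖ ≤ 1) :
    ∃ T : Set Nat.Primes, Thin (1 - β) T ∧ ∀ k,
      dir (fun p => b k p * (T.indicator (fun _ => (1 : ℂ)) p - ((p : ℕ) : ℂ) ^ (-(β : ℂ)))) ∈ Neg := by
  classical
  have hr : ∀ q : ℕ, 0 ≤ (q : ℝ) ^ (-β) ∧ (q : ℝ) ^ (-β) ≤ 1 := by
    intro q
    refine ⟨by positivity, ?_⟩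
    rcases Nat.eq_zero_or_pos q with h | h
    · rw [h, Nat.cast_zero, Real.zero_rpow (by linarith)]
      exact zero_le_one
    · exact Real.rpow_le_one_of_one_le_of_nonpos (by exact_mod_cast h) (by linarith)
  obtain ⟨e, he⟩ := exists_surjective_nat (Option κ)
  obtain ⟨τ, hτ⟩ := exists_bits (fun q : ℕ => (q : ℝ) ^ (-β)) hr
    (fun t q => if h : q.Prime then (match e t with
      | none => 1
      | some k => b k ⟨q, h⟩) else 0) (fun t q => by
      split_ifs with h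
      · rcases e t with _ | k
        · simp
        · exact hb _ _
      · simp)
  refine ⟨{p | τ p = true}, ?_, fun k => ?_⟩
  · -- thinness
    obtain ⟨t, ht⟩ := he none
    obtain ⟨C, hC⟩ := hτ t
    simp only [ht] at hC
    have hC0 : 0 ≤ C := by
      have h1 := hC 1
      have h2 := (norm_nonneg _).trans h1
      simpa using h2
    refine ⟨(1 - β)⁻¹ + C, fun N => ?_⟩
    have h1 : (({p : Nat.Primes | p ∈ {p : Nat.Primes | τ p = true} ∧ (p : ℕ) < N}.ncard : ℕ) : ℝ) =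
        ∑ q ∈ range N, (if q.Prime then ((τ q).toNat : ℝ) else 0) := by
      have h2 : {p : Nat.Primes | p ∈ {p : Nat.Primes | τ p = true} ∧ (p : ℕ) < N}.ncard =
          ((range N).filter fun q => q.Prime ∧ τ q = true).card := by
        rw [← Set.ncard_coe_finset]
        refine Set.ncard_congr (fun p _ => (p : ℕ)) ?_ ?_ ?_
        · rintro p ⟨hp, hpN⟩
          simp only [Finset.coe_filter, Finset.mem_range, Set.mem_ofPred_eq]
          exact ⟨hpN, p.2, hp⟩
        · intro p q _ _ h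
          exact Subtype.ext h
        · intro q hq
          simp only [Finset.coe_filter, Finset.mem_range, Set.mem_ofPred_eq] at hq
          exact ⟨⟨q, hq.2.1⟩, ⟨hq.2.2, hq.1⟩, rfl⟩
      rw [h2, Finset.card_filter, Nat.cast_sum]
      refine Finset.sum_congr rfl fun q _ => ?_
      by_cases hq : q.Prime
      · rw [if_pos hq]
        cases h3 : τ q
        · simp
        · simp [hq]
      · rw [if_neg hq]
        simp [hq]
    rw [h1]
    have h2 : ∑ q ∈ range N, (if q.Prime then ((τ q).toNat : ℝ) else 0) ≤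
        ∑ q ∈ range N, (q : ℝ) ^ (-β) + C * Real.sqrt N := by
      have h3 := hC N
      have h4 : (∑ q ∈ range N, (if q.Prime then ((τ q).toNat : ℝ) else 0)) -
          ∑ q ∈ range N, (q : ℝ) ^ (-β) ≤
          (∑ q ∈ range N, (if h : q.Prime then (1 : ℂ) else 0) *
            (((τ q).toNat : ℂ) - (((q : ℝ) ^ (-β) : ℝ) : ℂ))).re := by
        rw [Complex.re_sum, ← Finset.sum_sub_distrib]
        refine Finset.sum_le_sum fun q _ => ?_
        by_cases hq : q.Prime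
        · rw [if_pos hq, dif_pos hq, one_mul, Complex.sub_re, Complex.ofReal_re, Complex.natCast_re]
        · rw [if_neg hq, dif_neg hq, zero_mul, Complex.zero_re]
          linarith [(hr q).1]
      have h5 := (h4.trans (Complex.re_le_norm _)).trans h3
      linarith
    have h6 : Real.sqrt N ≤ (N : ℝ) ^ (1 - β) := by
      rcases Nat.eq_zero_or_pos N with h | h
      · rw [h]
        simp only [Nat.cast_zero, Real.sqrt_zero]
        positivity
      · rw [Real.sqrt_eq_rpow]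
        exact Real.rpow_le_rpow_of_exponent_le (by exact_mod_cast h) (by linarith)
    have h7 := sum_rpow_le hβ (by linarith) N
    nlinarith
  · obtain ⟨t, ht⟩ := he (some k)
    obtain ⟨C, hC⟩ := hτ t
    simp only [ht] at hC
    set c : ℕ → ℂ := fun q => (if h : q.Prime then b k ⟨q, h⟩ else 0) *
      (((τ q).toNat : ℂ) - (((q : ℝ) ^ (-β) : ℝ) : ℂ)) with hc
    have hc0 : c 0 = 0 := by rw [hc]; simp [Nat.not_prime_zero]
    have hcM : ∀ q, ‖c q‖ ≤ 2 := by
      intro q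
      rw [hc]
      simp only
      rw [norm_mul]
      have h1 : ‖(if h : q.Prime then b k ⟨q, h⟩ else 0)‖ ≤ 1 := by
        split_ifs
        · exact hb _ _
        · rw [norm_zero]; exact zero_le_one
      have h2 : ‖(((τ q).toNat : ℂ) - (((q : ℝ) ^ (-β) : ℝ) : ℂ))‖ ≤ 2 := by
        refine (norm_sub_le _ _).trans ?_
        have h3 : ‖(((q : ℝ) ^ (-β) : ℝ) : ℂ)‖ ≤ 1 := by
          rw [Complex.norm_real, Real.norm_eq_abs, abs_of_nonneg (hr q).1]
          exact (hr q).2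
        have h4 : ‖(((τ q).toNat : ℕ) : ℂ)‖ ≤ 1 := by
          cases τ q <;> simp
        linarith
      have h3 := mul_le_mul h1 h2 (norm_nonneg _) zero_le_one
      linarith
    have h1 := neg_of_sqrt hc0 hcM hC
    refine neg_of_eq h1 fun s hs => ?_
    unfold dir
    have h2 : ∀ p : Nat.Primes, b k p * ({p : Nat.Primes | τ p = true}.indicator (fun _ => (1 : ℂ)) p -
        ((p : ℕ) : ℂ) ^ (-(β : ℂ))) * ((p : ℕ) : ℂ) ^ (-s) =
        (fun q : ℕ => c q * (q : ℂ) ^ (-s)) (p : ℕ) := by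
      intro p
      simp only [hc]
      rw [dif_pos p.2]
      have h3 : ((((p : ℕ) : ℝ) ^ (-β) : ℝ) : ℂ) = ((p : ℕ) : ℂ) ^ (-(β : ℂ)) := by
        rw [Complex.ofReal_cpow (Nat.cast_nonneg _)]
        push_cast
        rfl
      rw [h3]
      have h4 : {p : Nat.Primes | τ p = true}.indicator (fun _ => (1 : ℂ)) p = ((τ p).toNat : ℂ) := by
        by_cases h5 : τ (p : ℕ) = true
        · rw [Set.indicator_of_mem (show p ∈ {p : Nat.Primes | τ p = true} from h5), h5]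
          simp
        · rw [Set.indicator_of_notMem (show p ∉ {p : Nat.Primes | τ p = true} from h5)]
          rw [Bool.not_eq_true] at h5
          rw [h5]
          simp
      rw [h4]
      rfl
    refine (tsum_congr h2).trans ?_
    refine tsum_subtype_eq_of_support_subset (f := fun q : ℕ => c q * (q : ℂ) ^ (-s)) (s := {p : ℕ | p.Prime}) ?_
    intro q hq
    by_contra hn
    apply hq
    have hn' : ¬ q.Prime := hn
    simp only [hc]
    rw [dif_neg hn', zero_mul, zero_mul]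

end Pool.Agent.H70.CS
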